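import Pool.Agent.Lib.P3e0609.Galerkin

/-!
Passage to the limit in the Galerkin system along an ultrafilter.
-/

set_option autoImplicit false

open MeasureTheory Set Filter Topology Metric
open scoped RealInnerProductSpace NNReal ComplexConjugate

namespace Pool.Agent.Lib.P3e0609

/-- `ℓ²` norm at most `X`. -/
def L2le (x : Z2 → ℂ) (X : ℝ) : Prop := ∀ s : Finset Z2, ∑ p ∈ s, ‖x p‖ ^ 2 ≤ X ^ 2

lemma L2le.norm_le {x : Z2 → ℂ} {X : ℝ} (h : L2le x X) (hX : 0 ≤ X) (p : Z2) : ‖x p‖ ≤ X := by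
  have := h {p}
  rw [Finset.sum_singleton] at this
  exact (sq_le_sq₀ (norm_nonneg _) hX).1 this

lemma abs_wt_le (k p : Z2) : |wt k p| ≤ Real.sqrt (nsq k) := by
  rcases eq_or_ne p 0 with rfl | hp
  · simp [wt]
  have h1 := wt_le k p
  have h2 : 1 ≤ Real.sqrt (nsq p) := Real.one_le_sqrt.2 (one_le_nsq hp)
  nlinarith [abs_nonneg (wt k p)]

lemma cs {x y : Z2 → ℂ} {X Y : ℝ} (hx : L2le x X) (hy : L2le y Y) (hX : 0 ≤ X) (hY : 0 ≤ Y)
    (k : Z2) (s : Finset Z2) : ∑ p ∈ s, ‖x p‖ * ‖y (k - p)‖ ≤ X * Y := by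
  refine (Real.sum_mul_le_sqrt_mul_sqrt s (fun p => ‖x p‖) (fun p => ‖y (k - p)‖)).trans ?_
  have h1 : Real.sqrt (∑ p ∈ s, ‖x p‖ ^ 2) ≤ X := by
    rw [Real.sqrt_le_left hX]; exact hx s
  have h2 : Real.sqrt (∑ p ∈ s, ‖y (k - p)‖ ^ 2) ≤ Y := by
    rw [Real.sqrt_le_left hY]
    have h3 := hy (s.map (Equiv.subLeft k).toEmbedding)
    rw [Finset.sum_map] at h3
    exact h3
  exact mul_le_mul h1 h2 (Real.sqrt_nonneg _) hX

lemma summable_norm_BS {x y : Z2 → ℂ} {X Y : ℝ} (hx : L2le x X) (hy : L2le y Y) (hX : 0 ≤ X)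
    (hY : 0 ≤ Y) (k : Z2) : Summable fun p => ‖(wt k p : ℂ) * x p * y (k - p)‖ := by
  refine summable_of_sum_le (c := Real.sqrt (nsq k) * (X * Y)) (fun _ => norm_nonneg _) fun s => ?_
  calc ∑ p ∈ s, ‖(wt k p : ℂ) * x p * y (k - p)‖ ≤
      ∑ p ∈ s, Real.sqrt (nsq k) * (‖x p‖ * ‖y (k - p)‖) := by
        refine Finset.sum_le_sum fun p _ => ?_
        rw [norm_mul, norm_mul, Complex.norm_real, Real.norm_eq_abs, mul_assoc]
        gcongr
        exact abs_wt_le k p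
    _ = Real.sqrt (nsq k) * ∑ p ∈ s, (‖x p‖ * ‖y (k - p)‖) := by rw [Finset.mul_sum]
    _ ≤ _ := by gcongr; exact cs hx hy hX hY k s

lemma norm_BS_le {x y : Z2 → ℂ} {X Y : ℝ} (hx : L2le x X) (hy : L2le y Y) (hX : 0 ≤ X)
    (hY : 0 ≤ Y) (k : Z2) : ‖BS k x y‖ ≤ Real.sqrt (nsq k) * (X * Y) := by
  refine (norm_tsum_le_tsum_norm (summable_norm_BS hx hy hX hY k)).trans ?_
  refine (summable_norm_BS hx hy hX hY k).tsum_le_of_sum_le fun s => ?_
  calc ∑ p ∈ s, ‖(wt k p : ℂ) * x p * y (k - p)‖ ≤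
      ∑ p ∈ s, Real.sqrt (nsq k) * (‖x p‖ * ‖y (k - p)‖) := by
        refine Finset.sum_le_sum fun p _ => ?_
        rw [norm_mul, norm_mul, Complex.norm_real, Real.norm_eq_abs, mul_assoc]
        gcongr
        exact abs_wt_le k p
    _ = Real.sqrt (nsq k) * ∑ p ∈ s, (‖x p‖ * ‖y (k - p)‖) := by rw [Finset.mul_sum]
    _ ≤ _ := by gcongr; exact cs hx hy hX hY k s

/-- The weights are small outside a finite set. -/
lemma exists_finset_wt (k : Z2) {ε : ℝ} (hε : 0 < ε) : ∃ J : Finset Z2, ∀ p ∉ J, |wt k p| ≤ ε := by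
  obtain ⟨N, hN⟩ := exists_nat_gt (Real.sqrt (nsq k) / ε)
  refine ⟨insert 0 (box N), fun p hp => ?_⟩
  rw [Finset.mem_insert, not_or, mem_box, not_and_or, not_and_or] at hp
  obtain ⟨hp0, hp1⟩ := hp
  have h1 : (N : ℝ) ≤ Real.sqrt (nsq p) := by
    apply Real.le_sqrt_of_sq_le
    rcases hp1 with h | h | h
    · exact absurd hp0 h
    · push Not at h
      have h2 : (N : ℝ) < |(p.1 : ℝ)| := by exact_mod_cast h
      unfold nsq
      have h3 : (N : ℝ) ^ 2 ≤ |(p.1 : ℝ)| ^ 2 := by gcongr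
      rw [sq_abs] at h3
      nlinarith [sq_nonneg (p.2 : ℝ)]
    · push Not at h
      have h2 : (N : ℝ) < |(p.2 : ℝ)| := by exact_mod_cast h
      unfold nsq
      have h3 : (N : ℝ) ^ 2 ≤ |(p.2 : ℝ)| ^ 2 := by gcongr
      rw [sq_abs] at h3
      nlinarith [sq_nonneg (p.1 : ℝ)]
  have h2 := wt_le k p
  have h3 : 0 < Real.sqrt (nsq p) := Real.sqrt_pos.2 (nsq_pos hp0)
  rw [div_lt_iff₀ hε] at hN
  by_contra hcon
  push Not at hcon
  have h4 : ε * Real.sqrt (nsq p) < |wt k p| * Real.sqrt (nsq p) := by gcongr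
  have h5 : (N : ℝ) * ε ≤ ε * Real.sqrt (nsq p) := by rw [mul_comm]; gcongr
  linarith

lemma BS_diff {x y x' y' : Z2 → ℂ} {X Y : ℝ} (hx : L2le x X) (hy : L2le y Y)
    (hx' : L2le x' X) (hy' : L2le y' Y) (hX : 0 ≤ X) (hY : 0 ≤ Y) (k : Z2) {ε : ℝ} (hε : 0 ≤ ε)
    (J : Finset Z2) (hJ : ∀ p ∉ J, |wt k p| ≤ ε) :
    ‖BS k x y - BS k x' y'‖ ≤
      ∑ p ∈ J, |wt k p| * ‖x p * y (k - p) - x' p * y' (k - p)‖ + 2 * ε * (X * Y) := by
  classical
  have hs := (summable_norm_BS hx hy hX hY k)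
  have hs' := (summable_norm_BS hx' hy' hX hY k)
  have e1 : BS k x y - BS k x' y' =
      ∑' p, (wt k p : ℂ) * (x p * y (k - p) - x' p * y' (k - p)) := by
    unfold BS
    rw [← hs.of_norm.tsum_sub hs'.of_norm]
    congr 1
    funext p
    ring
  have hsd : Summable fun p => ‖(wt k p : ℂ) * (x p * y (k - p) - x' p * y' (k - p))‖ := by
    refine Summable.of_nonneg_of_le (fun _ => norm_nonneg _) (fun p => ?_) (hs.add hs')
    have : (wt k p : ℂ) * (x p * y (k - p) - x' p * y' (k - p)) =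
      (wt k p : ℂ) * x p * y (k - p) - (wt k p : ℂ) * x' p * y' (k - p) := by ring
    rw [this]
    exact norm_sub_le _ _
  rw [e1]
  refine (norm_tsum_le_tsum_norm hsd).trans (hsd.tsum_le_of_sum_le fun s => ?_)
  have hterm : ∀ p, ‖(wt k p : ℂ) * (x p * y (k - p) - x' p * y' (k - p))‖ =
      |wt k p| * ‖x p * y (k - p) - x' p * y' (k - p)‖ := by
    intro p
    rw [norm_mul, Complex.norm_real, Real.norm_eq_abs]
  simp_rw [hterm]
  rw [← Finset.sum_inter_add_sum_sdiff s J]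
  have h1 : ∑ p ∈ s ∩ J, |wt k p| * ‖x p * y (k - p) - x' p * y' (k - p)‖ ≤
      ∑ p ∈ J, |wt k p| * ‖x p * y (k - p) - x' p * y' (k - p)‖ :=
    Finset.sum_le_sum_of_subset_of_nonneg Finset.inter_subset_right fun _ _ _ => by positivity
  have h2 : ∑ p ∈ s \ J, |wt k p| * ‖x p * y (k - p) - x' p * y' (k - p)‖ ≤
      2 * ε * (X * Y) := by
    calc ∑ p ∈ s \ J, |wt k p| * ‖x p * y (k - p) - x' p * y' (k - p)‖
        ≤ ∑ p ∈ s \ J, ε * (‖x p‖ * ‖y (k - p)‖ + ‖x' p‖ * ‖y' (k - p)‖) := by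
          refine Finset.sum_le_sum fun p hp => ?_
          have hp' : p ∉ J := (Finset.mem_sdiff.1 hp).2
          refine mul_le_mul (hJ p hp') ?_ (norm_nonneg _) hε
          refine (norm_sub_le _ _).trans ?_
          rw [norm_mul, norm_mul]
      _ = ε * (∑ p ∈ s \ J, ‖x p‖ * ‖y (k - p)‖ + ∑ p ∈ s \ J, ‖x' p‖ * ‖y' (k - p)‖) := by
          rw [← Finset.mul_sum, Finset.sum_add_distrib]
      _ ≤ ε * (X * Y + X * Y) := by
          gcongr
          · exact cs hx hy hX hY k _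
          · exact cs hx' hy' hX hY k _
      _ = _ := by ring
  linarith

/-- Continuity of the bilinear sum along a filter. -/
lemma tendsto_BS {ι : Type*} {l : Filter ι} {x y : ι → Z2 → ℂ} {x' y' : Z2 → ℂ} {X Y : ℝ}
    (hx : ∀ᶠ i in l, L2le (x i) X) (hy : ∀ᶠ i in l, L2le (y i) Y)
    (hx' : L2le x' X) (hy' : L2le y' Y) (hX : 0 ≤ X) (hY : 0 ≤ Y)
    (hxt : ∀ p, Tendsto (fun i => x i p) l (𝓝 (x' p)))
    (hyt : ∀ p, Tendsto (fun i => y i p) l (𝓝 (y' p))) (k : Z2) :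
    Tendsto (fun i => BS k (x i) (y i)) l (𝓝 (BS k x' y')) := by
  rw [Metric.tendsto_nhds]
  intro η hη
  have hpos : 0 < 4 * (X * Y + 1) := by positivity
  obtain ⟨J, hJ⟩ := exists_finset_wt k (ε := η / (4 * (X * Y + 1))) (by positivity)
  have h1 : Tendsto (fun i => ∑ p ∈ J, |wt k p| * ‖x i p * y i (k - p) - x' p * y' (k - p)‖) l
      (𝓝 0) := by
    have h2 : Tendsto (fun i => ∑ p ∈ J, |wt k p| * ‖x i p * y i (k - p) - x' p * y' (k - p)‖) l
      (𝓝 (∑ p ∈ J, |wt k p| * ‖x' p * y' (k - p) - x' p * y' (k - p)‖)) := by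
      apply tendsto_finsetSum
      intro p _
      exact (((hxt p).mul (hyt (k - p))).sub_const _).norm.const_mul _
    simpa using h2
  have h2 := h1.eventually (gt_mem_nhds (by positivity : (0 : ℝ) < η / 2))
  filter_upwards [h2, hx, hy] with i hi hxi hyi
  rw [dist_eq_norm]
  refine (BS_diff hxi hyi hx' hy' hX hY k (by positivity) J hJ).trans_lt ?_
  have h3 : 2 * (η / (4 * (X * Y + 1))) * (X * Y) ≤ η / 2 := by
    have h4 : 2 * (η / (4 * (X * Y + 1))) * (X * Y) = (η / 2) * ((X * Y) / (X * Y + 1)) := by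
      field_simp; ring
    rw [h4]
    have h5 : (X * Y) / (X * Y + 1) ≤ 1 := by
      rw [div_le_one (by positivity)]; linarith
    calc (η / 2) * ((X * Y) / (X * Y + 1)) ≤ (η / 2) * 1 := by gcongr
      _ = _ := mul_one _
  linarith

/-- Derivative of a pointwise limit. -/
lemma deriv_limit {ι : Type*} {l : Filter ι} [l.NeBot] {f N : ι → ℝ → ℂ} {f' : ℝ → ℂ} {N' : ℂ}
    {t : ℝ}
    (h : ∀ ε > 0, ∃ δ > 0, ∀ᶠ n in l, ∀ s ∈ ball t δ, HasDerivAt (f n) (N n s) s ∧
      ‖N n s - N n t‖ ≤ ε)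
    (hf : ∀ s, Tendsto (fun n => f n s) l (𝓝 (f' s))) (hN : Tendsto (fun n => N n t) l (𝓝 N')) :
    HasDerivAt f' N' t := by
  rw [hasDerivAt_iff_isLittleO, Asymptotics.isLittleO_iff]
  intro ε hε
  obtain ⟨δ, hδ, hev⟩ := h ε hε
  filter_upwards [ball_mem_nhds t hδ] with s hs
  have h1 : ∀ᶠ n in l, ‖f n s - f n t - (s - t) • N n t‖ ≤ ε * ‖s - t‖ := by
    filter_upwards [hev] with n hn
    have h2 := (convex_ball t δ).norm_image_sub_le_of_norm_hasDerivWithin_le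
      (f := fun s => f n s - (s - t) • N n t) (f' := fun s => N n s - N n t) (C := ε) (x := t)
      (y := s)
      (fun x hx => by
        have h3 : HasDerivAt (fun s : ℝ => (s - t) • N n t) ((1 : ℝ) • N n t) x :=
          ((hasDerivAt_id x).sub_const t).smul_const _
        rw [one_smul] at h3
        exact ((hn x hx).1.sub h3).hasDerivWithinAt)
      (fun x hx => (hn x hx).2) (mem_ball_self hδ) hs
    simp only [sub_self, zero_smul, sub_zero] at h2
    have e : f n s - f n t - (s - t) • N n t = f n s - (s - t) • N n t - f n t := by abel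
    rw [e]
    exact h2
  refine le_of_tendsto ?_ h1
  exact (((hf s).sub (hf t)).sub ((tendsto_const_nhds).smul hN)).norm

lemma ulim (u : ℕ → ℂ) (C : ℝ) (h : ∀ᶠ n in atTop, ‖u n‖ ≤ C) :
    ∃ x, Tendsto u (hyperfilter ℕ : Filter ℕ) (𝓝 x) := by
  have h1 : ((hyperfilter ℕ).map u : Filter ℂ) ≤ 𝓟 (closedBall 0 C) := by
    rw [le_principal_iff]
    have h2 : ∀ᶠ n in (hyperfilter ℕ : Filter ℕ), ‖u n‖ ≤ C := Nat.hyperfilter_le_atTop h
    change u ⁻¹' (closedBall 0 C) ∈ (hyperfilter ℕ : Filter ℕ)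
    filter_upwards [h2] with n hn
    simpa using hn
  obtain ⟨x, -, hx⟩ := (isCompact_closedBall (0 : ℂ) C).ultrafilter_le_nhds _ h1
  exact ⟨x, hx⟩

/-- Uniform equicontinuity of the bilinear sums. -/
lemma BS_equi (k : Z2) (X Y : ℝ) (hX : 0 ≤ X) (hY : 0 ≤ Y) (Cx Cy : Z2 → ℝ) (hCx : ∀ q, 0 ≤ Cx q)
    (hCy : ∀ q, 0 ≤ Cy q) {ε : ℝ} (hε : 0 < ε) :
    ∃ δ > 0, ∀ (t : ℝ) (x y : ℝ → Z2 → ℂ) (s : ℝ), s ∈ ball t δ → L2le (x s) X → L2le (y s) Y →
      L2le (x t) X → L2le (y t) Y → (∀ q, ‖x s q - x t q‖ ≤ Cx q * |s - t|) →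
      (∀ q, ‖y s q - y t q‖ ≤ Cy q * |s - t|) →
      ‖BS k (x s) (y s) - BS k (x t) (y t)‖ ≤ ε := by
  obtain ⟨J, hJ⟩ := exists_finset_wt k (ε := ε / (4 * (X * Y + 1))) (by positivity)
  set D : ℝ := ∑ p ∈ J, |wt k p| * (Cx p * Y + X * Cy (k - p)) with hD
  have hD0 : 0 ≤ D := Finset.sum_nonneg fun p _ => by
    have := hCx p; have := hCy (k - p); positivity
  refine ⟨ε / (2 * (D + 1)), by positivity, fun t x y s hs hxs hys hxt hyt hx hy => ?_⟩
  rw [mem_ball, Real.dist_eq] at hs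
  refine (BS_diff hxs hys hxt hyt hX hY k (by positivity) J hJ).trans ?_
  have h3 : 2 * (ε / (4 * (X * Y + 1))) * (X * Y) ≤ ε / 2 := by
    have h4 : 2 * (ε / (4 * (X * Y + 1))) * (X * Y) = (ε / 2) * ((X * Y) / (X * Y + 1)) := by
      field_simp; ring
    rw [h4]
    have h5 : (X * Y) / (X * Y + 1) ≤ 1 := by
      rw [div_le_one (by positivity)]; linarith
    calc (ε / 2) * ((X * Y) / (X * Y + 1)) ≤ (ε / 2) * 1 := by gcongr
      _ = _ := mul_one _
  have h4 : ∑ p ∈ J, |wt k p| * ‖x s p * y s (k - p) - x t p * y t (k - p)‖ ≤ D * |s - t| := by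
    rw [hD, Finset.sum_mul]
    refine Finset.sum_le_sum fun p _ => ?_
    rw [mul_assoc]
    gcongr
    have e : x s p * y s (k - p) - x t p * y t (k - p) =
      (x s p - x t p) * y s (k - p) + x t p * (y s (k - p) - y t (k - p)) := by ring
    rw [e]
    refine (norm_add_le _ _).trans ?_
    rw [norm_mul, norm_mul]
    calc _ ≤ (Cx p * |s - t|) * Y + X * (Cy (k - p) * |s - t|) := by
          gcongr
          · exact mul_nonneg (hCx p) (abs_nonneg _)
          · exact hx p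
          · exact hys.norm_le hY _
          · exact hxt.norm_le hX _
          · exact hy _
      _ = _ := by ring
  have h5 : D * |s - t| ≤ ε / 2 := by
    have h6 : |s - t| * (2 * (D + 1)) ≤ ε := by
      have := (lt_div_iff₀ (by positivity : 0 < 2 * (D + 1))).1 hs
      exact this.le
    nlinarith [abs_nonneg (s - t)]
  linarith

/-- Global solutions of the Fourier system with prescribed temperature at time `0`. -/
theorem global_fourier (κ ν g r : ℝ) (hκ : 0 < κ) (hν : 0 < ν) (hg : 0 < g) (hr : 0 ≤ r)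
    (c₀ : Z2 → ℂ) (hc0 : ∀ k, c₀ (-k) = conj (c₀ k)) (hcz : c₀ 0 = 0) (hcr : L2le c₀ r) :
    ∃ (B : ℝ) (θ ω : ℝ → Z2 → ℂ), 0 ≤ B ∧
      (∀ t k, θ t (-k) = conj (θ t k)) ∧ (∀ t k, ω t (-k) = conj (ω t k)) ∧
      (∀ t, θ t 0 = 0) ∧ (∀ t, ω t 0 = 0) ∧
      (∀ t, L2le (θ t) r) ∧ (∀ t, L2le (ω t) B) ∧ (θ 0 = c₀) ∧
      (∀ t k, HasDerivAt (fun s => θ s k) (BS k (ω t) (θ t)) t) ∧
      (∀ t k, HasDerivAt (fun s => ω s k) (BS k (ω t) (ω t) - ((ν * κ ^ 2 * nsq k : ℝ) : ℂ) * ω t k +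
          Complex.I * (κ * g * k.1 : ℝ) * θ t k) t) := by
  set B : ℝ := g * r / (ν * κ) + 1 with hBdef
  have hB0 : 0 ≤ B := by positivity
  have hB : g * r < ν * κ * B := by
    have h1 : ν * κ * B = g * r + ν * κ := by rw [hBdef]; field_simp
    rw [h1]
    have : 0 < ν * κ := by positivity
    linarith
  have H := fun m : ℕ => galerkin κ ν g r B hκ hν hg hr hB (m + 1) (Nat.succ_pos m) c₀ hc0 hcr
  choose θ ω g1 g2 g3 g4 g5 g6 g7 g8 g9 using H
  set l : Filter ℕ := (hyperfilter ℕ : Filter ℕ) with hl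
  have hla : l ≤ atTop := Nat.hyperfilter_le_atTop
  have hbig : ∀ t : ℝ, ∀ᶠ m : ℕ in atTop, |t| + 1 < ((m + 1 : ℕ) : ℝ) := by
    intro t
    obtain ⟨N, hN⟩ := exists_nat_gt (|t| + 1)
    filter_upwards [eventually_ge_atTop N] with m hm
    have : (N : ℝ) ≤ (m : ℝ) := by exact_mod_cast hm
    push_cast
    linarith
  have hbig' : ∀ t : ℝ, ∀ᶠ m : ℕ in l, |t| + 1 < ((m + 1 : ℕ) : ℝ) := fun t => hla (hbig t)
  have hmem : ∀ (t : ℝ) (m : ℕ), |t| + 1 < ((m + 1 : ℕ) : ℝ) → ∀ s ∈ ball t 1,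
      s ∈ Ioo (-((m + 1 : ℕ) : ℝ)) ((m + 1 : ℕ) : ℝ) := by
    intro t m hm s hs
    rw [mem_ball, Real.dist_eq] at hs
    have h1 := abs_lt.1 hs
    have h2 := abs_le.1 (le_refl |t|)
    constructor <;> linarith
  have hth : ∀ t k, ∃ x, Tendsto (fun m => θ m t k) l (𝓝 x) := by
    intro t k
    apply ulim _ r
    filter_upwards [hbig t] with m hm
    have h1 := g5 m t (Ioo_subset_Icc_self (hmem t m hm t (mem_ball_self one_pos)))
    exact L2le.norm_le h1 hr k
  have hom : ∀ t k, ∃ x, Tendsto (fun m => ω m t k) l (𝓝 x) := by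
    intro t k
    apply ulim _ B
    filter_upwards [hbig t] with m hm
    have h1 := g6 m t (Ioo_subset_Icc_self (hmem t m hm t (mem_ball_self one_pos)))
    exact L2le.norm_le h1 hB0 k
  choose Θ hΘ using hth
  choose Ω hΩ using hom
  have hΘ2 : ∀ t, L2le (Θ t) r := by
    intro t s
    have h1 : Tendsto (fun m => ∑ p ∈ s, ‖θ m t p‖ ^ 2) l (𝓝 (∑ p ∈ s, ‖Θ t p‖ ^ 2)) :=
      tendsto_finsetSum _ fun p _ => ((hΘ t p).norm.pow 2)
    refine le_of_tendsto h1 ?_
    filter_upwards [hbig' t] with m hm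
    exact g5 m t (Ioo_subset_Icc_self (hmem t m hm t (mem_ball_self one_pos))) s
  have hΩ2 : ∀ t, L2le (Ω t) B := by
    intro t s
    have h1 : Tendsto (fun m => ∑ p ∈ s, ‖ω m t p‖ ^ 2) l (𝓝 (∑ p ∈ s, ‖Ω t p‖ ^ 2)) :=
      tendsto_finsetSum _ fun p _ => ((hΩ t p).norm.pow 2)
    refine le_of_tendsto h1 ?_
    filter_upwards [hbig' t] with m hm
    exact g6 m t (Ioo_subset_Icc_self (hmem t m hm t (mem_ball_self one_pos))) s
  have hbox : ∀ k : Z2, k ≠ 0 → ∀ᶠ m : ℕ in l, k ∈ box (m + 1) := by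
    intro k hk
    apply hla
    filter_upwards [eventually_ge_atTop (max k.1.natAbs k.2.natAbs)] with m hm
    rw [mem_box]
    refine ⟨hk, ?_, ?_⟩
    · have := (le_max_left _ _).trans hm
      rw [Int.abs_eq_natAbs]
      omega
    · have := (le_max_right _ _).trans hm
      rw [Int.abs_eq_natAbs]
      omega
  -- Lipschitz constants
  set Cθ : Z2 → ℝ := fun q => Real.sqrt (nsq q) * (B * r) with hCθ
  set Cω : Z2 → ℝ := fun q => Real.sqrt (nsq q) * (B * B) + |ν * κ ^ 2 * nsq q| * B +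
    |κ * g * q.1| * r with hCω
  have hCθ0 : ∀ q, 0 ≤ Cθ q := fun q => by simp only [hCθ]; positivity
  have hCω0 : ∀ q, 0 ≤ Cω q := fun q => by simp only [hCω]; positivity
  have hnω : ∀ (x y : Z2 → ℂ) (q : Z2), L2le x B → L2le y r →
      ‖BS q x x - ((ν * κ ^ 2 * nsq q : ℝ) : ℂ) * x q + Complex.I * (κ * g * q.1 : ℝ) * y q‖ ≤ Cω q := by
    intro x y q hx hy
    refine (norm_add_le _ _).trans (add_le_add ((norm_sub_le _ _).trans (add_le_add ?_ ?_)) ?_)
    · exact norm_BS_le hx hx hB0 hB0 q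
    · rw [norm_mul, Complex.norm_real, Real.norm_eq_abs]
      gcongr
      exact hx.norm_le hB0 q
    · rw [norm_mul, norm_mul, Complex.norm_I, one_mul, Complex.norm_real, Real.norm_eq_abs]
      gcongr
      exact hy.norm_le hr q
  have lipθ : ∀ (t : ℝ) (m : ℕ), |t| + 1 < ((m + 1 : ℕ) : ℝ) → ∀ s ∈ ball t 1, ∀ q,
      ‖θ m s q - θ m t q‖ ≤ Cθ q * |s - t| := by
    intro t m hm s hs q
    by_cases hq : q ∈ box (m + 1)
    · have h2 := (convex_ball t 1).norm_image_sub_le_of_norm_hasDerivWithin_le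
        (f := fun s => θ m s q) (f' := fun s => BS q (ω m s) (θ m s)) (C := Cθ q) (x := t)
        (y := s) (fun x hx => (g8 m x (hmem t m hm x hx) q hq).hasDerivWithinAt)
        (fun x hx => norm_BS_le (g6 m x (Ioo_subset_Icc_self (hmem t m hm x hx)))
          (g5 m x (Ioo_subset_Icc_self (hmem t m hm x hx))) hB0 hr q)
        (mem_ball_self one_pos) hs
      exact h2
    · rw [g3 m s q hq, g3 m t q hq, sub_zero, norm_zero]
      have := hCθ0 q
      positivity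
  have lipω : ∀ (t : ℝ) (m : ℕ), |t| + 1 < ((m + 1 : ℕ) : ℝ) → ∀ s ∈ ball t 1, ∀ q,
      ‖ω m s q - ω m t q‖ ≤ Cω q * |s - t| := by
    intro t m hm s hs q
    by_cases hq : q ∈ box (m + 1)
    · have h2 := (convex_ball t 1).norm_image_sub_le_of_norm_hasDerivWithin_le
        (f := fun s => ω m s q) (f' := fun s => BS q (ω m s) (ω m s) -
          ((ν * κ ^ 2 * nsq q : ℝ) : ℂ) * ω m s q + Complex.I * (κ * g * q.1 : ℝ) * θ m s q)
        (C := Cω q) (x := t)
        (y := s) (fun x hx => (g9 m x (hmem t m hm x hx) q hq).hasDerivWithinAt)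
        (fun x hx => hnω _ _ q (g6 m x (Ioo_subset_Icc_self (hmem t m hm x hx)))
          (g5 m x (Ioo_subset_Icc_self (hmem t m hm x hx))))
        (mem_ball_self one_pos) hs
      exact h2
    · rw [g4 m s q hq, g4 m t q hq, sub_zero, norm_zero]
      have := hCω0 q
      positivity
  have hev5 : ∀ t, ∀ᶠ m in l, L2le (θ m t) r := by
    intro t
    filter_upwards [hbig' t] with m hm
    exact g5 m t (Ioo_subset_Icc_self (hmem t m hm t (mem_ball_self one_pos)))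
  have hev6 : ∀ t, ∀ᶠ m in l, L2le (ω m t) B := by
    intro t
    filter_upwards [hbig' t] with m hm
    exact g6 m t (Ioo_subset_Icc_self (hmem t m hm t (mem_ball_self one_pos)))
  have hΘ0 : ∀ t, Θ t 0 = 0 := by
    intro t
    have h1 : Tendsto (fun m => θ m t 0) l (𝓝 0) := by
      have : (fun m => θ m t 0) = fun _ => 0 := by
        funext m; exact g3 m t 0 (by simp [box])
      rw [this]; exact tendsto_const_nhds
    exact tendsto_nhds_unique (hΘ t 0) h1
  have hΩ0 : ∀ t, Ω t 0 = 0 := by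
    intro t
    have h1 : Tendsto (fun m => ω m t 0) l (𝓝 0) := by
      have : (fun m => ω m t 0) = fun _ => 0 := by
        funext m; exact g4 m t 0 (by simp [box])
      rw [this]; exact tendsto_const_nhds
    exact tendsto_nhds_unique (hΩ t 0) h1
  have hBS0 : ∀ x y : Z2 → ℂ, BS 0 x y = 0 := by
    intro x y
    unfold BS
    have : ∀ p, (wt 0 p : ℂ) * x p * y (0 - p) = 0 := by intro p; simp [wt]
    simp_rw [this]
    exact tsum_zero
  refine ⟨B, Θ, Ω, hB0, ?_, ?_, hΘ0, hΩ0, hΘ2, hΩ2, ?_, ?_, ?_⟩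
  · intro t k
    refine tendsto_nhds_unique (hΘ t (-k)) ?_
    simp_rw [g1]
    exact (Complex.continuous_conj.tendsto _).comp (hΘ t k)
  · intro t k
    refine tendsto_nhds_unique (hΩ t (-k)) ?_
    simp_rw [g2]
    exact (Complex.continuous_conj.tendsto _).comp (hΩ t k)
  · funext k
    rcases eq_or_ne k 0 with rfl | hk
    · rw [hΘ0, hcz]
    · refine tendsto_nhds_unique (hΘ 0 k) ?_
      refine tendsto_const_nhds.congr' ?_
      filter_upwards [hbox k hk] with m hm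
      exact (g7 m k hm).symm
  · intro t k
    rcases eq_or_ne k 0 with rfl | hk
    · rw [hBS0]
      have : (fun s => Θ s 0) = fun _ => 0 := by funext s; exact hΘ0 s
      rw [this]
      exact hasDerivAt_const _ _
    refine deriv_limit (l := l) (f := fun m s => θ m s k) (N := fun m s => BS k (ω m s) (θ m s))
      ?_ (fun s => hΘ s k) ?_
    · intro ε hε
      obtain ⟨δ, hδ, hB⟩ := BS_equi k B r hB0 hr Cω Cθ hCω0 hCθ0 hε
      refine ⟨min δ 1, by positivity, ?_⟩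
      filter_upwards [hbig' t, hbox k hk] with m hm hkm s hs
      have hs1 : s ∈ ball t 1 := ball_subset_ball (min_le_right _ _) hs
      have hs2 : s ∈ ball t δ := ball_subset_ball (min_le_left _ _) hs
      have hsm := hmem t m hm s hs1
      have htm := hmem t m hm t (mem_ball_self one_pos)
      exact ⟨g8 m s hsm k hkm, hB t (ω m) (θ m) s hs2 (g6 m s (Ioo_subset_Icc_self hsm))
        (g5 m s (Ioo_subset_Icc_self hsm)) (g6 m t (Ioo_subset_Icc_self htm))
        (g5 m t (Ioo_subset_Icc_self htm)) (lipω t m hm s hs1) (lipθ t m hm s hs1)⟩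
    · exact tendsto_BS (hev6 t) (hev5 t) (hΩ2 t) (hΘ2 t) hB0 hr (hΩ t) (hΘ t) k
  · intro t k
    rcases eq_or_ne k 0 with rfl | hk
    · rw [hBS0, hΩ0, hΘ0]
      have : (fun s => Ω s 0) = fun _ => 0 := by funext s; exact hΩ0 s
      rw [this]
      simpa using hasDerivAt_const t (0 : ℂ)
    refine deriv_limit (l := l) (f := fun m s => ω m s k) (N := fun m s => BS k (ω m s) (ω m s) -
      ((ν * κ ^ 2 * nsq k : ℝ) : ℂ) * ω m s k + Complex.I * (κ * g * k.1 : ℝ) * θ m s k)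
      ?_ (fun s => hΩ s k) ?_
    · intro ε hε
      obtain ⟨δ, hδ, hB⟩ := BS_equi k B B hB0 hB0 Cω Cω hCω0 hCω0 (half_pos hε)
      set D : ℝ := |ν * κ ^ 2 * nsq k| * Cω k + |κ * g * k.1| * Cθ k with hD
      have hD0 : 0 ≤ D := by have := hCω0 k; have := hCθ0 k; positivity
      refine ⟨min (min δ (ε / (2 * (D + 1)))) 1, by positivity, ?_⟩
      filter_upwards [hbig' t, hbox k hk] with m hm hkm s hs
      have hs1 : s ∈ ball t 1 := ball_subset_ball (min_le_right _ _) hs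
      have hs2 : s ∈ ball t δ :=
        ball_subset_ball ((min_le_left _ _).trans (min_le_left _ _)) hs
      have hs3 : s ∈ ball t (ε / (2 * (D + 1))) :=
        ball_subset_ball ((min_le_left _ _).trans (min_le_right _ _)) hs
      have hsm := hmem t m hm s hs1
      have htm := hmem t m hm t (mem_ball_self one_pos)
      refine ⟨g9 m s hsm k hkm, ?_⟩
      have h1 := hB t (ω m) (ω m) s hs2 (g6 m s (Ioo_subset_Icc_self hsm))
        (g6 m s (Ioo_subset_Icc_self hsm)) (g6 m t (Ioo_subset_Icc_self htm))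
        (g6 m t (Ioo_subset_Icc_self htm)) (lipω t m hm s hs1) (lipω t m hm s hs1)
      have h2 := lipω t m hm s hs1 k
      have h3 := lipθ t m hm s hs1 k
      have e : BS k (ω m s) (ω m s) - ((ν * κ ^ 2 * nsq k : ℝ) : ℂ) * ω m s k +
          Complex.I * (κ * g * k.1 : ℝ) * θ m s k - (BS k (ω m t) (ω m t) -
          ((ν * κ ^ 2 * nsq k : ℝ) : ℂ) * ω m t k + Complex.I * (κ * g * k.1 : ℝ) * θ m t k) =
          (BS k (ω m s) (ω m s) - BS k (ω m t) (ω m t)) -
          ((ν * κ ^ 2 * nsq k : ℝ) : ℂ) * (ω m s k - ω m t k) +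
          Complex.I * (κ * g * k.1 : ℝ) * (θ m s k - θ m t k) := by ring
      rw [e]
      refine (norm_add_le _ _).trans ?_
      have h4 : ‖((ν * κ ^ 2 * nsq k : ℝ) : ℂ) * (ω m s k - ω m t k)‖ ≤
          |ν * κ ^ 2 * nsq k| * (Cω k * |s - t|) := by
        rw [norm_mul, Complex.norm_real, Real.norm_eq_abs]
        gcongr
      have h5 : ‖Complex.I * (κ * g * k.1 : ℝ) * (θ m s k - θ m t k)‖ ≤
          |κ * g * k.1| * (Cθ k * |s - t|) := by
        rw [norm_mul, norm_mul, Complex.norm_I, one_mul, Complex.norm_real, Real.norm_eq_abs]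
        gcongr
      have h6 := norm_sub_le (BS k (ω m s) (ω m s) - BS k (ω m t) (ω m t))
        (((ν * κ ^ 2 * nsq k : ℝ) : ℂ) * (ω m s k - ω m t k))
      have h7 : D * |s - t| ≤ ε / 2 := by
        rw [mem_ball, Real.dist_eq] at hs3
        have h8 : |s - t| * (2 * (D + 1)) ≤ ε := by
          have := (lt_div_iff₀ (by positivity : 0 < 2 * (D + 1))).1 hs3
          exact this.le
        nlinarith [abs_nonneg (s - t)]
      have h8 : D * |s - t| = |ν * κ ^ 2 * nsq k| * (Cω k * |s - t|) +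
        |κ * g * k.1| * (Cθ k * |s - t|) := by rw [hD]; ring
      linarith
    · exact ((tendsto_BS (hev6 t) (hev6 t) (hΩ2 t) (hΩ2 t) hB0 hB0 (hΩ t) (hΩ t) k).sub
        ((hΩ t k).const_mul _)).add ((hΘ t k).const_mul _)

end Pool.Agent.Lib.P3e0609
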