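import Pool.Agent.Lib.P3e0609.Defs
import Pool.Agent.Lib.P3e0609.Limit

/-!
Fourier series on the period cell `(0, L]²`.
-/

set_option autoImplicit false

open MeasureTheory Set Filter Topology
open scoped ComplexConjugate

namespace Pool.Agent.Lib.P3e0609

/-- `exp(2πi n x / L)` -/
noncomputable def e1 (L : ℝ) (n : ℤ) (x : ℝ) : ℂ := Complex.exp (Complex.I * ((2 * Real.pi / L * (n * x) : ℝ) : ℂ))

/-- `exp(2πi k·x / L)` -/
noncomputable def ek (L : ℝ) (k : Z2) (x : ℝ × ℝ) : ℂ :=
  Complex.exp (Complex.I * ((2 * Real.pi / L * (k.1 * x.1 + k.2 * x.2) : ℝ) : ℂ))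

lemma ek_eq (L : ℝ) (k : Z2) (x : ℝ × ℝ) : ek L k x = e1 L k.1 x.1 * e1 L k.2 x.2 := by
  unfold ek e1
  rw [← Complex.exp_add]
  congr 1
  push_cast
  ring

lemma norm_e1 (L : ℝ) (n : ℤ) (x : ℝ) : ‖e1 L n x‖ = 1 := by
  unfold e1
  rw [mul_comm, Complex.norm_exp_ofReal_mul_I]

lemma norm_ek (L : ℝ) (k : Z2) (x : ℝ × ℝ) : ‖ek L k x‖ = 1 := by
  rw [ek_eq, norm_mul, norm_e1, norm_e1, one_mul]

lemma continuous_e1 (L : ℝ) (n : ℤ) : Continuous (e1 L n) := by unfold e1; fun_prop

lemma continuous_ek (L : ℝ) (k : Z2) : Continuous (ek L k) := by unfold ek; fun_prop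

lemma conj_ek (L : ℝ) (k : Z2) (x : ℝ × ℝ) : conj (ek L k x) = ek L (-k) x := by
  unfold ek
  rw [← Complex.exp_conj]
  congr 1
  simp only [map_mul, Complex.conj_I, Complex.conj_ofReal]
  push_cast [Prod.fst_neg, Prod.snd_neg]
  ring

lemma ek_add (L : ℝ) (k l : Z2) (x : ℝ × ℝ) : ek L (k + l) x = ek L k x * ek L l x := by
  unfold ek
  rw [← Complex.exp_add]
  congr 1
  push_cast [Prod.fst_add, Prod.snd_add]
  ring

lemma ek_zero (L : ℝ) (x : ℝ × ℝ) : ek L 0 x = 1 := by simp [ek]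

lemma fourierC_eq (L : ℝ) (f : ℝ × ℝ → ℂ) (k : Z2) :
    fourierC L f k = (1 / L ^ 2 : ℝ) * ∫ x, f x * ek L (-k) x ∂tm L := by
  unfold fourierC
  congr 2
  funext x
  congr 1
  unfold ek
  congr 1
  push_cast [Prod.fst_neg, Prod.snd_neg]
  ring

lemma tm_eq (L : ℝ) : tm L = (volume.restrict (Ioc 0 L)).prod (volume.restrict (Ioc 0 L)) := by
  rw [tm, cell, Measure.prod_restrict]
  rfl

instance (L : ℝ) : IsFiniteMeasure (tm L) := by rw [tm_eq]; infer_instance

lemma integral_e1 {L : ℝ} (hL : 0 < L) (n : ℤ) :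
    ∫ x in Ioc 0 L, e1 L n x = if n = 0 then (L : ℂ) else 0 := by
  rw [← intervalIntegral.integral_of_le hL.le]
  split_ifs with h
  · subst h; simp [e1]
  · have hc : (Complex.I * (2 * Real.pi / L * n : ℝ) : ℂ) ≠ 0 := by
      have : (2 * Real.pi / L * n : ℝ) ≠ 0 := by
        have h1 : (n : ℝ) ≠ 0 := by exact_mod_cast h
        have := Real.pi_pos
        positivity
      exact mul_ne_zero Complex.I_ne_zero (by exact_mod_cast this)
    have e : (fun x : ℝ => e1 L n x) = fun x : ℝ => Complex.exp ((Complex.I * (2 * Real.pi / L * n : ℝ)) * x) := by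
      funext x
      unfold e1
      congr 1
      push_cast
      ring
    rw [e, integral_exp_mul_complex hc]
    have e2 : (Complex.I * (2 * Real.pi / L * n : ℝ) : ℂ) * L = n * (2 * Real.pi * Complex.I) := by
      have : (L : ℂ) ≠ 0 := by exact_mod_cast hL.ne'
      push_cast
      field_simp
    rw [e2, Complex.exp_int_mul_two_pi_mul_I]
    simp

lemma integral_ek {L : ℝ} (hL : 0 < L) (k : Z2) :
    ∫ x, ek L k x ∂tm L = if k = 0 then (L : ℂ) ^ 2 else 0 := by
  rw [tm_eq]
  simp_rw [ek_eq]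
  rw [integral_prod_mul (fun x => e1 L k.1 x) (fun x => e1 L k.2 x), integral_e1 hL, integral_e1 hL]
  by_cases h1 : k.1 = 0
  · by_cases h2 : k.2 = 0
    · have : k = 0 := Prod.ext h1 h2
      simp [this, sq]
    · have : k ≠ 0 := fun h => h2 (by rw [h]; rfl)
      simp [h2, this]
  · have : k ≠ 0 := fun h => h1 (by rw [h]; rfl)
    simp [h1, this]

/-- One-dimensional completeness. -/
lemma complete1 {L : ℝ} (hL : 0 < L) {h : ℝ → ℂ} (hh : MemLp h 2 (volume.restrict (Ioc 0 L)))
    (h0 : ∀ n : ℤ, ∫ x in Ioc 0 L, h x * e1 L n x = 0) : h =ᵐ[volume.restrict (Ioc 0 L)] 0 := by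
  have h1 := hasSum_sq_fourierCoeffOn hL hh
  have h2 : ∀ n : ℤ, fourierCoeffOn hL h n = 0 := by
    intro n
    rw [fourierCoeffOn_eq_integral, intervalIntegral.integral_of_le hL.le]
    have h3 : ∫ x in Ioc 0 L, fourier (-n) (x : AddCircle (L - 0)) • h x = 0 := by
      rw [← h0 (-n)]
      refine integral_congr_ae (Eventually.of_forall fun x => ?_)
      simp only [smul_eq_mul]
      rw [mul_comm, fourier_coe_apply]
      congr 1
      unfold e1
      congr 1
      push_cast
      rw [sub_zero]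
      ring
    rw [h3, smul_zero]
  simp_rw [h2] at h1
  simp only [norm_zero, ne_eq, OfNat.ofNat_ne_zero, not_false_eq_true, zero_pow] at h1
  have h3 := h1.unique hasSum_zero
  rw [sub_zero, smul_eq_zero] at h3
  have h4 : ∫ x in Ioc 0 L, ‖h x‖ ^ 2 = 0 := by
    rw [← intervalIntegral.integral_of_le hL.le]
    rcases h3 with h3 | h3
    · exact absurd h3 (by positivity)
    · exact h3
  rw [integral_eq_zero_iff_of_nonneg (fun x => by positivity)] at h4
  · filter_upwards [h4] with x hx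
    simpa using hx
  · exact hh.integrable_norm_pow (by norm_num)

/-- Two-dimensional completeness. -/
lemma complete2 {L : ℝ} (hL : 0 < L) {F : ℝ × ℝ → ℂ} (hF : MemLp F 2 (tm L))
    (h0 : ∀ k : Z2, ∫ x, F x * ek L k x ∂tm L = 0) : F =ᵐ[tm L] 0 := by
  set ν : Measure ℝ := volume.restrict (Ioc 0 L) with hν
  rw [tm_eq] at hF h0 ⊢
  rw [← hν] at hF h0 ⊢
  have hFi : Integrable F (ν.prod ν) := hF.integrable (by norm_num)
  have hF2 : Integrable (fun x => ‖F x‖ ^ 2) (ν.prod ν) := hF.integrable_norm_pow (by norm_num)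
  -- swap coordinates: slices in the first variable
  have hFs : Integrable (fun x => F x.swap) (ν.prod ν) := hFi.swap
  have hF2s : Integrable (fun x : ℝ × ℝ => ‖F x.swap‖ ^ 2) (ν.prod ν) := hF2.swap
  have hslice : ∀ᵐ y ∂ν, MemLp (fun x => F (x, y)) 2 ν := by
    have h1 := hF2s.prod_right_ae
    have h2 := hFs.aestronglyMeasurable.prodMk_left
    filter_upwards [h1, h2] with y hy1 hy2
    have hy2' : AEStronglyMeasurable (fun x => F (x, y)) ν := hy2
    exact (memLp_two_iff_integrable_sq_norm hy2').2 hy1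
  have hm : ∀ m : ℤ, ∀ᵐ y ∂ν, ∫ x, F (x, y) * e1 L m x ∂ν = 0 := by
    intro m
    have hGi : Integrable (fun z : ℝ × ℝ => F z.swap * e1 L m z.2) (ν.prod ν) := by
      refine hFs.mul_bdd (c := 1) ?_ ?_
      · exact ((continuous_e1 L m).comp continuous_snd).aestronglyMeasurable
      · exact Eventually.of_forall fun z => (norm_e1 L m z.2).le
    apply complete1 hL
    · have hmeas : AEStronglyMeasurable (fun y => ∫ x, F (x, y) * e1 L m x ∂ν) ν :=
        hGi.aestronglyMeasurable.integral_prod_right'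
      rw [memLp_two_iff_integrable_sq_norm hmeas]
      have h3 : Integrable (fun y => L * ∫ x, ‖F (x, y)‖ ^ 2 ∂ν) ν :=
        (hF2s.integral_prod_left).const_mul L
      refine h3.mono' (hmeas.norm.pow 2) ?_
      filter_upwards [hslice] with y hy
      rw [Real.norm_eq_abs, abs_of_nonneg (by positivity)]
      have h4 : ‖∫ x, F (x, y) * e1 L m x ∂ν‖ ≤ ∫ x, ‖F (x, y)‖ * 1 ∂ν := by
        refine (norm_integral_le_integral_norm _).trans (le_of_eq ?_)
        refine integral_congr_ae (Eventually.of_forall fun x => ?_)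
        simp only [norm_mul, norm_e1]
      have h5 : ∫ x, ‖F (x, y)‖ * 1 ∂ν ≤
          (∫ x, ‖F (x, y)‖ ^ (2 : ℝ) ∂ν) ^ (1 / (2 : ℝ)) * (∫ x, (1 : ℝ) ^ (2 : ℝ) ∂ν) ^ (1 / (2 : ℝ)) := by
        apply integral_mul_le_Lp_mul_Lq_of_nonneg Real.HolderConjugate.two_two
        · exact Eventually.of_forall fun _ => norm_nonneg _
        · exact Eventually.of_forall fun _ => zero_le_one
        · simpa using hy.norm
        · exact memLp_const 1
      have h6 : (∫ x, (1 : ℝ) ^ (2 : ℝ) ∂ν) = L := by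
        rw [hν]
        simp [hL.le]
      rw [h6] at h5
      have h7 : ∫ x, ‖F (x, y)‖ ^ (2 : ℝ) ∂ν = ∫ x, ‖F (x, y)‖ ^ 2 ∂ν := by
        refine integral_congr_ae (Eventually.of_forall fun x => ?_)
        simp only
        norm_cast
      rw [h7] at h5
      have h8 : 0 ≤ ∫ x, ‖F (x, y)‖ ^ 2 ∂ν := integral_nonneg fun _ => by positivity
      calc ‖∫ x, F (x, y) * e1 L m x ∂ν‖ ^ 2 ≤
          ((∫ x, ‖F (x, y)‖ ^ 2 ∂ν) ^ (1 / (2 : ℝ)) * L ^ (1 / (2 : ℝ))) ^ 2 := by
            gcongr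
            exact h4.trans h5
        _ = L * ∫ x, ‖F (x, y)‖ ^ 2 ∂ν := by
            rw [mul_pow, ← Real.sqrt_eq_rpow, ← Real.sqrt_eq_rpow, Real.sq_sqrt h8,
              Real.sq_sqrt hL.le]
            ring
    · intro n
      have h3 := h0 (m, n)
      rw [← h3, integral_prod_symm]
      · refine integral_congr_ae (Eventually.of_forall fun y => ?_)
        simp only
        rw [← integral_mul_const]
        refine integral_congr_ae (Eventually.of_forall fun x => ?_)
        simp only [ek_eq]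
        ring
      · refine hFi.mul_bdd (c := 1) (continuous_ek L _).aestronglyMeasurable ?_
        exact Eventually.of_forall fun z => (norm_ek L _ z).le
  have hall : ∀ᵐ y ∂ν, ∀ᵐ x ∂ν, F (x, y) = 0 := by
    have h1 : ∀ᵐ y ∂ν, ∀ m : ℤ, ∫ x, F (x, y) * e1 L m x ∂ν = 0 := ae_all_iff.2 hm
    filter_upwards [h1, hslice] with y hy1 hy2
    exact complete1 hL hy2 hy1
  -- conclude by integrating the square
  have h9 : ∫ z, ‖F z‖ ^ 2 ∂(ν.prod ν) = 0 := by
    rw [integral_prod_symm _ hF2]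
    have : ∀ᵐ y ∂ν, ∫ x, ‖F (x, y)‖ ^ 2 ∂ν = 0 := by
      filter_upwards [hall] with y hy
      rw [← integral_zero ℝ ℝ (μ := ν)]
      refine integral_congr_ae ?_
      filter_upwards [hy] with x hx
      rw [hx]; simp
    rw [integral_congr_ae this]
    simp
  rw [integral_eq_zero_iff_of_nonneg (fun x => by positivity) hF2] at h9
  filter_upwards [h9] with x hx
  simpa using hx

/-- Complex `L²` of the cell. -/
noncomputable abbrev C2 (L : ℝ) := Lp ℂ 2 (tm L)

lemma memLp_ek (L : ℝ) (k : Z2) : MemLp (ek L k) 2 (tm L) := by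
  refine MemLp.of_bound (continuous_ek L k).aestronglyMeasurable 1 ?_
  exact Eventually.of_forall fun z => (norm_ek L _ z).le

noncomputable def bk (L : ℝ) (k : Z2) : C2 L := ((1 / L : ℝ) : ℂ) • (memLp_ek L k).toLp (ek L k)

lemma inner_bk {L : ℝ} (hL : 0 < L) (k : Z2) (F : C2 L) :
    inner ℂ (bk L k) F = L * fourierC L F k := by
  rw [bk, inner_smul_left, L2.inner_def, fourierC_eq]
  have h1 : ∫ x, inner ℂ ((memLp_ek L k).toLp (ek L k) x) (F x) ∂tm L =
      ∫ x, F x * ek L (-k) x ∂tm L := by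
    refine integral_congr_ae ?_
    filter_upwards [(memLp_ek L k).coeFn_toLp] with x hx
    rw [hx, RCLike.inner_apply, conj_ek]
  rw [h1]
  have : (L : ℂ) ≠ 0 := by exact_mod_cast hL.ne'
  simp only [Complex.conj_ofReal]
  push_cast
  field_simp

lemma fourierC_congr {L : ℝ} {F G : ℝ × ℝ → ℂ} (h : F =ᵐ[tm L] G) (k : Z2) :
    fourierC L F k = fourierC L G k := by
  rw [fourierC_eq, fourierC_eq]
  congr 1
  refine integral_congr_ae ?_
  filter_upwards [h] with x hx
  rw [hx]

lemma fourierC_ek {L : ℝ} (hL : 0 < L) (k l : Z2) :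
    fourierC L (ek L l) k = if k = l then 1 else 0 := by
  rw [fourierC_eq]
  have h1 : ∀ x, ek L l x * ek L (-k) x = ek L (l - k) x := by
    intro x
    rw [← ek_add]
    congr 1
  simp_rw [h1]
  rw [integral_ek hL]
  have hL' : (L : ℂ) ≠ 0 := by exact_mod_cast hL.ne'
  by_cases h : k = l
  · subst h
    simp only [sub_self, if_true]
    push_cast
    field_simp
  · have : l - k ≠ 0 := fun h' => h (sub_eq_zero.1 h').symm
    simp [h, this]

lemma orthonormal_bk {L : ℝ} (hL : 0 < L) : Orthonormal ℂ (bk L) := by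
  rw [orthonormal_iff_ite]
  intro i j
  rw [inner_bk hL]
  have h1 : fourierC L (bk L j) i = ((1 / L : ℝ) : ℂ) * fourierC L (ek L j) i := by
    have h2 : (bk L j : ℝ × ℝ → ℂ) =ᵐ[tm L] fun x => ((1 / L : ℝ) : ℂ) * ek L j x := by
      filter_upwards [Lp.coeFn_smul ((1 / L : ℝ) : ℂ) ((memLp_ek L j).toLp (ek L j)),
        (memLp_ek L j).coeFn_toLp] with x hx1 hx2
      rw [bk, hx1, Pi.smul_apply, hx2, smul_eq_mul]
    rw [fourierC_congr h2, fourierC_eq, fourierC_eq]
    simp_rw [mul_assoc]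
    rw [integral_const_mul]
    ring
  rw [h1, fourierC_ek hL]
  have hL' : (L : ℂ) ≠ 0 := by exact_mod_cast hL.ne'
  split_ifs <;> simp [hL']

noncomputable def BB {L : ℝ} (hL : 0 < L) : HilbertBasis Z2 ℂ (C2 L) :=
  HilbertBasis.mkOfOrthogonalEqBot (orthonormal_bk hL) (by
    rw [Submodule.eq_bot_iff]
    intro F hF
    rw [Submodule.mem_orthogonal] at hF
    have h1 : ∀ k, fourierC L F k = 0 := by
      intro k
      have h2 := hF (bk L k) (Submodule.subset_span ⟨k, rfl⟩)
      rw [inner_bk hL] at h2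
      have hL' : (L : ℂ) ≠ 0 := by exact_mod_cast hL.ne'
      exact (mul_eq_zero.1 h2).resolve_left hL'
    have h2 : (F : ℝ × ℝ → ℂ) =ᵐ[tm L] 0 := by
      apply complete2 hL (Lp.memLp F)
      intro k
      have h3 := h1 (-k)
      rw [fourierC_eq, neg_neg] at h3
      refine (mul_eq_zero.1 h3).resolve_left ?_
      have : (1 / L ^ 2 : ℝ) ≠ 0 := by positivity
      exact_mod_cast this
    exact (Lp.eq_zero_iff_ae_eq_zero).2 h2)

lemma BB_repr {L : ℝ} (hL : 0 < L) (F : C2 L) (k : Z2) :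
    (BB hL).repr F k = L * fourierC L F k := by
  rw [HilbertBasis.repr_apply_apply, BB, HilbertBasis.coe_mkOfOrthogonalEqBot, inner_bk hL]

/-- Parseval's identity. -/
lemma parseval {L : ℝ} (hL : 0 < L) {F G : ℝ × ℝ → ℂ} (hF : MemLp F 2 (tm L))
    (hG : MemLp G 2 (tm L)) :
    HasSum (fun k => (L : ℂ) ^ 2 * (conj (fourierC L F k) * fourierC L G k))
      (∫ x, conj (F x) * G x ∂tm L) := by
  have h1 := lp.hasSum_inner (𝕜 := ℂ) ((BB hL).repr (hF.toLp F)) ((BB hL).repr (hG.toLp G))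
  rw [LinearIsometryEquiv.inner_map_map, L2.inner_def] at h1
  have h2 : ∫ x, inner ℂ (hF.toLp F x) (hG.toLp G x) ∂tm L = ∫ x, conj (F x) * G x ∂tm L := by
    refine integral_congr_ae ?_
    filter_upwards [hF.coeFn_toLp, hG.coeFn_toLp] with x hx1 hx2
    rw [hx1, hx2, RCLike.inner_apply, mul_comm]
  rw [h2] at h1
  refine h1.congr_fun ?_
  intro k
  rw [BB_repr, BB_repr, RCLike.inner_apply, fourierC_congr hF.coeFn_toLp,
    fourierC_congr hG.coeFn_toLp, map_mul, Complex.conj_ofReal]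
  ring

/-- Coefficients of a real function. -/
noncomputable def rc {L : ℝ} (f : L2 L) (k : Z2) : ℂ := fourierC L (fun x => (f x : ℂ)) k

lemma fourierC_neg_conj {L : ℝ} (F : ℝ × ℝ → ℂ) (k : Z2) :
    fourierC L (fun x => conj (F x)) k = conj (fourierC L F (-k)) := by
  rw [fourierC_eq, fourierC_eq, map_mul, Complex.conj_ofReal, ← integral_conj]
  congr 2
  funext x
  rw [map_mul, conj_ek, neg_neg]

lemma rc_neg {L : ℝ} (f : L2 L) (k : Z2) : rc f (-k) = conj (rc f k) := by
  unfold rc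
  have h := fourierC_neg_conj (L := L) (fun x => (f x : ℂ)) (-k)
  simp only [Complex.conj_ofReal, neg_neg] at h
  exact h

lemma memLp_ofReal {L : ℝ} (f : L2 L) : MemLp (fun x => (f x : ℂ)) 2 (tm L) :=
  (Lp.memLp f).ofReal

/-- Uniqueness of Fourier coefficients for real `L²` functions. -/
lemma rc_inj {L : ℝ} (hL : 0 < L) {f g : L2 L} (h : ∀ k, rc f k = rc g k) : f = g := by
  have h1 : (fun x => (f x : ℂ) - (g x : ℂ)) =ᵐ[tm L] 0 := by
    apply complete2 hL ((memLp_ofReal f).sub (memLp_ofReal g))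
    intro k
    have h2 := h (-k)
    simp only [rc] at h2
    rw [fourierC_eq, fourierC_eq, neg_neg] at h2
    have h3 : ((1 / L ^ 2 : ℝ) : ℂ) ≠ 0 := by
      have : (1 / L ^ 2 : ℝ) ≠ 0 := by positivity
      exact_mod_cast this
    have h4 := mul_left_cancel₀ h3 h2
    change ∫ x, ((f x : ℂ) - (g x : ℂ)) * ek L k x ∂tm L = 0
    simp_rw [sub_mul]
    rw [integral_sub, h4, sub_self]
    · refine ((memLp_ofReal f).integrable (by norm_num)).mul_bdd (c := 1)
        (continuous_ek L _).aestronglyMeasurable ?_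
      exact Eventually.of_forall fun z => (norm_ek L _ z).le
    · refine ((memLp_ofReal g).integrable (by norm_num)).mul_bdd (c := 1)
        (continuous_ek L _).aestronglyMeasurable ?_
      exact Eventually.of_forall fun z => (norm_ek L _ z).le
  apply Lp.ext
  filter_upwards [h1] with x hx
  simp only [Pi.zero_apply] at hx
  have := sub_eq_zero.1 hx
  exact_mod_cast this

/-- Riesz-Fischer for real functions. -/
lemma riesz_fischer {L : ℝ} (hL : 0 < L) (c : Z2 → ℂ) (C : ℝ) (hC : 0 ≤ C) (hc : L2le c C)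
    (hsym : ∀ k, c (-k) = conj (c k)) : ∃ f : L2 L, (∀ k, rc f k = c k) ∧ ‖f‖ ≤ L * C := by
  have hL' : (L : ℂ) ≠ 0 := by exact_mod_cast hL.ne'
  have hsum : Summable fun k => ‖c k‖ ^ 2 :=
    summable_of_sum_le (fun _ => sq_nonneg _) hc
  have hmem : Memℓp (fun k => (L : ℂ) * c k) 2 := by
    apply memℓp_gen
    have h1 : (fun i => ‖(L : ℂ) * c i‖ ^ (2 : ENNReal).toReal) = fun k => L ^ 2 * ‖c k‖ ^ 2 := by
      funext k
      rw [norm_mul, Complex.norm_real, Real.norm_eq_abs, abs_of_pos hL]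
      have : (2 : ENNReal).toReal = (2 : ℕ) := by simp
      rw [this, Real.rpow_natCast, mul_pow]
    rw [h1]
    exact hsum.mul_left _
  set G : lp (fun _ : Z2 => ℂ) 2 := ⟨_, hmem⟩ with hG
  set F : C2 L := (BB hL).repr.symm G with hF
  have hFc : ∀ k, fourierC L F k = c k := by
    intro k
    have h1 := BB_repr hL F k
    rw [hF, LinearIsometryEquiv.apply_symm_apply] at h1
    have h2 : (L : ℂ) * c k = L * fourierC L F k := h1
    exact (mul_left_cancel₀ hL' h2).symm
  -- F is real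
  have hreal : (fun x => conj (F x)) =ᵐ[tm L] F := by
    have hm1 : MemLp (fun x => conj (F x)) 2 (tm L) := (Lp.memLp F).star
    have h1 : (fun x => conj (F x) - F x) =ᵐ[tm L] 0 := by
      apply complete2 hL (hm1.sub (Lp.memLp F))
      intro k
      have h2 : fourierC L (fun x => conj (F x)) (-k) = fourierC L F (-k) := by
        rw [fourierC_neg_conj, neg_neg, hFc, hFc, hsym]
      rw [fourierC_eq, fourierC_eq, neg_neg] at h2
      have h3 : ((1 / L ^ 2 : ℝ) : ℂ) ≠ 0 := by
        have : (1 / L ^ 2 : ℝ) ≠ 0 := by positivity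
        exact_mod_cast this
      have h4 := mul_left_cancel₀ h3 h2
      change ∫ x, (conj (F x) - F x) * ek L k x ∂tm L = 0
      simp_rw [sub_mul]
      rw [integral_sub, h4, sub_self]
      · refine (hm1.integrable (by norm_num)).mul_bdd (c := 1)
          (continuous_ek L _).aestronglyMeasurable ?_
        exact Eventually.of_forall fun z => (norm_ek L _ z).le
      · refine ((Lp.memLp F).integrable (by norm_num)).mul_bdd (c := 1)
          (continuous_ek L _).aestronglyMeasurable ?_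
        exact Eventually.of_forall fun z => (norm_ek L _ z).le
    filter_upwards [h1] with x hx
    exact sub_eq_zero.1 hx
  have hre : MemLp (fun x => (F x).re) 2 (tm L) := (Lp.memLp F).re
  have hae : (fun x => ((hre.toLp (fun x => (F x).re) x : ℝ) : ℂ)) =ᵐ[tm L] F := by
    filter_upwards [hre.coeFn_toLp, hreal] with x hx1 hx2
    rw [hx1]
    exact Complex.conj_eq_iff_re.1 hx2
  have hco : ∀ k, rc (hre.toLp (fun x => (F x).re)) k = c k := by
    intro k
    unfold rc
    rw [fourierC_congr hae, hFc]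
  refine ⟨hre.toLp (fun x => (F x).re), hco, ?_⟩
  have h1 : ‖hre.toLp (fun x => (F x).re)‖ ≤ ‖F‖ := by
    rw [Lp.norm_toLp, Lp.norm_def]
    apply ENNReal.toReal_mono (Lp.eLpNorm_ne_top F)
    apply eLpNorm_mono
    intro x
    exact Complex.abs_re_le_norm _
  refine h1.trans ?_
  have h2 : ‖F‖ = ‖G‖ := by rw [hF, LinearIsometryEquiv.norm_map]
  rw [h2]
  have h3 : ‖G‖ ^ 2 ≤ (L * C) ^ 2 := by
    have h4 := lp.norm_rpow_eq_tsum (p := 2) (by norm_num) G
    have h5 : (2 : ENNReal).toReal = (2 : ℕ) := by simp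
    rw [h5, Real.rpow_natCast] at h4
    rw [h4]
    have h6 : ∀ k, ‖G k‖ ^ (((2 : ℕ) : ℝ)) = L ^ 2 * ‖c k‖ ^ 2 := by
      intro k
      change ‖(L : ℂ) * c k‖ ^ (((2 : ℕ) : ℝ)) = _
      rw [Real.rpow_natCast, norm_mul, Complex.norm_real, Real.norm_eq_abs, abs_of_pos hL, mul_pow]
    simp_rw [h6]
    rw [tsum_mul_left, mul_pow]
    gcongr
    exact hsum.tsum_le_of_sum_le hc
  exact (sq_le_sq₀ (norm_nonneg _) (by positivity)).1 h3

end Pool.Agent.Lib.P3e0609
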