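import Mathlib

/-!
Definitions for the semi-dissipative two-dimensional Boussinesq system on the torus
`ℝ² / (L ℤ²)`. Functions on the torus are identified with functions on the period cell `(0, L]²`.
-/

set_option autoImplicit false

open MeasureTheory Set
open scoped ContDiff ENNReal

namespace Pool.Agent.Lib.P3e0609

/-- The period cell `(0, L]²` of the torus `ℝ² / (L ℤ²)`. -/
def cell (L : ℝ) : Set (ℝ × ℝ) := Ioc 0 L ×ˢ Ioc 0 L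

/-- Lebesgue measure on the period cell, i.e. the measure of the torus. -/
noncomputable def tm (L : ℝ) : Measure (ℝ × ℝ) := volume.restrict (cell L)

/-- `L²` of the torus (real valued, not necessarily mean-free). -/
noncomputable abbrev L2 (L : ℝ) := Lp ℝ 2 (tm L)

/-- The values `f(x)` of (a representative of) an `L²` function. -/
noncomputable def fn {L : ℝ} (f : L2 L) : ℝ × ℝ → ℝ := fun x => f x

/-- `∫ f = 0`. -/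
def MeanFree {L : ℝ} (f : L2 L) : Prop := ∫ x, fn f x ∂tm L = 0

/-- `∂φ/∂x₁` for a function of two variables. -/
noncomputable def s1 (φ : ℝ × ℝ → ℝ) : ℝ × ℝ → ℝ := fun x => fderiv ℝ φ x (1, 0)

/-- `∂φ/∂x₂` for a function of two variables. -/
noncomputable def s2 (φ : ℝ × ℝ → ℝ) : ℝ × ℝ → ℝ := fun x => fderiv ℝ φ x (0, 1)

/-- Smooth functions on the torus: smooth `φ : ℝ² → ℝ`, `L`-periodic in both variables. -/
def SmoothPer (L : ℝ) (φ : ℝ × ℝ → ℝ) : Prop :=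
  ContDiff ℝ ∞ φ ∧ ∀ x₁ x₂, φ (x₁ + L, x₂) = φ (x₁, x₂) ∧ φ (x₁, x₂ + L) = φ (x₁, x₂)

/-- Test functions on `ℝ × 𝕋²`: smooth `φ(t, x₁, x₂)`, `L`-periodic in `x₁` and `x₂`, compactly
supported in time. -/
def IsTest (L : ℝ) (φ : ℝ × ℝ × ℝ → ℝ) : Prop :=
  ContDiff ℝ ∞ φ ∧
  (∀ t x₁ x₂, φ (t, x₁ + L, x₂) = φ (t, x₁, x₂) ∧ φ (t, x₁, x₂ + L) = φ (t, x₁, x₂)) ∧
  ∃ T : ℝ, ∀ t x₁ x₂, T ≤ |t| → φ (t, x₁, x₂) = 0

/-- `∂φ/∂t` -/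
noncomputable def dt (φ : ℝ × ℝ × ℝ → ℝ) : ℝ × ℝ × ℝ → ℝ := fun z => fderiv ℝ φ z (1, 0, 0)

/-- `∂φ/∂x₁` -/
noncomputable def d1 (φ : ℝ × ℝ × ℝ → ℝ) : ℝ × ℝ × ℝ → ℝ := fun z => fderiv ℝ φ z (0, 1, 0)

/-- `∂φ/∂x₂` -/
noncomputable def d2 (φ : ℝ × ℝ × ℝ → ℝ) : ℝ × ℝ × ℝ → ℝ := fun z => fderiv ℝ φ z (0, 0, 1)

/-- `Δφ = ∂²φ/∂x₁² + ∂²φ/∂x₂²` -/
noncomputable def lap (φ : ℝ × ℝ × ℝ → ℝ) : ℝ × ℝ × ℝ → ℝ := fun z => d1 (d1 φ) z + d2 (d2 φ) z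

/-- The advective derivative `∂φ/∂t + a ∂φ/∂x₁ + b ∂φ/∂x₂`. -/
noncomputable def adv (a b : ℝ) (φ : ℝ × ℝ × ℝ → ℝ) (z : ℝ × ℝ × ℝ) : ℝ :=
  dt φ z + a * d1 φ z + b * d2 φ z

/-- A velocity field in `L²`: a pair of components. -/
structure Vel (L : ℝ) where
  c1 : L2 L
  c2 : L2 L

/-- The values of the first component. -/
noncomputable def Vel.f1 {L : ℝ} (u : Vel L) : ℝ × ℝ → ℝ := fn u.c1

/-- The values of the second component. -/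
noncomputable def Vel.f2 {L : ℝ} (u : Vel L) : ℝ × ℝ → ℝ := fn u.c2

/-- `div u = 0` weakly. -/
def DivFree {L : ℝ} (u : Vel L) : Prop :=
  ∀ φ : ℝ × ℝ → ℝ, SmoothPer L φ → ∫ x, (u.f1 x * s1 φ x + u.f2 x * s2 φ x) ∂tm L = 0

/-- Membership of a velocity field in `H`: mean-free and (weakly) divergence-free. -/
def InH {L : ℝ} (u : Vel L) : Prop := MeanFree u.c1 ∧ MeanFree u.c2 ∧ DivFree u

/-- The Fourier coefficient `L⁻² ∫ f(x) exp(-2πi k·x/L) dx` of a complex valued function. -/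
noncomputable def fourierC (L : ℝ) (f : ℝ × ℝ → ℂ) (k : ℤ × ℤ) : ℂ :=
  (1 / L ^ 2 : ℝ) * ∫ x, f x * Complex.exp (-(Complex.I *
    ((2 * Real.pi / L * (k.1 * x.1 + k.2 * x.2) : ℝ) : ℂ))) ∂tm L

/-- The Dirichlet energy `‖∇f‖²_{L²} = L² ∑_k (2π/L)² |k|² |f^(k)|²`, in `[0, ∞]`. -/
noncomputable def dirichlet {L : ℝ} (f : L2 L) : ℝ≥0∞ :=
  ∑' k : ℤ × ℤ, ENNReal.ofReal (L ^ 2 * ((2 * Real.pi / L) ^ 2 * ((k.1 : ℝ) ^ 2 + (k.2 : ℝ) ^ 2)) *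
    ‖fourierC L (fun x => (fn f x : ℂ)) k‖ ^ 2)

/-- Weak continuity in time of a curve in `L²`. -/
def WeaklyCont {L : ℝ} (f : ℝ → L2 L) : Prop :=
  ∀ h : L2 L, Continuous fun t => ∫ x, fn (f t) x * fn h x ∂tm L

/-- The transport equation `∂ₜθ + u·∇θ = 0` in the sense of distributions on `ℝ × 𝕋²`
(for divergence-free `u`). -/
def Transport {L : ℝ} (u : ℝ → Vel L) (θ : ℝ → L2 L) : Prop :=
  ∀ φ : ℝ × ℝ × ℝ → ℝ, IsTest L φ →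
    ∫ t : ℝ, ∫ x, fn (θ t) x * adv ((u t).f1 x) ((u t).f2 x) φ (t, x) ∂tm L = 0

/-- The integrand `a (∂ₜφ + (a,b)·∇φ + νΔφ)(z)` of the momentum equation, for one component. -/
noncomputable def momC (ν a b c : ℝ) (φ : ℝ × ℝ × ℝ → ℝ) (z : ℝ × ℝ × ℝ) : ℝ :=
  c * (adv a b φ z + ν * lap φ z)

/-- The space integral in the weak momentum equation at time `t`. -/
noncomputable def momI {L : ℝ} (ν g : ℝ) (u : Vel L) (θ : L2 L) (Φ₁ Φ₂ : ℝ × ℝ × ℝ → ℝ) (t : ℝ) : ℝ :=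
  ∫ x, (momC ν (u.f1 x) (u.f2 x) (u.f1 x) Φ₁ (t, x) + momC ν (u.f1 x) (u.f2 x) (u.f2 x) Φ₂ (t, x)
    + g * fn θ x * Φ₂ (t, x)) ∂tm L

/-- The Leray-projected momentum equation `∂ₜu + (u·∇)u + ∇p = νΔu + θ(0,g)` in the sense of
distributions on `ℝ × 𝕋²`: tested against divergence-free test fields `Φ = (Φ₁, Φ₂)`. -/
def Momentum {L : ℝ} (ν g : ℝ) (u : ℝ → Vel L) (θ : ℝ → L2 L) : Prop :=
  ∀ Φ₁ Φ₂ : ℝ × ℝ × ℝ → ℝ, IsTest L Φ₁ → IsTest L Φ₂ → (∀ z, d1 Φ₁ z + d2 Φ₂ z = 0) →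
    ∫ t : ℝ, momI ν g (u t) (θ t) Φ₁ Φ₂ t = 0

/-- `u ∈ L²_loc(ℝ; V)` for a curve `u` in `H`. -/
def LocV {L : ℝ} (u : ℝ → Vel L) : Prop :=
  ∀ a b : ℝ, ∫⁻ t in Icc a b, (dirichlet (u t).c1 + dirichlet (u t).c2) < ⊤

/-- Solutions on `ℝ` of the semi-dissipative Boussinesq system. -/
structure IsSolution {L : ℝ} (ν g : ℝ) (u : ℝ → Vel L) (θ : ℝ → L2 L) : Prop where
  inH : ∀ t, InH (u t)
  meanFree : ∀ t, MeanFree (θ t)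
  cont₁ : WeaklyCont fun t => (u t).c1
  cont₂ : WeaklyCont fun t => (u t).c2
  cont₃ : WeaklyCont θ
  locV : LocV u
  momentum : Momentum ν g u θ
  transport : Transport u θ

/-- A curve is bounded in `L²`. -/
def BddCurve {L : ℝ} (f : ℝ → L2 L) : Prop := ∃ C : ℝ, ∀ t, ‖f t‖ ≤ C

/-- `(u₀, θ₀)` belongs to the weak sigma-attractor `𝒜`. -/
def InAttractor {L : ℝ} (ν g : ℝ) (u₀ : Vel L) (θ₀ : L2 L) : Prop :=
  ∃ (u : ℝ → Vel L) (θ : ℝ → L2 L), IsSolution ν g u θ ∧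
    BddCurve (fun t => (u t).c1) ∧ BddCurve (fun t => (u t).c2) ∧ BddCurve θ ∧ u 0 = u₀ ∧ θ 0 = θ₀

/-- `θ ∈ P_θ 𝒜`: `θ` is the temperature component of a point of `𝒜`. -/
def Ptheta (L ν g : ℝ) (θ : L2 L) : Prop := ∃ u : Vel L, InAttractor ν g u θ

/-- `S` contains a ball of the space of mean-free `L²` functions. -/
def HasInterior {L : ℝ} (S : L2 L → Prop) : Prop :=
  ∃ θs : L2 L, MeanFree θs ∧ ∃ ε : ℝ, 0 < ε ∧ ∀ θ : L2 L, MeanFree θ → dist θ θs < ε → S θ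

end Pool.Agent.Lib.P3e0609
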