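import Pool.Agent.Lib.P3e0609.Realize

/-!
The weak equations, per time slice, in terms of Fourier coefficients.
-/

set_option autoImplicit false

open MeasureTheory Set Filter Topology
open scoped ComplexConjugate ContDiff

namespace Pool.Agent.Lib.P3e0609

/-- first velocity coefficient from the vorticity -/
noncomputable def U1 (κ : ℝ) (w : Z2 → ℂ) (k : Z2) : ℂ :=
  Complex.I * ((k.2 / (κ * nsq k) : ℝ) : ℂ) * w k

/-- second velocity coefficient from the vorticity -/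
noncomputable def U2 (κ : ℝ) (w : Z2 → ℂ) (k : Z2) : ℂ :=
  -(Complex.I * ((k.1 / (κ * nsq k) : ℝ) : ℂ)) * w k

lemma U1_neg (κ : ℝ) {w : Z2 → ℂ} (hw : ∀ k, w (-k) = conj (w k)) (k : Z2) :
    U1 κ w (-k) = conj (U1 κ w k) := by
  unfold U1
  rw [nsq_neg, hw, map_mul, map_mul, Complex.conj_I, Complex.conj_ofReal]
  push_cast [Prod.snd_neg]
  ring

lemma U2_neg (κ : ℝ) {w : Z2 → ℂ} (hw : ∀ k, w (-k) = conj (w k)) (k : Z2) :
    U2 κ w (-k) = conj (U2 κ w k) := by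
  unfold U2
  rw [nsq_neg, hw, map_mul, map_neg, map_mul, Complex.conj_I, Complex.conj_ofReal]
  push_cast [Prod.fst_neg]
  ring

lemma abs_fst_le (k : Z2) : |(k.1 : ℝ)| ≤ nsq k := by
  have h : |(k.1 : ℝ)| ≤ (k.1 : ℝ) ^ 2 := by
    rw [← sq_abs]
    have : |(k.1 : ℝ)| = ((|k.1| : ℤ) : ℝ) := by push_cast; rfl
    rw [this]
    have h2 : |k.1| ≤ |k.1| ^ 2 := by
      rcases eq_or_ne k.1 0 with h0 | h0
      · simp [h0]
      · have := Int.one_le_abs h0; nlinarith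
    exact_mod_cast h2
  unfold nsq
  nlinarith [sq_nonneg (k.2 : ℝ)]

lemma abs_snd_le (k : Z2) : |(k.2 : ℝ)| ≤ nsq k := by
  have h : |(k.2 : ℝ)| ≤ (k.2 : ℝ) ^ 2 := by
    rw [← sq_abs]
    have : |(k.2 : ℝ)| = ((|k.2| : ℤ) : ℝ) := by push_cast; rfl
    rw [this]
    have h2 : |k.2| ≤ |k.2| ^ 2 := by
      rcases eq_or_ne k.2 0 with h0 | h0
      · simp [h0]
      · have := Int.one_le_abs h0; nlinarith
    exact_mod_cast h2
  unfold nsq
  nlinarith [sq_nonneg (k.1 : ℝ)]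

lemma norm_U1_le {κ : ℝ} (hκ : 0 < κ) (w : Z2 → ℂ) (k : Z2) : ‖U1 κ w k‖ ≤ ‖w k‖ / κ := by
  unfold U1
  rw [norm_mul, norm_mul, Complex.norm_I, one_mul, Complex.norm_real, Real.norm_eq_abs, abs_div,
    abs_mul, abs_of_pos hκ, abs_of_nonneg (nsq_nonneg k)]
  rcases eq_or_ne k 0 with rfl | hk
  · simp [nsq]; positivity
  · have h := nsq_pos hk
    have h1 : |(k.2 : ℝ)| / (κ * nsq k) ≤ 1 / κ := by
      rw [div_le_div_iff₀ (by positivity) hκ]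
      have := abs_snd_le k
      nlinarith
    calc |(k.2 : ℝ)| / (κ * nsq k) * ‖w k‖ ≤ 1 / κ * ‖w k‖ := by gcongr
      _ = _ := by ring

lemma norm_U2_le {κ : ℝ} (hκ : 0 < κ) (w : Z2 → ℂ) (k : Z2) : ‖U2 κ w k‖ ≤ ‖w k‖ / κ := by
  unfold U2
  rw [norm_mul, norm_neg, norm_mul, Complex.norm_I, one_mul, Complex.norm_real, Real.norm_eq_abs,
    abs_div, abs_mul, abs_of_pos hκ, abs_of_nonneg (nsq_nonneg k)]
  rcases eq_or_ne k 0 with rfl | hk
  · simp [nsq]; positivity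
  · have h := nsq_pos hk
    have h1 : |(k.1 : ℝ)| / (κ * nsq k) ≤ 1 / κ := by
      rw [div_le_div_iff₀ (by positivity) hκ]
      have := abs_fst_le k
      nlinarith
    calc |(k.1 : ℝ)| / (κ * nsq k) * ‖w k‖ ≤ 1 / κ * ‖w k‖ := by gcongr
      _ = _ := by ring

lemma L2le_of_le {x y : Z2 → ℂ} {X c : ℝ} (hx : L2le x X)
    (h : ∀ k, ‖y k‖ ≤ ‖x k‖ * c) : L2le y (X * c) := by
  intro s
  calc ∑ p ∈ s, ‖y p‖ ^ 2 ≤ ∑ p ∈ s, ‖x p‖ ^ 2 * c ^ 2 := by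
        refine Finset.sum_le_sum fun p _ => ?_
        rw [← mul_pow]
        gcongr
        exact h p
    _ = (∑ p ∈ s, ‖x p‖ ^ 2) * c ^ 2 := by rw [Finset.sum_mul]
    _ ≤ X ^ 2 * c ^ 2 := by gcongr; exact hx s
    _ = _ := by ring

/-! ### integrability -/

lemma integrable_mul {L : ℝ} (f g : L2 L) : Integrable (fun x => f x * g x) (tm L) :=
  (Lp.memLp f).integrable_mul (Lp.memLp g)

lemma slice_cont {L : ℝ} {φ : ℝ × ℝ × ℝ → ℝ} (h : IsTest L φ) (t : ℝ) :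
    Continuous fun x : ℝ × ℝ => φ (t, x) := h.1.continuous.comp (by fun_prop)

lemma integrable_mul_test {L : ℝ} {w : ℝ × ℝ → ℝ} (hw : Integrable w (tm L))
    {φ : ℝ × ℝ × ℝ → ℝ} (h : IsTest L φ) (t : ℝ) :
    Integrable (fun x => w x * φ (t, x)) (tm L) := by
  obtain ⟨C, _, hC⟩ := h.bound
  refine hw.mul_bdd (c := C) (slice_cont h t).aestronglyMeasurable ?_
  filter_upwards [ae_cell L] with x hx
  exact hC t x hx

lemma memLp_test {L : ℝ} {φ : ℝ × ℝ × ℝ → ℝ} (h : IsTest L φ) (t : ℝ) :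
    MemLp (fun x => ((φ (t, x) : ℝ) : ℂ)) 2 (tm L) := by
  obtain ⟨C, _, hC⟩ := h.bound
  refine MemLp.of_bound (Complex.continuous_ofReal.comp (slice_cont h t)).aestronglyMeasurable C ?_
  filter_upwards [ae_cell L] with x hx
  rw [Complex.norm_real]
  exact hC t x hx

lemma summable_tc {L : ℝ} (hL : 0 < L) {φ : ℝ × ℝ × ℝ → ℝ} (h : IsTest L φ) (t : ℝ) :
    Summable fun k => ‖fourierC L (fun x => ((φ (t, x) : ℝ) : ℂ)) k‖ := by
  obtain ⟨C, hC0, hC⟩ := h.decay hL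
  refine Summable.of_nonneg_of_le (fun _ => norm_nonneg _) (fun k => (hC k t).trans ?_)
    ((summable_WW hL).mul_left C)
  have hW := WW_ge_one L k
  rw [mul_one_div]
  gcongr
  nlinarith

/-- Parseval against a test function. -/
lemma pair_test {L : ℝ} (hL : 0 < L) (f : L2 L) {φ : ℝ × ℝ × ℝ → ℝ} (h : IsTest L φ) (t : ℝ) :
    HasSum (fun k => (L : ℂ) ^ 2 * (conj (rc f k) * tc L φ k t))
      (((∫ x, f x * φ (t, x) ∂tm L : ℝ)) : ℂ) := by
  have h1 := pairing hL (memLp_test h t) (summable_tc hL h t)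
    (w := fun x => f x) ((Lp.memLp f).integrable (by norm_num))
  have e : (∫ x, ((f x : ℝ) : ℂ) * ((φ (t, x) : ℝ) : ℂ) ∂tm L) =
      ((∫ x, f x * φ (t, x) ∂tm L : ℝ) : ℂ) := by
    rw [← integral_complex_ofReal]
    congr 1
    funext x
    push_cast
    ring
  rw [e] at h1
  exact h1

/-- Pairing of a product with a test function. -/
lemma pair_test2 {L : ℝ} (hL : 0 < L) (f g : L2 L) {φ : ℝ × ℝ × ℝ → ℝ} (h : IsTest L φ) (t : ℝ) :
    HasSum (fun k => (L : ℂ) ^ 2 * (conj (fourierC L (fun x => ((f x * g x : ℝ) : ℂ)) k) *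
      tc L φ k t)) (((∫ x, (f x * g x) * φ (t, x) ∂tm L : ℝ)) : ℂ) := by
  have h1 := pairing hL (memLp_test h t) (summable_tc hL h t)
    (w := fun x => f x * g x) (integrable_mul f g)
  have e : (∫ x, ((f x * g x : ℝ) : ℂ) * ((φ (t, x) : ℝ) : ℂ) ∂tm L) =
      ((∫ x, (f x * g x) * φ (t, x) ∂tm L : ℝ) : ℂ) := by
    rw [← integral_complex_ofReal]
    congr 1
    funext x
    push_cast
    ring
  rw [e] at h1
  exact h1

/-- Transport: slice identity. -/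
lemma transport_slice {L κ : ℝ} (hL : 0 < L) (hκ : κ = 2 * Real.pi / L) (θ u₁ u₂ : L2 L)
    (w : Z2 → ℂ) (W r : ℝ) (hW : 0 ≤ W) (hr : 0 ≤ r) (hw : L2le w W) (hθ : L2le (rc θ) r)
    (h1 : ∀ k, rc u₁ k = U1 κ w k) (h2 : ∀ k, rc u₂ k = U2 κ w k)
    {φ : ℝ × ℝ × ℝ → ℝ} (h : IsTest L φ) (t : ℝ) :
    HasSum (fun k => (L : ℂ) ^ 2 * (conj (BS k w (rc θ)) * tc L φ k t +
        conj (rc θ k) * tc L (dt φ) k t))
      (((∫ x, θ x * (dt φ (t, x) + u₁ x * d1 φ (t, x) + u₂ x * d2 φ (t, x)) ∂tm L : ℝ)) : ℂ) := by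
  have hκ0 : 0 < κ := by rw [hκ]; have := Real.pi_pos; positivity
  have s1 := pair_test hL θ h.dt t
  have s2 := pair_test2 hL u₁ θ h.d1 t
  have s3 := pair_test2 hL u₂ θ h.d2 t
  have hi1 : Integrable (fun x => θ x * dt φ (t, x)) (tm L) :=
    integrable_mul_test ((Lp.memLp θ).integrable (by norm_num)) h.dt t
  have hi2 : Integrable (fun x => (u₁ x * θ x) * d1 φ (t, x)) (tm L) :=
    integrable_mul_test (integrable_mul u₁ θ) h.d1 t
  have hi3 : Integrable (fun x => (u₂ x * θ x) * d2 φ (t, x)) (tm L) :=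
    integrable_mul_test (integrable_mul u₂ θ) h.d2 t
  have e : ∫ x, θ x * (dt φ (t, x) + u₁ x * d1 φ (t, x) + u₂ x * d2 φ (t, x)) ∂tm L =
      ∫ x, θ x * dt φ (t, x) ∂tm L + ∫ x, (u₁ x * θ x) * d1 φ (t, x) ∂tm L +
      ∫ x, (u₂ x * θ x) * d2 φ (t, x) ∂tm L := by
    have hi12 : Integrable (fun x => θ x * dt φ (t, x) + (u₁ x * θ x) * d1 φ (t, x)) (tm L) :=
      hi1.add hi2
    rw [← integral_add hi1 hi2, ← integral_add hi12 hi3]
    congr 1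
    funext x
    ring
  rw [e]
  push_cast
  refine ((s1.add s2).add s3).congr_fun ?_
  intro k
  have hb : BS k w (rc θ) = -(Complex.I * κ) * ((k.1 : ℂ) * fourierC L (fun x => ((u₁ x * θ x : ℝ) : ℂ)) k
      + (k.2 : ℂ) * fourierC L (fun x => ((u₂ x * θ x : ℝ) : ℂ)) k) := by
    have p1 := product_coef hL u₁ θ k
    have p2 := product_coef hL u₂ θ k
    have p3 := ((p1.mul_left (k.1 : ℂ)).add (p2.mul_left (k.2 : ℂ))).mul_left (-(Complex.I * κ))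
    have p4 := (summable_norm_BS hw hθ hW hr k).of_norm.hasSum
    refine p4.unique (p3.congr_fun ?_)
    intro p
    rw [h1, h2]
    unfold U1 U2 wt
    rcases eq_or_ne p 0 with rfl | hp
    · simp [nsq]
    · have hn : (nsq p : ℂ) ≠ 0 := by exact_mod_cast (nsq_pos hp).ne'
      have hk : (κ : ℂ) ≠ 0 := by exact_mod_cast hκ0.ne'
      push_cast
      field_simp
      ring_nf
      rw [Complex.I_sq]
      ring
  rw [hb, tc_d1 hL h, tc_d2 hL h, ← hκ]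
  simp only [map_mul, map_add, map_neg, Complex.conj_I, Complex.conj_ofReal]
  have c1 : conj (k.1 : ℂ) = (k.1 : ℂ) := by simp
  have c2 : conj (k.2 : ℂ) = (k.2 : ℂ) := by simp
  rw [c1, c2, hκ]
  push_cast
  ring

/-- The vorticity form of the nonlinearity. -/
lemma nonlinear_identity {L κ : ℝ} (hL : 0 < L) (hκ0 : 0 < κ) (u₁ u₂ : L2 L)
    (w : Z2 → ℂ) (W : ℝ) (hW : 0 ≤ W) (hw : L2le w W) (hw0 : w 0 = 0)
    (h1 : ∀ k, rc u₁ k = U1 κ w k) (h2 : ∀ k, rc u₂ k = U2 κ w k) (k : Z2) :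
    BS k w w = (κ : ℂ) ^ 2 * (
      -((k.1 : ℂ) * k.2) * fourierC L (fun x => ((u₁ x * u₁ x : ℝ) : ℂ)) k
      - (k.2 : ℂ) ^ 2 * fourierC L (fun x => ((u₁ x * u₂ x : ℝ) : ℂ)) k
      + (k.1 : ℂ) ^ 2 * fourierC L (fun x => ((u₁ x * u₂ x : ℝ) : ℂ)) k
      + ((k.1 : ℂ) * k.2) * fourierC L (fun x => ((u₂ x * u₂ x : ℝ) : ℂ)) k) := by
  have p11 := product_coef hL u₁ u₁ k
  have p12 := product_coef hL u₁ u₂ k
  have p21 := product_coef hL u₂ u₁ k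
  have p22 := product_coef hL u₂ u₂ k
  have ecomm : (fun x => ((u₂ x * u₁ x : ℝ) : ℂ)) = fun x => ((u₁ x * u₂ x : ℝ) : ℂ) := by
    funext x; rw [mul_comm]
  rw [ecomm] at p21
  have pF := ((((p11.mul_left (-((k.1 : ℂ) * k.2))).sub (p21.mul_left ((k.2 : ℂ) ^ 2))).add
    (p12.mul_left ((k.1 : ℂ) ^ 2))).add (p22.mul_left ((k.1 : ℂ) * k.2))).mul_left ((κ : ℂ) ^ 2)
  have p4 := (summable_norm_BS hw hw hW hW k).of_norm.hasSum
  have pD := p4.sub pF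
  have hD : ∀ p : Z2, ((wt k p : ℂ) * w p * w (k - p) - (κ : ℂ) ^ 2 *
      (-((k.1 : ℂ) * k.2) * (rc u₁ p * rc u₁ (k - p)) - (k.2 : ℂ) ^ 2 * (rc u₂ p * rc u₁ (k - p)) +
      (k.1 : ℂ) ^ 2 * (rc u₁ p * rc u₂ (k - p)) + ((k.1 : ℂ) * k.2) * (rc u₂ p * rc u₂ (k - p)))) =
      -((((p.2 : ℝ) * (k - p).1 - p.1 * (k - p).2) * (p.1 * (k - p).1 + p.2 * (k - p).2) /
        (nsq p * nsq (k - p)) : ℝ) : ℂ) * w p * w (k - p) := by
    intro p
    rw [h1, h1, h2, h2]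
    have hk1 : (k.1 : ℂ) = (p.1 : ℂ) + ((k - p).1 : ℂ) := by push_cast [Prod.fst_sub]; ring
    have hk2 : (k.2 : ℂ) = (p.2 : ℂ) + ((k - p).2 : ℂ) := by push_cast [Prod.snd_sub]; ring
    have hwt : (wt k p : ℂ) = (((p.2 : ℂ) * k.1 - (p.1 : ℂ) * k.2)) / (nsq p : ℂ) := by
      unfold wt; push_cast; rfl
    rw [hwt, hk1, hk2]
    unfold U1 U2
    rcases eq_or_ne p 0 with rfl | hp
    · simp [hw0]
    rcases eq_or_ne (k - p) 0 with hq | hq
    · simp [hw0, hq]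
    have hn : (nsq p : ℂ) ≠ 0 := by exact_mod_cast (nsq_pos hp).ne'
    have hm : (nsq (k - p) : ℂ) ≠ 0 := by exact_mod_cast (nsq_pos hq).ne'
    have hk : (κ : ℂ) ≠ 0 := by exact_mod_cast hκ0.ne'
    have hm' : (nsq (k - p) : ℂ) = ((k - p).1 : ℂ) ^ 2 + ((k - p).2 : ℂ) ^ 2 := by
      unfold nsq; push_cast; rfl
    push_cast
    set q := k - p with hqdef
    generalize w p = a
    generalize w q = b
    have hI : Complex.I ^ 2 = -1 := Complex.I_sq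
    field_simp
    ring_nf
    rw [hI, hm']
    ring
  have hDfun : (fun p : Z2 => ((wt k p : ℂ) * w p * w (k - p) - (κ : ℂ) ^ 2 *
      (-((k.1 : ℂ) * k.2) * (rc u₁ p * rc u₁ (k - p)) - (k.2 : ℂ) ^ 2 * (rc u₂ p * rc u₁ (k - p)) +
      (k.1 : ℂ) ^ 2 * (rc u₁ p * rc u₂ (k - p)) + ((k.1 : ℂ) * k.2) * (rc u₂ p * rc u₂ (k - p))))) =
      fun p => -((((p.2 : ℝ) * (k - p).1 - p.1 * (k - p).2) * (p.1 * (k - p).1 + p.2 * (k - p).2) /
        (nsq p * nsq (k - p)) : ℝ) : ℂ) * w p * w (k - p) := funext hD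
  rw [hDfun] at pD
  have pD2 := (Equiv.subLeft k).hasSum_iff.2 pD
  have pD3 := pD.neg
  have e : ((fun p : Z2 => -((((p.2 : ℝ) * (k - p).1 - p.1 * (k - p).2) *
        (p.1 * (k - p).1 + p.2 * (k - p).2) /
        (nsq p * nsq (k - p)) : ℝ) : ℂ) * w p * w (k - p)) ∘ (Equiv.subLeft k)) =
      fun p => -(-((((p.2 : ℝ) * (k - p).1 - p.1 * (k - p).2) *
        (p.1 * (k - p).1 + p.2 * (k - p).2) /
        (nsq p * nsq (k - p)) : ℝ) : ℂ) * w p * w (k - p)) := by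
    funext p
    simp only [Function.comp_apply, Equiv.subLeft_apply, sub_sub_cancel]
    push_cast
    ring
  rw [e] at pD2
  have h3 := pD2.unique pD3
  have h4 : BS k w w - (κ : ℂ) ^ 2 * (-((k.1 : ℂ) * k.2) * fourierC L (fun x => ((u₁ x * u₁ x : ℝ) : ℂ)) k
      - (k.2 : ℂ) ^ 2 * fourierC L (fun x => ((u₁ x * u₂ x : ℝ) : ℂ)) k
      + (k.1 : ℂ) ^ 2 * fourierC L (fun x => ((u₁ x * u₂ x : ℝ) : ℂ)) k
      + ((k.1 : ℂ) * k.2) * fourierC L (fun x => ((u₂ x * u₂ x : ℝ) : ℂ)) k) = 0 := by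
    have h5 := self_eq_neg.1 h3
    exact h5
  exact sub_eq_zero.1 h4

end Pool.Agent.Lib.P3e0609
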