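import Pool.Agent.Lib.P3e0609.Shooting

/-!
The Fourier-Galerkin system of the 2D Boussinesq equations in vorticity form.
-/

set_option autoImplicit false

open MeasureTheory Set Filter Topology Metric
open scoped RealInnerProductSpace NNReal ComplexConjugate

namespace Pool.Agent.Lib.P3e0609

abbrev Z2 := ℤ × ℤ

/-- `|k|²` -/
def nsq (k : Z2) : ℝ := (k.1 : ℝ) ^ 2 + (k.2 : ℝ) ^ 2

/-- the weight `-(p^⊥ · k) / |p|²` -/
noncomputable def wt (k p : Z2) : ℝ := ((p.2 : ℝ) * k.1 - (p.1 : ℝ) * k.2) / nsq p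

lemma nsq_nonneg (k : Z2) : 0 ≤ nsq k := by unfold nsq; positivity

lemma nsq_neg (k : Z2) : nsq (-k) = nsq k := by simp [nsq]

lemma nsq_pos {k : Z2} (hk : k ≠ 0) : 0 < nsq k := by
  rcases eq_or_ne k.1 0 with h | h
  · have h2 : k.2 ≠ 0 := fun h2 => hk (Prod.ext h h2)
    have : (k.2 : ℝ) ≠ 0 := by exact_mod_cast h2
    unfold nsq; positivity
  · have : (k.1 : ℝ) ≠ 0 := by exact_mod_cast h
    unfold nsq; positivity

lemma one_le_nsq {k : Z2} (hk : k ≠ 0) : 1 ≤ nsq k := by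
  have h := nsq_pos hk
  have h1 : nsq k = ((k.1 ^ 2 + k.2 ^ 2 : ℤ) : ℝ) := by unfold nsq; push_cast; ring
  rw [h1] at h ⊢
  have h2 : 0 < k.1 ^ 2 + k.2 ^ 2 := by exact_mod_cast h
  exact_mod_cast h2

lemma wt_neg (k p : Z2) : wt (-k) (-p) = wt k p := by
  simp only [wt, nsq_neg]
  congr 1
  simp

lemma wt_swap (k j : Z2) : wt j (j - k) = - wt k (k - j) := by
  have h : nsq (j - k) = nsq (k - j) := by rw [← nsq_neg (j - k)]; congr 1; abel
  simp only [wt, h]
  rw [← neg_div]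
  congr 1
  simp
  ring

lemma wt_le (k p : Z2) : |wt k p| * Real.sqrt (nsq p) ≤ Real.sqrt (nsq k) := by
  rcases eq_or_ne p 0 with rfl | hp
  · simp [wt, nsq]
  have h := nsq_pos hp
  have h0 := nsq_nonneg k
  have hs : 0 < Real.sqrt (nsq p) := Real.sqrt_pos.2 h
  rw [wt, abs_div, abs_of_pos h, div_mul_eq_mul_div, div_le_iff₀ h]
  have h1 : |(p.2 : ℝ) * k.1 - (p.1 : ℝ) * k.2| ≤ Real.sqrt (nsq k) * Real.sqrt (nsq p) := by
    rw [← Real.sqrt_mul h0]
    apply Real.abs_le_sqrt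
    unfold nsq
    nlinarith [sq_nonneg ((p.1 : ℝ) * k.1 + (p.2 : ℝ) * k.2)]
  calc |(p.2 : ℝ) * k.1 - (p.1 : ℝ) * k.2| * Real.sqrt (nsq p)
      ≤ (Real.sqrt (nsq k) * Real.sqrt (nsq p)) * Real.sqrt (nsq p) := by gcongr
    _ = Real.sqrt (nsq k) * nsq p := by rw [mul_assoc, Real.mul_self_sqrt h.le]

/-- The index box. -/
noncomputable def box (n : ℕ) : Finset Z2 := (Finset.Icc (-(n : ℤ)) n ×ˢ Finset.Icc (-(n : ℤ)) n).erase 0

lemma mem_box {n : ℕ} {k : Z2} : k ∈ box n ↔ k ≠ 0 ∧ |k.1| ≤ n ∧ |k.2| ≤ n := by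
  simp only [box, Finset.mem_erase, Finset.mem_product, Finset.mem_Icc, abs_le]

lemma neg_mem_box {n : ℕ} {k : Z2} : -k ∈ box n ↔ k ∈ box n := by
  simp [mem_box]

abbrev GE (n : ℕ) := EuclideanSpace ℂ (box n)

variable {n : ℕ}

noncomputable def ext (b : GE n) : Z2 → ℂ := fun p => if h : p ∈ box n then b ⟨p, h⟩ else 0

noncomputable def symm (c : Z2 → ℂ) : Z2 → ℂ := fun p => (c p + conj (c (-p))) / 2

lemma ext_apply (b : GE n) (k : box n) : ext b k = b k := by simp [ext]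

lemma ext_of_notMem (b : GE n) {k : Z2} (hk : k ∉ box n) : ext b k = 0 := by simp [ext, hk]

lemma symm_neg (c : Z2 → ℂ) (p : Z2) : symm c (-p) = conj (symm c p) := by
  simp only [symm, neg_neg, map_div₀, map_add, Complex.conj_conj, Complex.conj_ofNat]
  rw [add_comm]

lemma symm_of_notMem (b : GE n) {k : Z2} (hk : k ∉ box n) : symm (ext b) k = 0 := by
  have : -k ∉ box n := fun h => hk (neg_mem_box.1 h)
  simp [symm, ext_of_notMem b hk, ext_of_notMem b this]

lemma symm_add (b c : GE n) (p : Z2) : symm (ext (b + c)) p = symm (ext b) p + symm (ext c) p := by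
  simp only [symm, ext]
  split_ifs <;> simp <;> ring

lemma symm_smul (r : ℝ) (b : GE n) (p : Z2) : symm (ext (r • b)) p = r * symm (ext b) p := by
  simp only [symm, ext]
  split_ifs <;> simp <;> ring

/-- The transport matrix applied to `a`. -/
noncomputable def Tfun (b a : GE n) : GE n := WithLp.toLp 2 fun k : box n =>
  ∑ j : box n, (wt k ((k : Z2) - j) : ℂ) * symm (ext b) ((k : Z2) - j) * a j

noncomputable def Tlin (n : ℕ) : GE n →ₗ[ℝ] GE n →ₗ[ℝ] GE n :=
  LinearMap.mk₂ ℝ Tfun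
    (fun b b' a => by
      ext k
      simp only [Tfun, PiLp.add_apply, symm_add]
      rw [← Finset.sum_add_distrib]
      refine Finset.sum_congr rfl fun j _ => by ring)
    (fun c b a => by
      ext k
      simp only [Tfun, PiLp.smul_apply, symm_smul, Complex.real_smul]
      rw [Finset.mul_sum]
      refine Finset.sum_congr rfl fun j _ => by ring)
    (fun b a a' => by
      ext k
      simp only [Tfun, PiLp.add_apply]
      rw [← Finset.sum_add_distrib]
      refine Finset.sum_congr rfl fun j _ => by ring)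
    (fun c b a => by
      ext k
      simp only [Tfun, PiLp.smul_apply, Complex.real_smul]
      rw [Finset.mul_sum]
      refine Finset.sum_congr rfl fun j _ => by ring)

noncomputable def TT (n : ℕ) : GE n →L[ℝ] GE n →L[ℝ] GE n :=
  LinearMap.toContinuousLinearMap
    ((LinearMap.toContinuousLinearMap : (GE n →ₗ[ℝ] GE n) ≃ₗ[ℝ] (GE n →L[ℝ] GE n)).toLinearMap ∘ₗ
      Tlin n)

lemma TT_apply (b a : GE n) (k : box n) : TT n b a k =
    ∑ j : box n, (wt k ((k : Z2) - j) : ℂ) * symm (ext b) ((k : Z2) - j) * a j := rfl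

lemma inner_eq (a b : GE n) : ⟪a, b⟫ = ∑ k, (conj (a k) * b k).re := by
  rw [PiLp.inner_apply]
  refine Finset.sum_congr rfl fun k _ => ?_
  rw [Complex.inner, mul_comm]

lemma TT_skew (b a : GE n) : ⟪TT n b a, a⟫ = 0 := by
  rw [inner_eq]
  have h1 : ∀ k : box n, (conj (TT n b a k) * a k).re = ∑ j : box n,
      (conj ((wt k ((k : Z2) - j) : ℂ) * symm (ext b) ((k : Z2) - j) * a j) * a k).re := by
    intro k
    rw [TT_apply, map_sum, Finset.sum_mul, Complex.re_sum]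
  simp_rw [h1]
  have h2 : ∀ k j : box n,
      (conj ((wt k ((k : Z2) - j) : ℂ) * symm (ext b) ((k : Z2) - j) * a j) * a k).re =
      - (conj ((wt j ((j : Z2) - k) : ℂ) * symm (ext b) ((j : Z2) - k) * a k) * a j).re := by
    intro k j
    have h3 : symm (ext b) ((j : Z2) - k) = conj (symm (ext b) ((k : Z2) - j)) := by
      rw [← symm_neg]; congr 1; abel
    rw [h3, wt_swap (k : Z2) j, ← Complex.neg_re, ← Complex.conj_re]
    congr 1
    simp only [map_mul, Complex.conj_conj, Complex.conj_ofReal, Complex.ofReal_neg, map_neg]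
    ring
  have h3 : (∑ k : box n, ∑ j : box n,
      (conj ((wt k ((k : Z2) - j) : ℂ) * symm (ext b) ((k : Z2) - j) * a j) * a k).re) =
      - ∑ k : box n, ∑ j : box n,
      (conj ((wt k ((k : Z2) - j) : ℂ) * symm (ext b) ((k : Z2) - j) * a j) * a k).re := by
    conv_lhs => rw [Finset.sum_comm]
    rw [← Finset.sum_neg_distrib]
    refine Finset.sum_congr rfl fun k _ => ?_
    rw [← Finset.sum_neg_distrib]
    refine Finset.sum_congr rfl fun j _ => ?_
    rw [h2 j k]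
  linarith

/-- diagonal operator -/
noncomputable def Dlin (n : ℕ) (d : Z2 → ℂ) : GE n →ₗ[ℝ] GE n where
  toFun a := WithLp.toLp 2 fun k : box n => d k * a k
  map_add' a b := by ext k; simp [mul_add]
  map_smul' c a := by ext k; simp; ring

noncomputable def DD (n : ℕ) (d : Z2 → ℂ) : GE n →L[ℝ] GE n := LinearMap.toContinuousLinearMap (Dlin n d)

lemma DD_apply (d : Z2 → ℂ) (a : GE n) (k : box n) : DD n d a k = d k * a k := rfl

lemma box_ne_zero (k : box n) : (k : Z2) ≠ 0 := (mem_box.1 k.2).1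

lemma dissip (κ ν g r B : ℝ) (hκ : 0 < κ) (hν : 0 < ν) (hg : 0 < g) (hr : 0 ≤ r)
    (hB : g * r < ν * κ * B) (a b : GE n) (ha : ‖a‖ ≤ r) (hb : ‖b‖ = B) :
    ⟪DD n (fun k => Complex.I * (κ * g * k.1 : ℝ)) a - DD n (fun k => ((ν * κ ^ 2 * nsq k : ℝ) : ℂ)) b, b⟫
      < 0 := by
  have hB0 : 0 < B := by
    have h0 : 0 ≤ g * r := by positivity
    have h1 : 0 < ν * κ := by positivity
    by_contra hcon
    push Not at hcon
    nlinarith
  set Y : ℝ := Real.sqrt (∑ k : box n, nsq k * ‖b k‖ ^ 2) with hY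
  have hYs : Y ^ 2 = ∑ k : box n, nsq k * ‖b k‖ ^ 2 := by
    rw [hY, Real.sq_sqrt]
    exact Finset.sum_nonneg fun k _ => mul_nonneg (nsq_nonneg _) (sq_nonneg _)
  have hYB : B ≤ Y := by
    rw [← hb, EuclideanSpace.norm_eq, hY]
    apply Real.sqrt_le_sqrt
    refine Finset.sum_le_sum fun k _ => ?_
    have := one_le_nsq (box_ne_zero k)
    nlinarith [sq_nonneg ‖b k‖]
  have h1 : ⟪DD n (fun k => ((ν * κ ^ 2 * nsq k : ℝ) : ℂ)) b, b⟫ = ν * κ ^ 2 * Y ^ 2 := by
    rw [inner_eq, hYs, Finset.mul_sum]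
    refine Finset.sum_congr rfl fun k _ => ?_
    rw [DD_apply, map_mul, Complex.conj_ofReal, mul_assoc, ← Complex.normSq_eq_conj_mul_self,
      Complex.normSq_eq_norm_sq, ← Complex.ofReal_mul, Complex.ofReal_re]
    ring
  have h2 : ⟪DD n (fun k => Complex.I * (κ * g * k.1 : ℝ)) a, b⟫ ≤ κ * g * (r * Y) := by
    rw [inner_eq]
    have h3 : ∀ k : box n, (conj (DD n (fun k => Complex.I * (κ * g * k.1 : ℝ)) a k) * b k).re ≤
        κ * g * (‖a k‖ * (Real.sqrt (nsq k) * ‖b k‖)) := by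
      intro k
      refine (Complex.re_le_norm _).trans ?_
      rw [norm_mul, RCLike.norm_conj, DD_apply, norm_mul, norm_mul, Complex.norm_I, one_mul,
        Complex.norm_real, Real.norm_eq_abs, abs_mul, abs_of_pos (by positivity : 0 < κ * g)]
      have h4 : |((k : Z2).1 : ℝ)| ≤ Real.sqrt (nsq k) := by
        apply Real.abs_le_sqrt
        unfold nsq
        nlinarith [sq_nonneg ((k : Z2).2 : ℝ)]
      calc κ * g * |((k : Z2).1 : ℝ)| * ‖a k‖ * ‖b k‖
          ≤ κ * g * Real.sqrt (nsq k) * ‖a k‖ * ‖b k‖ := by gcongr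
        _ = _ := by ring
    refine (Finset.sum_le_sum fun k _ => h3 k).trans ?_
    rw [← Finset.mul_sum]
    have h4 : ∑ k : box n, ‖a k‖ * (Real.sqrt (nsq k) * ‖b k‖) ≤ ‖a‖ * Y := by
      have h5 := Real.sum_mul_le_sqrt_mul_sqrt Finset.univ (fun k : box n => ‖a k‖)
        (fun k : box n => Real.sqrt (nsq k) * ‖b k‖)
      refine h5.trans (le_of_eq ?_)
      rw [EuclideanSpace.norm_eq, hY]
      congr 2
      refine Finset.sum_congr rfl fun k _ => ?_
      rw [mul_pow, Real.sq_sqrt (nsq_nonneg _)]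
    have hY0 : 0 ≤ Y := Real.sqrt_nonneg _
    calc κ * g * ∑ k : box n, ‖a k‖ * (Real.sqrt (nsq k) * ‖b k‖) ≤ κ * g * (‖a‖ * Y) := by gcongr
      _ ≤ κ * g * (r * Y) := by gcongr
  rw [inner_sub_left, h1]
  have hY0 : 0 < Y := hB0.trans_le hYB
  have h3 : g * r < ν * κ * Y := by
    have : ν * κ * B ≤ ν * κ * Y := by gcongr
    linarith
  have h4 : κ * g * (r * Y) < ν * κ ^ 2 * Y ^ 2 := by
    calc κ * g * (r * Y) = (κ * Y) * (g * r) := by ring
      _ < (κ * Y) * (ν * κ * Y) := by gcongr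
      _ = _ := by ring
  linarith

/-- `symm` does not increase the `ℓ²` norm. -/
lemma symm_sq_le (b : GE n) (s : Finset Z2) : ∑ p ∈ s, ‖symm (ext b) p‖ ^ 2 ≤ ‖b‖ ^ 2 := by
  have h0 : ∑ p ∈ box n, ‖ext b p‖ ^ 2 = ‖b‖ ^ 2 := by
    rw [EuclideanSpace.norm_sq_eq, ← Finset.sum_coe_sort]
    refine Finset.sum_congr rfl fun k _ => by rw [ext_apply]
  have h1 : ∑ p ∈ s, ‖symm (ext b) p‖ ^ 2 ≤ ∑ p ∈ box n, ‖symm (ext b) p‖ ^ 2 := by
    have h2 : ∑ p ∈ s, ‖symm (ext b) p‖ ^ 2 = ∑ p ∈ s ∩ box n, ‖symm (ext b) p‖ ^ 2 := by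
      symm
      apply Finset.sum_subset Finset.inter_subset_left
      intro p hp hp2
      have : p ∉ box n := fun h => hp2 (Finset.mem_inter.2 ⟨hp, h⟩)
      rw [symm_of_notMem b this]; simp
    rw [h2]
    exact Finset.sum_le_sum_of_subset_of_nonneg Finset.inter_subset_right
      fun _ _ _ => sq_nonneg _
  refine h1.trans ?_
  have h2 : ∑ p ∈ box n, ‖ext b (-p)‖ ^ 2 = ∑ p ∈ box n, ‖ext b p‖ ^ 2 := by
    refine Finset.sum_nbij' (fun p => -p) (fun p => -p) ?_ ?_ ?_ ?_ ?_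
    · intro p hp; exact neg_mem_box.2 hp
    · intro p hp; exact neg_mem_box.2 hp
    · intro p _; simp
    · intro p _; simp
    · intro p _; simp
  have h3 : ∀ p ∈ box n, ‖symm (ext b) p‖ ^ 2 ≤ (‖ext b p‖ ^ 2 + ‖ext b (-p)‖ ^ 2) / 2 := by
    intro p _
    have h4 : ‖symm (ext b) p‖ ≤ (‖ext b p‖ + ‖ext b (-p)‖) / 2 := by
      simp only [symm, norm_div, Complex.norm_ofNat]
      gcongr
      refine (norm_add_le _ _).trans ?_
      rw [RCLike.norm_conj]
    calc ‖symm (ext b) p‖ ^ 2 ≤ ((‖ext b p‖ + ‖ext b (-p)‖) / 2) ^ 2 := by gcongr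
      _ ≤ _ := by nlinarith [sq_nonneg (‖ext b p‖ - ‖ext b (-p)‖)]
  refine (Finset.sum_le_sum h3).trans ?_
  rw [← Finset.sum_div, Finset.sum_add_distrib, h2, h0]
  linarith

/-- The bilinear transport sum. -/
noncomputable def BS (k : Z2) (x y : Z2 → ℂ) : ℂ := ∑' p, (wt k p : ℂ) * x p * y (k - p)

lemma BS_eq_sum (k : Z2) (x y : Z2 → ℂ) (hy : ∀ p, p ∉ box n → y p = 0) :
    BS k x y = ∑ j ∈ box n, (wt k (k - j) : ℂ) * x (k - j) * y j := by
  unfold BS
  rw [← (Equiv.subLeft k).tsum_eq]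
  simp only [Equiv.subLeft_apply, sub_sub_cancel]
  apply tsum_eq_sum
  intro j hj
  rw [hy j hj, mul_zero]

lemma symm_T (b a : GE n) (k : Z2) (hk : k ∈ box n) :
    symm (ext (TT n b a)) k = BS k (symm (ext b)) (symm (ext a)) := by
  rw [BS_eq_sum k _ _ (fun p hp => symm_of_notMem a hp)]
  have hk' : -k ∈ box n := neg_mem_box.2 hk
  have h1 : ext (TT n b a) k = ∑ j ∈ box n, (wt k (k - j) : ℂ) * symm (ext b) (k - j) * ext a j := by
    have := ext_apply (TT n b a) ⟨k, hk⟩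
    simp only at this
    rw [this, TT_apply, ← Finset.sum_coe_sort (box n)]
    refine Finset.sum_congr rfl fun j _ => by rw [ext_apply]
  have h2 : conj (ext (TT n b a) (-k)) =
      ∑ j ∈ box n, (wt k (k - j) : ℂ) * symm (ext b) (k - j) * conj (ext a (-j)) := by
    have := ext_apply (TT n b a) ⟨-k, hk'⟩
    simp only at this
    rw [this, TT_apply, map_sum]
    have h3 : ∑ j : box n, conj ((wt (-k) (-k - (j : Z2)) : ℂ) * symm (ext b) (-k - (j : Z2)) * a j) =
        ∑ j ∈ box n, conj ((wt (-k) (-k - j) : ℂ) * symm (ext b) (-k - j) * ext a j) := by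
      rw [← Finset.sum_coe_sort (box n)]
      refine Finset.sum_congr rfl fun j _ => by rw [ext_apply]
    refine h3.trans ?_
    refine Finset.sum_nbij' (fun p => -p) (fun p => -p) ?_ ?_ ?_ ?_ ?_
    · intro p hp; exact neg_mem_box.2 hp
    · intro p hp; exact neg_mem_box.2 hp
    · intro p _; simp
    · intro p _; simp
    · intro p _
      simp only [neg_neg, map_mul, Complex.conj_ofReal]
      have e1 : -k - p = -(k - -p) := by abel
      rw [e1, wt_neg, symm_neg, Complex.conj_conj]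
  simp only [symm] at h1 h2 ⊢
  rw [h1, h2, ← Finset.sum_add_distrib, Finset.sum_div]
  refine Finset.sum_congr rfl fun j _ => by ring

lemma hasDerivAt_symm {a : ℝ → GE n} {a' : GE n} {t : ℝ} (h : HasDerivAt a a' t) (k : Z2) :
    HasDerivAt (fun s => symm (ext (a s)) k) (symm (ext a') k) t := by
  have h1 : ∀ p : Z2, HasDerivAt (fun s => ext (a s) p) (ext a' p) t := by
    intro p
    by_cases hp : p ∈ box n
    · have h2 := (PiLp.hasFDerivAt_apply (𝕜 := ℝ) 2 (a t) (⟨p, hp⟩ : box n)).comp_hasDerivAt t h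
      have e1 : (fun s => ext (a s) p) = fun s => (a s) ⟨p, hp⟩ := by
        funext s; simp [ext, hp]
      rw [e1]
      have e2 : ext a' p = a' ⟨p, hp⟩ := by simp [ext, hp]
      rw [e2]
      exact h2
    · simp only [ext, hp, dif_neg, not_false_iff]
      exact hasDerivAt_const t 0
  have h2 := (h1 k).add ((h1 (-k)).star)
  exact h2.div_const 2

lemma symm_DD (d : Z2 → ℂ) (hd : ∀ k, d (-k) = conj (d k)) (a : GE n) (k : Z2) :
    symm (ext (DD n d a)) k = d k * symm (ext a) k := by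
  have h1 : ∀ p, ext (DD n d a) p = d p * ext a p := by
    intro p
    by_cases hp : p ∈ box n
    · have e1 := ext_apply (DD n d a) ⟨p, hp⟩
      have e2 := ext_apply a ⟨p, hp⟩
      simp only at e1 e2
      rw [e1, e2, DD_apply]
    · rw [ext_of_notMem _ hp, ext_of_notMem _ hp, mul_zero]
  simp only [symm]
  rw [h1, h1, hd, map_mul, Complex.conj_conj]
  ring

lemma symm_sub (b c : GE n) (p : Z2) : symm (ext (b - c)) p = symm (ext b) p - symm (ext c) p := by
  have h := symm_add b ((-1 : ℝ) • c) p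
  rw [symm_smul] at h
  have e : b - c = b + (-1 : ℝ) • c := by rw [neg_one_smul]; abel
  rw [e, h]
  push_cast
  ring

/-- Existence of Galerkin solutions on `[-n, n]` with prescribed temperature at time `0`. -/
theorem galerkin (κ ν g r B : ℝ) (hκ : 0 < κ) (hν : 0 < ν) (hg : 0 < g) (hr : 0 ≤ r)
    (hB : g * r < ν * κ * B) (n : ℕ) (hn : 0 < n) (c₀ : Z2 → ℂ) (hc0 : ∀ k, c₀ (-k) = conj (c₀ k))
    (hcr : ∀ s : Finset Z2, ∑ p ∈ s, ‖c₀ p‖ ^ 2 ≤ r ^ 2) :
    ∃ θ ω : ℝ → Z2 → ℂ,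
      (∀ t k, θ t (-k) = conj (θ t k)) ∧ (∀ t k, ω t (-k) = conj (ω t k)) ∧
      (∀ t, ∀ k ∉ box n, θ t k = 0) ∧ (∀ t, ∀ k ∉ box n, ω t k = 0) ∧
      (∀ t ∈ Icc (-(n : ℝ)) n, ∀ s : Finset Z2, ∑ p ∈ s, ‖θ t p‖ ^ 2 ≤ r ^ 2) ∧
      (∀ t ∈ Icc (-(n : ℝ)) n, ∀ s : Finset Z2, ∑ p ∈ s, ‖ω t p‖ ^ 2 ≤ B ^ 2) ∧
      (∀ k ∈ box n, θ 0 k = c₀ k) ∧
      (∀ t ∈ Ioo (-(n : ℝ)) n, ∀ k ∈ box n,
        HasDerivAt (fun s => θ s k) (BS k (ω t) (θ t)) t) ∧
      (∀ t ∈ Ioo (-(n : ℝ)) n, ∀ k ∈ box n,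
        HasDerivAt (fun s => ω s k) (BS k (ω t) (ω t) - ((ν * κ ^ 2 * nsq k : ℝ) : ℂ) * ω t k +
          Complex.I * (κ * g * k.1 : ℝ) * θ t k) t) := by
  have hB0 : 0 < B := by
    have h0 : 0 ≤ g * r := by positivity
    have h1 : 0 < ν * κ := by positivity
    by_contra hcon
    push Not at hcon
    nlinarith
  set a₀ : GE n := WithLp.toLp 2 fun k : box n => c₀ k with ha₀
  have hext0 : ∀ p, ext a₀ p = if p ∈ box n then c₀ p else 0 := by
    intro p
    simp only [ext, ha₀]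
    split_ifs <;> rfl
  have ha₀r : ‖a₀‖ ≤ r := by
    have h1 : ‖a₀‖ ^ 2 ≤ r ^ 2 := by
      rw [EuclideanSpace.norm_sq_eq]
      have h2 := hcr (box n)
      rw [← Finset.sum_coe_sort] at h2
      exact h2
    exact (sq_le_sq₀ (norm_nonneg _) hr).1 h1
  have hn' : (0 : ℝ) < n := by exact_mod_cast hn
  obtain ⟨a, b, h0, h1, h2, h3, h4⟩ := shooting (TT n) TT_skew (TT n) (fun b => TT_skew b b)
    (DD n (fun k => ((ν * κ ^ 2 * nsq k : ℝ) : ℂ)))
    (DD n (fun k => Complex.I * (κ * g * k.1 : ℝ))) r B hr hB0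
    (fun a b ha hb => dissip κ ν g r B hκ hν hg hr hB a b ha hb) a₀ ha₀r n hn'
  refine ⟨fun t => symm (ext (a t)), fun t => symm (ext (b t)), fun t k => symm_neg _ _,
    fun t k => symm_neg _ _, fun t k hk => symm_of_notMem _ hk, fun t k hk => symm_of_notMem _ hk,
    ?_, ?_, ?_, ?_, ?_⟩
  · intro t ht s
    refine (symm_sq_le _ s).trans ?_
    rw [h3 t ht]
    gcongr
  · intro t ht s
    refine (symm_sq_le _ s).trans ?_
    have := h4 t ht
    gcongr
  · intro k hk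
    change symm (ext (a 0)) k = c₀ k
    rw [h0]
    simp only [symm, hext0, neg_mem_box, hk, if_true]
    rw [hc0, Complex.conj_conj]
    ring
  · intro t ht k hk
    have h5 := hasDerivAt_symm (h1 t ht) k
    rwa [symm_T _ _ k hk] at h5
  · intro t ht k hk
    have h5 := hasDerivAt_symm (h2 t ht) k
    refine h5.congr_deriv ?_
    rw [symm_add, symm_sub, symm_T _ _ k hk, symm_DD, symm_DD]
    · ring
    · intro k; rw [nsq_neg, Complex.conj_ofReal]
    · intro k
      rw [map_mul, Complex.conj_I, Complex.conj_ofReal]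
      simp

end Pool.Agent.Lib.P3e0609
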