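import Pool.Agent.Lib.P3e0609.Eqs

/-!
The momentum equation, per time slice.
-/

set_option autoImplicit false

open MeasureTheory Set Filter Topology
open scoped ComplexConjugate ContDiff

namespace Pool.Agent.Lib.P3e0609

lemma IsTest.add {L : ℝ} {φ ψ : ℝ × ℝ × ℝ → ℝ} (h : IsTest L φ) (h' : IsTest L ψ) :
    IsTest L (fun z => φ z + ψ z) := by
  obtain ⟨h1, h2, T, h3⟩ := h
  obtain ⟨h1', h2', T', h3'⟩ := h'
  refine ⟨h1.add h1', fun t x₁ x₂ => ?_, max T T', fun t x₁ x₂ ht => ?_⟩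
  · simp only [(h2 t x₁ x₂).1, (h2 t x₁ x₂).2, (h2' t x₁ x₂).1, (h2' t x₁ x₂).2, and_self]
  · simp only [h3 t x₁ x₂ ((le_max_left _ _).trans ht), h3' t x₁ x₂ ((le_max_right _ _).trans ht),
      add_zero]

lemma tc_add {L : ℝ} {φ ψ : ℝ × ℝ × ℝ → ℝ} (h : IsTest L φ) (h' : IsTest L ψ) (k : Z2) (t : ℝ) :
    tc L (fun z => φ z + ψ z) k t = tc L φ k t + tc L ψ k t := by
  unfold tc
  rw [fourierC_eq, fourierC_eq, fourierC_eq, ← mul_add, ← integral_add]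
  · congr 2
    funext x
    push_cast
    ring
  · exact integrable_cont ((Complex.continuous_ofReal.comp (h.1.continuous.comp (by fun_prop))).mul
      (continuous_ek L (-k)))
  · exact integrable_cont ((Complex.continuous_ofReal.comp (h'.1.continuous.comp (by fun_prop))).mul
      (continuous_ek L (-k)))

lemma IsTest.lap {L : ℝ} {φ : ℝ × ℝ × ℝ → ℝ} (h : IsTest L φ) : IsTest L (P3e0609.lap φ) :=
  h.d1.d1.add h.d2.d2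

lemma tc_lap {L κ : ℝ} (hL : 0 < L) (hκ : κ = 2 * Real.pi / L) {φ : ℝ × ℝ × ℝ → ℝ}
    (h : IsTest L φ) (k : Z2) (t : ℝ) :
    tc L (lap φ) k t = -((κ : ℂ) ^ 2 * nsq k) * tc L φ k t := by
  unfold lap
  rw [tc_add h.d1.d1 h.d2.d2, tc_d1 hL h.d1, tc_d1 hL h, tc_d2 hL h.d2, tc_d2 hL h, ← hκ]
  unfold nsq
  push_cast
  have hI : Complex.I ^ 2 = -1 := Complex.I_sq
  linear_combination ((κ : ℂ) ^ 2 * ((k.1 : ℂ) ^ 2 + (k.2 : ℂ) ^ 2) * tc L φ k t) * hI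

/-- right-hand side of the vorticity equation -/
noncomputable def wdot (κ ν g : ℝ) (w θ : Z2 → ℂ) (k : Z2) : ℂ :=
  BS k w w - ((ν * κ ^ 2 * nsq k : ℝ) : ℂ) * w k + Complex.I * (κ * g * k.1 : ℝ) * θ k

/-- The algebraic identity behind the momentum equation. -/
lemma momentum_alg (κ ν g n k₁ k₂ : ℝ) (hκ : κ ≠ 0) (hn : n ≠ 0) (hn2 : n = k₁ ^ 2 + k₂ ^ 2)
    (w θ N C11 C12 C22 f₁ f₂ : ℂ) (hdiv : (k₁ : ℂ) * f₁ + k₂ * f₂ = 0)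
    (hN : N = (κ : ℂ) ^ 2 * (-((k₁ : ℂ) * k₂) * C11 - (k₂ : ℂ) ^ 2 * C12 + (k₁ : ℂ) ^ 2 * C12 +
      ((k₁ : ℂ) * k₂) * C22)) :
    conj (Complex.I * ((k₂ / (κ * n) : ℝ) : ℂ) *
      (N - ((ν * κ ^ 2 * n : ℝ) : ℂ) * w + Complex.I * (κ * g * k₁ : ℝ) * θ)) * f₁ +
    conj (-(Complex.I * ((k₁ / (κ * n) : ℝ) : ℂ)) *
      (N - ((ν * κ ^ 2 * n : ℝ) : ℂ) * w + Complex.I * (κ * g * k₁ : ℝ) * θ)) * f₂ =
    conj C11 * (Complex.I * (κ * k₁) * f₁) + conj C12 * (Complex.I * (κ * k₂) * f₁) +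
    ν * (conj (Complex.I * ((k₂ / (κ * n) : ℝ) : ℂ) * w) * (-((κ : ℂ) ^ 2 * n) * f₁)) +
    conj C12 * (Complex.I * (κ * k₁) * f₂) + conj C22 * (Complex.I * (κ * k₂) * f₂) +
    ν * (conj (-(Complex.I * ((k₁ / (κ * n) : ℝ) : ℂ)) * w) * (-((κ : ℂ) ^ 2 * n) * f₂)) +
    g * (conj θ * f₂) := by
  have hn' : (n : ℂ) ≠ 0 := by exact_mod_cast hn
  have hκ' : (κ : ℂ) ≠ 0 := by exact_mod_cast hκ
  have hn2' : (n : ℂ) = (k₁ : ℂ) ^ 2 + (k₂ : ℂ) ^ 2 := by rw [hn2]; push_cast; ring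
  obtain ⟨s, hs1, hs2⟩ : ∃ s : ℂ, f₁ = -(k₂ * s) ∧ f₂ = k₁ * s := by
    refine ⟨(-(k₂ : ℂ) * f₁ + k₁ * f₂) / n, ?_, ?_⟩
    · field_simp
      rw [hn2']
      linear_combination (k₁ : ℂ) * hdiv
    · field_simp
      rw [hn2']
      linear_combination (k₂ : ℂ) * hdiv
  subst hs1 hs2 hN
  simp only [map_mul, map_add, map_sub, map_neg, map_pow, Complex.conj_I, Complex.conj_ofReal]
  push_cast
  generalize conj C11 = D11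
  generalize conj C12 = D12
  generalize conj C22 = D22
  generalize conj w = v
  generalize conj θ = η
  have hI : Complex.I ^ 2 = -1 := Complex.I_sq
  field_simp
  ring_nf
  rw [hI]
  rw [hn2']
  ring

/-- Momentum: slice identity. -/
lemma momentum_slice {L κ : ℝ} (ν g : ℝ) (hL : 0 < L) (hκ : κ = 2 * Real.pi / L) (θ u₁ u₂ : L2 L)
    (w : Z2 → ℂ) (W : ℝ) (hW : 0 ≤ W) (hw : L2le w W) (hw0 : w 0 = 0) (hθ0 : rc θ 0 = 0)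
    (h1 : ∀ k, rc u₁ k = U1 κ w k) (h2 : ∀ k, rc u₂ k = U2 κ w k)
    {Φ₁ Φ₂ : ℝ × ℝ × ℝ → ℝ} (hΦ₁ : IsTest L Φ₁) (hΦ₂ : IsTest L Φ₂)
    (hdiv : ∀ z, d1 Φ₁ z + d2 Φ₂ z = 0) (t : ℝ) :
    HasSum (fun k => (L : ℂ) ^ 2 * (
        (conj (U1 κ (wdot κ ν g w (rc θ)) k) * tc L Φ₁ k t + conj (U1 κ w k) * tc L (dt Φ₁) k t) +
        (conj (U2 κ (wdot κ ν g w (rc θ)) k) * tc L Φ₂ k t + conj (U2 κ w k) * tc L (dt Φ₂) k t)))
      (((∫ x, (u₁ x * (dt Φ₁ (t, x) + u₁ x * d1 Φ₁ (t, x) + u₂ x * d2 Φ₁ (t, x)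
          + ν * lap Φ₁ (t, x))
      + u₂ x * (dt Φ₂ (t, x) + u₁ x * d1 Φ₂ (t, x) + u₂ x * d2 Φ₂ (t, x)
          + ν * lap Φ₂ (t, x))
      + g * θ x * Φ₂ (t, x)) ∂tm L : ℝ)) : ℂ) := by
  have hκ0 : 0 < κ := by rw [hκ]; have := Real.pi_pos; positivity
  have hu1 := (Lp.memLp u₁).integrable (by norm_num : (1 : ENNReal) ≤ 2)
  have hu2 := (Lp.memLp u₂).integrable (by norm_num : (1 : ENNReal) ≤ 2)
  have hth := (Lp.memLp θ).integrable (by norm_num : (1 : ENNReal) ≤ 2)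
  have a1 := pair_test hL u₁ hΦ₁.dt t
  have a2 := pair_test2 hL u₁ u₁ hΦ₁.d1 t
  have a3 := pair_test2 hL u₁ u₂ hΦ₁.d2 t
  have a4 := (pair_test hL u₁ hΦ₁.lap t).mul_left (ν : ℂ)
  have b1 := pair_test hL u₂ hΦ₂.dt t
  have b2 := pair_test2 hL u₁ u₂ hΦ₂.d1 t
  have b3 := pair_test2 hL u₂ u₂ hΦ₂.d2 t
  have b4 := (pair_test hL u₂ hΦ₂.lap t).mul_left (ν : ℂ)
  have c1 := (pair_test hL θ hΦ₂ t).mul_left (g : ℂ)
  have i1 := integrable_mul_test hu1 hΦ₁.dt t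
  have i2 := integrable_mul_test (integrable_mul u₁ u₁) hΦ₁.d1 t
  have i3 := integrable_mul_test (integrable_mul u₁ u₂) hΦ₁.d2 t
  have i4 := (integrable_mul_test hu1 hΦ₁.lap t).const_mul ν
  have j1 := integrable_mul_test hu2 hΦ₂.dt t
  have j2 := integrable_mul_test (integrable_mul u₁ u₂) hΦ₂.d1 t
  have j3 := integrable_mul_test (integrable_mul u₂ u₂) hΦ₂.d2 t
  have j4 := (integrable_mul_test hu2 hΦ₂.lap t).const_mul ν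
  have l1 := (integrable_mul_test hth hΦ₂ t).const_mul g
  have e : ∫ x, (u₁ x * (dt Φ₁ (t, x) + u₁ x * d1 Φ₁ (t, x) + u₂ x * d2 Φ₁ (t, x)
          + ν * lap Φ₁ (t, x))
      + u₂ x * (dt Φ₂ (t, x) + u₁ x * d1 Φ₂ (t, x) + u₂ x * d2 Φ₂ (t, x)
          + ν * lap Φ₂ (t, x))
      + g * θ x * Φ₂ (t, x)) ∂tm L =
      ((((∫ x, u₁ x * dt Φ₁ (t, x) ∂tm L + ∫ x, (u₁ x * u₁ x) * d1 Φ₁ (t, x) ∂tm L) +
      (∫ x, (u₁ x * u₂ x) * d2 Φ₁ (t, x) ∂tm L + ν * ∫ x, u₁ x * lap Φ₁ (t, x) ∂tm L)) +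
      ((∫ x, u₂ x * dt Φ₂ (t, x) ∂tm L + ∫ x, (u₁ x * u₂ x) * d1 Φ₂ (t, x) ∂tm L) +
      (∫ x, (u₂ x * u₂ x) * d2 Φ₂ (t, x) ∂tm L + ν * ∫ x, u₂ x * lap Φ₂ (t, x) ∂tm L))) +
      g * ∫ x, θ x * Φ₂ (t, x) ∂tm L) := by
    have m1 : Integrable (fun x => u₁ x * dt Φ₁ (t, x) + (u₁ x * u₁ x) * d1 Φ₁ (t, x)) (tm L) :=
      i1.add i2
    have m2 : Integrable (fun x => (u₁ x * u₂ x) * d2 Φ₁ (t, x) + ν * (u₁ x * lap Φ₁ (t, x))) (tm L) :=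
      i3.add i4
    have m3 : Integrable (fun x => (u₁ x * dt Φ₁ (t, x) + (u₁ x * u₁ x) * d1 Φ₁ (t, x)) +
      ((u₁ x * u₂ x) * d2 Φ₁ (t, x) + ν * (u₁ x * lap Φ₁ (t, x)))) (tm L) := m1.add m2
    have n1 : Integrable (fun x => u₂ x * dt Φ₂ (t, x) + (u₁ x * u₂ x) * d1 Φ₂ (t, x)) (tm L) :=
      j1.add j2
    have n2 : Integrable (fun x => (u₂ x * u₂ x) * d2 Φ₂ (t, x) + ν * (u₂ x * lap Φ₂ (t, x))) (tm L) :=
      j3.add j4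
    have n3 : Integrable (fun x => (u₂ x * dt Φ₂ (t, x) + (u₁ x * u₂ x) * d1 Φ₂ (t, x)) +
      ((u₂ x * u₂ x) * d2 Φ₂ (t, x) + ν * (u₂ x * lap Φ₂ (t, x)))) (tm L) := n1.add n2
    have q1 : Integrable (fun x => ((u₁ x * dt Φ₁ (t, x) + (u₁ x * u₁ x) * d1 Φ₁ (t, x)) +
      ((u₁ x * u₂ x) * d2 Φ₁ (t, x) + ν * (u₁ x * lap Φ₁ (t, x)))) +
      ((u₂ x * dt Φ₂ (t, x) + (u₁ x * u₂ x) * d1 Φ₂ (t, x)) +
      ((u₂ x * u₂ x) * d2 Φ₂ (t, x) + ν * (u₂ x * lap Φ₂ (t, x))))) (tm L) := m3.add n3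
    rw [← integral_const_mul, ← integral_const_mul, ← integral_const_mul,
      ← integral_add i1 i2, ← integral_add i3 i4, ← integral_add m1 m2,
      ← integral_add j1 j2, ← integral_add j3 j4, ← integral_add n1 n2, ← integral_add m3 n3,
      ← integral_add q1 l1]
    congr 1
    funext x
    ring
  rw [e]
  push_cast
  refine ((((a1.add a2).add (a3.add a4)).add ((b1.add b2).add (b3.add b4))).add c1).congr_fun ?_
  intro k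
  rw [tc_d1 hL hΦ₁, tc_d2 hL hΦ₁, tc_d1 hL hΦ₂, tc_d2 hL hΦ₂, tc_lap hL hκ hΦ₁, tc_lap hL hκ hΦ₂,
    ← hκ, h1, h2]
  have hdk : (k.1 : ℂ) * tc L Φ₁ k t + k.2 * tc L Φ₂ k t = 0 := by
    have h3 := tc_add hΦ₁.d1 hΦ₂.d2 k t
    have h4 : tc L (fun z => d1 Φ₁ z + d2 Φ₂ z) k t = 0 := by
      unfold tc fourierC
      simp [hdiv]
    rw [h4, tc_d1 hL hΦ₁, tc_d2 hL hΦ₂, ← hκ] at h3
    have h5 : (Complex.I * κ) * ((k.1 : ℂ) * tc L Φ₁ k t + k.2 * tc L Φ₂ k t) = 0 := by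
      rw [h3]; push_cast; ring
    refine (mul_eq_zero.1 h5).resolve_left ?_
    exact mul_ne_zero Complex.I_ne_zero (by exact_mod_cast hκ0.ne')
  rcases eq_or_ne k 0 with rfl | hk
  · simp [U1, U2, hθ0, hw0, nsq]
  · have hN := nonlinear_identity hL hκ0 u₁ u₂ w W hW hw hw0 h1 h2 k
    have key := momentum_alg κ ν g (nsq k) k.1 k.2 hκ0.ne' (nsq_pos hk).ne' rfl (w k) (rc θ k)
      (BS k w w) _ _ _ (tc L Φ₁ k t) (tc L Φ₂ k t) (by push_cast; exact hdk) (by push_cast; exact hN)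
    have key2 : conj (U1 κ (wdot κ ν g w (rc θ)) k) * tc L Φ₁ k t +
        conj (U2 κ (wdot κ ν g w (rc θ)) k) * tc L Φ₂ k t = _ := key
    have e3 : (L : ℂ) ^ 2 * (
        (conj (U1 κ (wdot κ ν g w (rc θ)) k) * tc L Φ₁ k t + conj (U1 κ w k) * tc L (dt Φ₁) k t) +
        (conj (U2 κ (wdot κ ν g w (rc θ)) k) * tc L Φ₂ k t + conj (U2 κ w k) * tc L (dt Φ₂) k t)) =
        (L : ℂ) ^ 2 * ((conj (U1 κ (wdot κ ν g w (rc θ)) k) * tc L Φ₁ k t +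
        conj (U2 κ (wdot κ ν g w (rc θ)) k) * tc L Φ₂ k t) + (conj (U1 κ w k) * tc L (dt Φ₁) k t
        + conj (U2 κ w k) * tc L (dt Φ₂) k t)) := by ring
    rw [e3, key2]
    unfold U1 U2
    push_cast
    ring

end Pool.Agent.Lib.P3e0609
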