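import Pool.Agent.Lib.P3e0609.TestFun

/-!
From Fourier coefficients to weak solutions on the torus.
-/

set_option autoImplicit false

open MeasureTheory Set Filter Topology
open scoped ComplexConjugate ContDiff

namespace Pool.Agent.Lib.P3e0609

/-- Integration in time of an absolutely convergent series of derivatives. -/
lemma time_integral (J J' : Z2 → ℝ → ℂ) (hJ : ∀ k t, HasDerivAt (J k) (J' k t) t) (T : ℝ)
    (hT : ∀ k t, T ≤ |t| → J k t = 0 ∧ J' k t = 0) (M : Z2 → ℝ) (hM : Summable M)
    (hb : ∀ k t, ‖J' k t‖ ≤ M k) : ∫ t, ∑' k, J' k t = 0 := by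
  have hderiv : ∀ k, J' k = deriv (J k) := fun k => by
    funext t; exact (hJ k t).deriv.symm
  have hmeas : ∀ k, AEStronglyMeasurable (J' k) volume := by
    intro k
    rw [hderiv k]
    exact (stronglyMeasurable_deriv (J k)).aestronglyMeasurable
  have hM0 : ∀ k, 0 ≤ M k := fun k => (norm_nonneg _).trans (hb k 0)
  have hle : ∀ k t, ‖J' k t‖ ≤ (Icc (-T) T).indicator (fun _ => M k) t := by
    intro k t
    by_cases ht : t ∈ Icc (-T) T
    · rw [indicator_of_mem ht]; exact hb k t
    · rw [indicator_of_notMem ht]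
      have : T ≤ |t| := by
        by_contra hcon
        push Not at hcon
        exact ht ⟨(abs_lt.1 hcon).1.le, (abs_lt.1 hcon).2.le⟩
      rw [(hT k t this).2, norm_zero]
  have hind : ∀ k, Integrable ((Icc (-T) T).indicator (fun _ : ℝ => M k)) volume := by
    intro k
    rw [integrable_indicator_iff measurableSet_Icc]
    exact integrableOn_const (by simp)
  have hint : ∀ k, Integrable (J' k) volume := fun k =>
    (hind k).mono' (hmeas k) (Eventually.of_forall (hle k))
  have hJint : ∀ k, Integrable (J k) volume := by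
    intro k
    have hc : Continuous (J k) := continuous_iff_continuousAt.2 fun t => (hJ k t).continuousAt
    apply hc.integrable_of_hasCompactSupport
    apply HasCompactSupport.intro (isCompact_Icc (a := -T) (b := T))
    intro t ht
    have : T ≤ |t| := by
      by_contra hcon
      push Not at hcon
      exact ht ⟨(abs_lt.1 hcon).1.le, (abs_lt.1 hcon).2.le⟩
    exact (hT k t this).1
  have h0 : ∀ k, ∫ t, J' k t = 0 := fun k =>
    integral_eq_zero_of_hasDerivAt_of_integrable (hJ k) (hint k) (hJint k)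
  have h1 := hasSum_integral_of_summable_integral_norm (μ := (volume : Measure ℝ)) (F := J') hint
    (by
      refine Summable.of_nonneg_of_le (fun k => integral_nonneg fun _ => norm_nonneg _) (fun k => ?_)
        (hM.mul_left ((volume : Measure ℝ).real (Icc (-T) T)))
      have h2 : ∫ t, ‖J' k t‖ ≤ ∫ t, (Icc (-T) T).indicator (fun _ : ℝ => M k) t :=
        integral_mono (hint k).norm (hind k) (hle k)
      rw [integral_indicator_const _ measurableSet_Icc, smul_eq_mul] at h2
      exact h2)
  simp_rw [h0] at h1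
  exact h1.unique hasSum_zero

lemma continuous_pair {x : ℝ → Z2 → ℂ} {X : ℝ} (hX : 0 ≤ X) (hx : ∀ t, L2le (x t) X)
    (hxc : ∀ k, Continuous fun t => x t k) {y : Z2 → ℂ} (hy : Summable fun k => ‖y k‖ ^ 2) :
    Continuous fun t => ∑' k, conj (x t k) * y k := by
  classical
  have hcs : ∀ (t : ℝ) (s : Finset Z2), ∑ k ∈ s, ‖conj (x t k) * y k‖ ≤
      X * Real.sqrt (∑ k ∈ s, ‖y k‖ ^ 2) := by
    intro t s
    have h1 := Real.sum_mul_le_sqrt_mul_sqrt s (fun k => ‖x t k‖) (fun k => ‖y k‖)
    have h2 : Real.sqrt (∑ p ∈ s, ‖x t p‖ ^ 2) ≤ X := by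
      rw [Real.sqrt_le_left hX]; exact hx t s
    calc ∑ k ∈ s, ‖conj (x t k) * y k‖ = ∑ k ∈ s, ‖x t k‖ * ‖y k‖ := by
          refine Finset.sum_congr rfl fun k _ => ?_
          rw [norm_mul, RCLike.norm_conj]
      _ ≤ _ := h1
      _ ≤ _ := by gcongr
  have hsumm : ∀ t, Summable fun k => ‖conj (x t k) * y k‖ := by
    intro t
    refine summable_of_sum_le (c := X * Real.sqrt (∑' k, ‖y k‖ ^ 2)) (fun _ => norm_nonneg _)
      fun s => (hcs t s).trans ?_
    gcongr
    exact hy.sum_le_tsum s (fun _ _ => sq_nonneg _)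
  have hunif : TendstoUniformly (fun (s : Finset Z2) t => ∑ k ∈ s, conj (x t k) * y k)
      (fun t => ∑' k, conj (x t k) * y k) atTop := by
    rw [Metric.tendstoUniformly_iff]
    intro ε hε
    have hv := summable_iff_vanishing_norm.1 hy ((ε / (2 * (X + 1))) ^ 2) (by positivity)
    obtain ⟨s, hs⟩ := hv
    filter_upwards [eventually_ge_atTop s] with s' hs' t
    rw [dist_eq_norm]
    have h1 : (∑' k, conj (x t k) * y k) - ∑ k ∈ s', conj (x t k) * y k =
        ∑' k : {k // k ∉ s'}, conj (x t k) * y k := by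
      rw [← (hsumm t).of_norm.sum_add_tsum_subtype_compl s']
      simp
    rw [h1]
    have h2 : Summable fun k : {k // k ∉ s'} => ‖conj (x t k) * y k‖ := (hsumm t).subtype _
    refine ((norm_tsum_le_tsum_norm h2).trans
      (h2.tsum_le_of_sum_le (a₂ := X * (ε / (2 * (X + 1)))) fun u => ?_)).trans_lt ?_
    · have h3 := hcs t (u.map (Function.Embedding.subtype _))
      rw [Finset.sum_map, Finset.sum_map] at h3
      refine h3.trans ?_
      gcongr
      rw [Real.sqrt_le_left (by positivity)]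
      have h4 := hs (u.map (Function.Embedding.subtype _)) (by
        rw [Finset.disjoint_left]
        intro k hk hk'
        rw [Finset.mem_map] at hk
        obtain ⟨a, _, rfl⟩ := hk
        exact a.2 (hs' hk'))
      rw [Finset.sum_map, Real.norm_eq_abs] at h4
      exact ((le_abs_self _).trans h4.le)
    · have h5 : X * (ε / (2 * (X + 1))) = (ε / 2) * (X / (X + 1)) := by field_simp
      rw [h5]
      have h6 : X / (X + 1) ≤ 1 := by rw [div_le_one (by positivity)]; linarith
      calc (ε / 2) * (X / (X + 1)) ≤ (ε / 2) * 1 := by gcongr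
        _ < ε := by linarith
  refine hunif.continuous (Frequently.of_forall fun s => ?_)
  refine continuous_finsetSum _ fun k _ => ?_
  exact (Complex.continuous_conj.comp (hxc k)).mul continuous_const

lemma summable_rc {L : ℝ} (hL : 0 < L) (f : L2 L) : Summable fun k => ‖rc f k‖ ^ 2 := by
  have h := (parseval hL (memLp_ofReal f) (memLp_ofReal f)).summable.norm
  have e : (fun k => ‖(L : ℂ) ^ 2 * (conj (fourierC L (fun x => (f x : ℂ)) k) *
      fourierC L (fun x => (f x : ℂ)) k)‖) = fun k => L ^ 2 * ‖rc f k‖ ^ 2 := by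
    funext k
    rw [norm_mul, norm_mul, RCLike.norm_conj, norm_pow, Complex.norm_real, Real.norm_eq_abs,
      abs_of_pos hL]
    unfold rc
    ring
  rw [e] at h
  have h2 := h.mul_left (1 / L ^ 2)
  refine h2.congr fun k => ?_
  field_simp

lemma inner_L2_eq {L : ℝ} (hL : 0 < L) (f h : L2 L) :
    ((inner ℝ f h : ℝ) : ℂ) = (L : ℂ) ^ 2 * ∑' k, conj (rc f k) * rc h k := by
  have h1 := parseval hL (memLp_ofReal f) (memLp_ofReal h)
  rw [← tsum_mul_left]
  have h2 : (∑' k, (L : ℂ) ^ 2 * (conj (rc f k) * rc h k)) = _ := h1.tsum_eq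
  rw [h2, L2.inner_def]
  refine (integral_ofReal (𝕜 := ℂ) (μ := tm L)
    (f := fun x => inner ℝ (f x : ℝ) (h x : ℝ))).symm.trans ?_
  refine integral_congr_ae (Eventually.of_forall fun x => ?_)
  simp only [Complex.conj_ofReal, RCLike.inner_apply, conj_trivial]
  push_cast
  exact mul_comm _ _

lemma weaklyCont_of {L : ℝ} (hL : 0 < L) {f : ℝ → L2 L} {X : ℝ} (hX : 0 ≤ X)
    (hx : ∀ t, L2le (rc (f t)) X) (hc : ∀ k, Continuous fun t => rc (f t) k) :
    ∀ h : L2 L, Continuous fun t => inner ℝ (f t) h := by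
  intro h
  have h1 := continuous_pair hX hx hc (summable_rc hL h)
  have h2 : Continuous fun t => ((inner ℝ (f t) h : ℝ) : ℂ) := by
    simp_rw [inner_L2_eq hL]
    exact continuous_const.mul h1
  have h3 := Complex.continuous_re.comp h2
  simpa [Function.comp_def] using h3

lemma L2le_rc {L : ℝ} (hL : 0 < L) (f : L2 L) : L2le (rc f) (‖f‖ / L) := by
  intro s
  have h1 := (parseval hL (memLp_ofReal f) (memLp_ofReal f))
  have h2 := inner_L2_eq hL f f
  rw [real_inner_self_eq_norm_sq] at h2
  have e : ∀ k, conj (rc f k) * rc f k = ((‖rc f k‖ ^ 2 : ℝ) : ℂ) := by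
    intro k
    rw [← Complex.normSq_eq_conj_mul_self, Complex.normSq_eq_norm_sq]
  simp_rw [e] at h2
  rw [← Complex.ofReal_tsum] at h2
  have h3 : ‖f‖ ^ 2 = L ^ 2 * ∑' k, ‖rc f k‖ ^ 2 := by exact_mod_cast h2
  have h4 : ∑ p ∈ s, ‖rc f p‖ ^ 2 ≤ ∑' k, ‖rc f k‖ ^ 2 :=
    (summable_rc hL f).sum_le_tsum s (fun _ _ => sq_nonneg _)
  rw [div_pow, le_div_iff₀ (by positivity), h3]
  nlinarith [sq_nonneg L]

end Pool.Agent.Lib.P3e0609
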