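import Pool.Agent.Lib.Brouwer.Brouwer

/-!
A mixed initial value problem for quadratic ODE systems, solved with Brouwer's theorem.
-/

set_option autoImplicit false

open MeasureTheory Set Filter Topology Metric
open scoped RealInnerProductSpace NNReal

namespace Pool.Agent.Lib.P3e0609

variable {E W : Type*} [NormedAddCommGroup E] [InnerProductSpace ℝ E] [FiniteDimensional ℝ E]
  [NormedAddCommGroup W] [InnerProductSpace ℝ W] [FiniteDimensional ℝ W]

/-- Flow of a compactly supported `C¹` vector field on `[-τ, τ]`, starting at time `-τ`. -/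
lemma exists_flow {Y : Type*} [NormedAddCommGroup Y] [NormedSpace ℝ Y] [FiniteDimensional ℝ Y]
    (X : Y → Y) (hX : ContDiff ℝ 1 X) (hXs : HasCompactSupport X) (ρ τ : ℝ) (hτ : 0 < τ)
    (hρ : 0 ≤ ρ) :
    ∃ α : Y → ℝ → Y, (∀ y ∈ closedBall (0 : Y) ρ, α y (-τ) = y ∧
      ∀ t ∈ Icc (-τ) τ, HasDerivWithinAt (α y) (X (α y t)) (Icc (-τ) τ) t) ∧
      ∀ t ∈ Icc (-τ) τ, ContinuousOn (α · t) (closedBall 0 ρ) := by
  have : CompleteSpace Y := FiniteDimensional.complete ℝ Y
  obtain ⟨K, hK⟩ := hX.lipschitzWith_of_hasCompactSupport hXs one_ne_zero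
  obtain ⟨C, hC⟩ := hXs.exists_bound_of_continuous hX.continuous
  have hC0 : 0 ≤ C := (norm_nonneg _).trans (hC 0)
  have hP : IsPicardLindelof (fun _ => X) (tmin := -τ) (tmax := τ)
      ⟨-τ, left_mem_Icc.2 (by linarith)⟩ (0 : Y)
      (⟨ρ + C * (2 * τ), by positivity⟩) ⟨ρ, hρ⟩ ⟨C, hC0⟩ K := by
    refine IsPicardLindelof.of_time_independent (fun x _ => hC x) (hK.lipschitzOnWith) ?_
    simp only [sub_neg_eq_add, sub_self]
    rw [max_eq_left (by linarith)]
    have : τ + τ = 2 * τ := by ring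
    rw [this]
    change C * (2 * τ) ≤ (ρ + C * (2 * τ)) - ρ
    linarith
  obtain ⟨α, h1, L', h2⟩ := hP.exists_forall_mem_closedBall_eq_hasDerivWithinAt_lipschitzOnWith
  exact ⟨α, h1, fun t ht => (h2 t ht).continuousOn⟩

theorem shooting (T : W →L[ℝ] E →L[ℝ] E) (hT : ∀ b a, ⟪T b a, a⟫ = 0)
    (R : W →L[ℝ] W →L[ℝ] W) (hR : ∀ b, ⟪R b b, b⟫ = 0) (A : W →L[ℝ] W) (F : E →L[ℝ] W)
    (r B : ℝ) (hr : 0 ≤ r) (hB : 0 < B)
    (hdiss : ∀ a b, ‖a‖ ≤ r → ‖b‖ = B → ⟪F a - A b, b⟫ < 0)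
    (a₀ : E) (ha₀ : ‖a₀‖ ≤ r) (τ : ℝ) (hτ : 0 < τ) :
    ∃ (a : ℝ → E) (b : ℝ → W), a 0 = a₀ ∧
      (∀ t ∈ Ioo (-τ) τ, HasDerivAt a (T (b t) (a t)) t) ∧
      (∀ t ∈ Ioo (-τ) τ, HasDerivAt b (F (a t) - A (b t) + R (b t) (b t)) t) ∧
      (∀ t ∈ Icc (-τ) τ, ‖a t‖ = ‖a₀‖) ∧ (∀ t ∈ Icc (-τ) τ, ‖b t‖ ≤ B) := by
  classical
  have : CompleteSpace E := FiniteDimensional.complete ℝ E
  -- the extended phase space
  set X : E × W × (E →L[ℝ] E) → E × W × (E →L[ℝ] E) := fun y =>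
    (0, F (y.2.2 y.1) - A y.2.1 + R y.2.1 y.2.1, (T y.2.1).comp y.2.2) with hX
  have hXc : ContDiff ℝ 1 X := by
    have h1 : ContDiff ℝ 1 (fun y : E × W × (E →L[ℝ] E) => y.1) := contDiff_fst
    have h2 : ContDiff ℝ 1 (fun y : E × W × (E →L[ℝ] E) => y.2.1) := contDiff_fst.comp contDiff_snd
    have h3 : ContDiff ℝ 1 (fun y : E × W × (E →L[ℝ] E) => y.2.2) := contDiff_snd.comp contDiff_snd
    refine contDiff_const.prodMk ((((F.contDiff.comp (h3.clm_apply h1)).sub
      (A.contDiff.comp h2)).add ((R.contDiff.comp h2).clm_apply h2)).prodMk ?_)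
    exact (T.contDiff.comp h2).clm_comp h3
  set ρ : ℝ := max r (max B 1) + 1 with hρ
  have hρr : r ≤ ρ := (le_max_left _ _).trans (by linarith)
  have hρB : B ≤ ρ := ((le_max_left _ _).trans (le_max_right _ _)).trans (by linarith)
  have hρ1 : 1 ≤ ρ := ((le_max_right _ _).trans (le_max_right _ _)).trans (by linarith)
  set χ : ContDiffBump (0 : E × W × (E →L[ℝ] E)) := ⟨ρ, ρ + 1, by linarith, by linarith⟩ with hχ
  set Xc : E × W × (E →L[ℝ] E) → E × W × (E →L[ℝ] E) := fun y => χ y • X y with hXc'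
  have hXcc : ContDiff ℝ 1 Xc := χ.contDiff.smul hXc
  have hXcs : HasCompactSupport Xc := χ.hasCompactSupport.smul_right
  obtain ⟨α, hα, hαc⟩ := exists_flow Xc hXcc hXcs ρ τ hτ (by linarith)
  -- analysis of one trajectory
  have key : ∀ ζ : E, ‖ζ‖ ≤ r → ∀ t ∈ Icc (-τ) τ,
      (α (ζ, 0, ContinuousLinearMap.id ℝ E) t).1 = ζ ∧
      (∀ x, ‖(α (ζ, 0, ContinuousLinearMap.id ℝ E) t).2.2 x‖ = ‖x‖) ∧
      ‖(α (ζ, 0, ContinuousLinearMap.id ℝ E) t).2.1‖ ≤ B := by
    intro ζ hζ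
    have hmem : (ζ, (0 : W), ContinuousLinearMap.id ℝ E) ∈ closedBall
        (0 : E × W × (E →L[ℝ] E)) ρ := by
      rw [mem_closedBall_zero_iff]
      refine norm_prod_le_iff.2 ⟨hζ.trans hρr, norm_prod_le_iff.2 ⟨?_, ?_⟩⟩
      · simp; linarith
      · exact ContinuousLinearMap.norm_id_le.trans hρ1
    obtain ⟨h0, hder⟩ := hα _ hmem
    set y := α (ζ, (0 : W), ContinuousLinearMap.id ℝ E) with hy
    have hc : ContinuousOn y (Icc (-τ) τ) := fun t ht => (hder t ht).continuousWithinAt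
    have hder' : ∀ t ∈ Ico (-τ) τ, HasDerivWithinAt y (Xc (y t)) (Ici t) t := by
      intro t ht
      exact (hder t (Ico_subset_Icc_self ht)).mono_of_mem_nhdsWithin
        (Icc_mem_nhdsGE_of_mem ht)
    have hd1 : ∀ t ∈ Ico (-τ) τ, HasDerivWithinAt (fun s => (y s).1) (0 : E) (Ici t) t := by
      intro t ht
      have := (ContinuousLinearMap.fst ℝ E (W × (E →L[ℝ] E))).hasFDerivAt.comp_hasDerivWithinAt t
        (hder' t ht)
      refine this.congr_deriv ?_
      simp [hXc', hX]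
    have hd2 : ∀ t ∈ Ico (-τ) τ, HasDerivWithinAt (fun s => (y s).2.1)
        (χ (y t) • (F ((y t).2.2 (y t).1) - A (y t).2.1 + R (y t).2.1 (y t).2.1)) (Ici t) t := by
      intro t ht
      have := ((ContinuousLinearMap.fst ℝ W (E →L[ℝ] E)).comp
        (ContinuousLinearMap.snd ℝ E (W × (E →L[ℝ] E)))).hasFDerivAt.comp_hasDerivWithinAt t
        (hder' t ht)
      exact this
    have hd3 : ∀ t ∈ Ico (-τ) τ, HasDerivWithinAt (fun s => (y s).2.2)
        (χ (y t) • (T (y t).2.1).comp (y t).2.2) (Ici t) t := by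
      intro t ht
      have := ((ContinuousLinearMap.snd ℝ W (E →L[ℝ] E)).comp
        (ContinuousLinearMap.snd ℝ E (W × (E →L[ℝ] E)))).hasFDerivAt.comp_hasDerivWithinAt t
        (hder' t ht)
      exact this
    -- first component
    have k1 : ∀ t ∈ Icc (-τ) τ, (y t).1 = ζ := by
      intro t ht
      have h1 := constant_of_has_deriv_right_zero (f := fun s => (y s).1)
        (continuous_fst.comp_continuousOn hc) hd1 t ht
      rw [h1]
      simp [h0]
    -- third component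
    have k3 : ∀ t ∈ Icc (-τ) τ, ∀ x, ‖(y t).2.2 x‖ = ‖x‖ := by
      intro t ht x
      have h1 : ∀ s ∈ Ico (-τ) τ, HasDerivWithinAt (fun s => ‖(y s).2.2 x‖ ^ 2) (0 : ℝ) (Ici s) s := by
        intro s hs
        have h2 := (hd3 s hs).clm_apply (hasDerivWithinAt_const s (Ici s) x)
        have h3 := h2.norm_sq
        refine h3.congr_deriv ?_
        have h4 := hT (y s).2.1 ((y s).2.2 x)
        simp only [map_zero, add_zero, smul_apply,
          ContinuousLinearMap.comp_apply, inner_smul_right]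
        rw [real_inner_comm, h4]; simp
      have h2 : ContinuousOn (fun s => ‖(y s).2.2 x‖ ^ 2) (Icc (-τ) τ) := by
        have h3 : ContinuousOn (fun s => (y s).2.2) (Icc (-τ) τ) :=
          (continuous_snd.comp continuous_snd).comp_continuousOn hc
        exact ((h3.clm_apply continuousOn_const).norm).pow 2
      have h3 := constant_of_has_deriv_right_zero h2 h1 t ht
      rw [h0] at h3
      exact (sq_eq_sq₀ (norm_nonneg _) (norm_nonneg _)).1 h3
    refine fun t ht => ⟨k1 t ht, k3 t ht, ?_⟩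
    -- second component
    have h2 : ContinuousOn (fun s => ‖(y s).2.1‖ ^ 2) (Icc (-τ) τ) := by
      have h3 : ContinuousOn (fun s => (y s).2.1) (Icc (-τ) τ) :=
        (continuous_fst.comp continuous_snd).comp_continuousOn hc
      exact h3.norm.pow 2
    have h3 := image_le_of_deriv_right_lt_deriv_boundary (f := fun s => ‖(y s).2.1‖ ^ 2)
      (B := fun _ => B ^ 2) (B' := fun _ => 0) h2 (fun s hs => (hd2 s hs).norm_sq)
      (by simp [h0]; positivity) (fun s => hasDerivAt_const s _)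
      (by
        intro s hs hsB
        have hs' := Ico_subset_Icc_self hs
        have hbB : ‖(y s).2.1‖ = B := (sq_eq_sq₀ (norm_nonneg _) hB.le).1 hsB
        have hU : ‖(y s).2.2 (y s).1‖ ≤ r := by rw [k3 s hs', k1 s hs']; exact hζ
        have hχ1 : χ (y s) = 1 := by
          apply χ.one_of_mem_closedBall
          rw [mem_closedBall_zero_iff]
          refine norm_prod_le_iff.2 ⟨?_, norm_prod_le_iff.2 ⟨?_, ?_⟩⟩
          · rw [k1 s hs']; exact hζ.trans hρr
          · rw [hbB]; exact hρB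
          · refine ContinuousLinearMap.opNorm_le_bound _ (by linarith : (0 : ℝ) ≤ ρ) fun x => ?_
            rw [k3 s hs' x]
            nlinarith [norm_nonneg x]
        rw [hχ1, one_smul]
        have h5 := hdiss _ _ hU hbB
        have h6 := hR (y s).2.1
        rw [inner_add_right, real_inner_comm, real_inner_comm (R (y s).2.1 (y s).2.1)] 
        rw [h6]
        linarith) ht
    exact (sq_le_sq₀ (norm_nonneg _) hB.le).1 h3
  -- the Brouwer map
  have h0mem : (0 : ℝ) ∈ Icc (-τ) τ := ⟨by linarith, hτ.le⟩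
  have hmem : ∀ ζ : E, ‖ζ‖ ≤ r → (ζ, (0 : W), ContinuousLinearMap.id ℝ E) ∈ closedBall
        (0 : E × W × (E →L[ℝ] E)) ρ := by
    intro ζ hζ
    rw [mem_closedBall_zero_iff]
    refine norm_prod_le_iff.2 ⟨hζ.trans hρr, norm_prod_le_iff.2 ⟨?_, ?_⟩⟩
    · simp; linarith
    · exact ContinuousLinearMap.norm_id_le.trans hρ1
  set G : E → E := fun ζ =>
    ContinuousLinearMap.adjoint (α (ζ, 0, ContinuousLinearMap.id ℝ E) 0).2.2 a₀ with hG
  have hGc : ContinuousOn G (closedBall 0 r) := by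
    have h1 : ContinuousOn (fun ζ : E => α (ζ, 0, ContinuousLinearMap.id ℝ E) 0)
        (closedBall 0 r) := by
      refine (hαc 0 h0mem).comp (f := fun ζ : E => (ζ, (0 : W), ContinuousLinearMap.id ℝ E))
        (by fun_prop) ?_
      intro ζ hζ
      exact hmem ζ (by simpa using hζ)
    have h2 : ContinuousOn (fun ζ : E => (α (ζ, 0, ContinuousLinearMap.id ℝ E) 0).2.2)
        (closedBall 0 r) := (continuous_snd.comp continuous_snd).comp_continuousOn h1
    exact ((ContinuousLinearMap.adjoint (𝕜 := ℝ) (E := E) (F := E)).continuous.comp_continuousOn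
      h2).clm_apply continuousOn_const
  have hUn : ∀ ζ : E, ‖ζ‖ ≤ r → ‖(α (ζ, 0, ContinuousLinearMap.id ℝ E) 0).2.2‖ ≤ 1 := by
    intro ζ hζ
    refine ContinuousLinearMap.opNorm_le_bound _ zero_le_one fun x => ?_
    rw [(key ζ hζ 0 h0mem).2.1 x, one_mul]
  obtain ⟨ζ, hζ, hfix⟩ := Pool.Agent.Lib.Brouwer.brouwer_closedBall hr G hGc (by
    intro ζ hζ
    have hζ' : ‖ζ‖ ≤ r := by simpa using hζ
    rw [mem_closedBall_zero_iff, hG]
    simp only
    refine (ContinuousLinearMap.le_opNorm _ _).trans ?_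
    rw [LinearIsometryEquiv.norm_map]
    calc _ ≤ 1 * r := by
          gcongr
          exact hUn ζ hζ'
      _ = r := one_mul r)
  have hζ' : ‖ζ‖ ≤ r := by simpa using hζ
  obtain ⟨hi0, hder⟩ := hα _ (hmem ζ hζ')
  have hkey := key ζ hζ'
  set y := α (ζ, (0 : W), ContinuousLinearMap.id ℝ E) with hy
  have hχ1 : ∀ t ∈ Icc (-τ) τ, χ (y t) = 1 := by
    intro s hs'
    obtain ⟨k1, k3, k2⟩ := hkey s hs'
    apply χ.one_of_mem_closedBall
    rw [mem_closedBall_zero_iff]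
    refine norm_prod_le_iff.2 ⟨?_, norm_prod_le_iff.2 ⟨k2.trans hρB, ?_⟩⟩
    · rw [k1]; exact hζ'.trans hρr
    · refine ContinuousLinearMap.opNorm_le_bound _ (by linarith : (0 : ℝ) ≤ ρ) fun x => ?_
      rw [k3 x]
      nlinarith [norm_nonneg x]
  have hdery : ∀ t ∈ Ioo (-τ) τ, HasDerivAt y (X (y t)) t := by
    intro t ht
    have h1 := (hder t (Ioo_subset_Icc_self ht)).hasDerivAt (Icc_mem_nhds ht.1 ht.2)
    have h2 : Xc (y t) = X (y t) := by
      simp only [hXc']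
      rw [hχ1 t (Ioo_subset_Icc_self ht), one_smul]
    rwa [h2] at h1
  have hU0 : (y 0).2.2 ζ = a₀ := by
    have h1 : ContinuousLinearMap.adjoint (y 0).2.2 ∘L (y 0).2.2 = 1 :=
      (ContinuousLinearMap.norm_map_iff_adjoint_comp_self _).1 (hkey 0 h0mem).2.1
    have h2 : (y 0).2.2 ∘L ContinuousLinearMap.adjoint (y 0).2.2 = 1 := by
      have h3 : ((ContinuousLinearMap.adjoint (y 0).2.2 : E →L[ℝ] E) : E →ₗ[ℝ] E) *
          ((y 0).2.2 : E →ₗ[ℝ] E) = 1 := by
        ext x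
        exact congrArg (fun f : E →L[ℝ] E => f x) h1
      have h4 := (mul_eq_one_comm (M := E →ₗ[ℝ] E)).1 h3
      ext x
      exact congrArg (fun f : E →ₗ[ℝ] E => f x) h4
    have h3 : ContinuousLinearMap.adjoint (y 0).2.2 a₀ = ζ := hfix
    rw [← h3]
    exact congrArg (fun f : E →L[ℝ] E => f a₀) h2
  refine ⟨fun t => (y t).2.2 ζ, fun t => (y t).2.1, hU0, ?_, ?_, ?_, fun t ht => (hkey t ht).2.2⟩
  · intro t ht
    have h1 := ((ContinuousLinearMap.snd ℝ W (E →L[ℝ] E)).comp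
        (ContinuousLinearMap.snd ℝ E (W × (E →L[ℝ] E)))).hasFDerivAt.comp_hasDerivAt t
        (hdery t ht)
    have h2 : HasDerivAt (fun s => (y s).2.2) ((T (y t).2.1).comp (y t).2.2) t := h1
    have h3 := h2.clm_apply (hasDerivAt_const t ζ)
    simpa using h3
  · intro t ht
    have h1 := ((ContinuousLinearMap.fst ℝ W (E →L[ℝ] E)).comp
        (ContinuousLinearMap.snd ℝ E (W × (E →L[ℝ] E)))).hasFDerivAt.comp_hasDerivAt t
        (hdery t ht)
    have h2 : HasDerivAt (fun s => (y s).2.1)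
      (F ((y t).2.2 (y t).1) - A (y t).2.1 + R (y t).2.1 (y t).2.1) t := h1
    rw [(hkey t (Ioo_subset_Icc_self ht)).1] at h2
    exact h2
  · intro t ht
    change ‖(y t).2.2 ζ‖ = ‖a₀‖
    rw [(hkey t ht).2.1, ← (hkey 0 h0mem).2.1 ζ, hU0]

end Pool.Agent.Lib.P3e0609
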