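import Pool.Agent.Lib.P3e0609.Fourier

/-!
Fourier coefficients of test functions.
-/

set_option autoImplicit false

open MeasureTheory Set Filter Topology
open scoped ComplexConjugate ContDiff

namespace Pool.Agent.Lib.P3e0609

/-! ### Spatial integration by parts -/

/-- integral over the cell of a derivative of a periodic function vanishes (first variable) -/
lemma integral_deriv1 {L : ℝ} (hL : 0 < L) (ψ ψ' : ℝ × ℝ → ℂ)
    (hd : ∀ x₁ x₂, HasDerivAt (fun s => ψ (s, x₂)) (ψ' (x₁, x₂)) x₁) (hc : Continuous ψ')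
    (hp : ∀ x₂, ψ (L, x₂) = ψ (0, x₂)) : ∫ x, ψ' x ∂tm L = 0 := by
  have hbox : tm L = volume.restrict (Ioc 0 L ×ˢ Ioc 0 L) := rfl
  have hint : Integrable ψ' ((volume.restrict (Ioc 0 L)).prod (volume.restrict (Ioc 0 L))) := by
    rw [← tm_eq, hbox]
    have h1 : IntegrableOn ψ' (Icc 0 L ×ˢ Icc 0 L) volume :=
      hc.continuousOn.integrableOn_compact (isCompact_Icc.prod isCompact_Icc)
    exact h1.mono_set (prod_mono Ioc_subset_Icc_self Ioc_subset_Icc_self)
  rw [tm_eq, integral_prod_symm _ hint]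
  have : ∀ y, ∫ x in Ioc 0 L, ψ' (x, y) = 0 := by
    intro y
    rw [← intervalIntegral.integral_of_le hL.le,
      intervalIntegral.integral_eq_sub_of_hasDerivAt (fun x _ => hd x y), hp, sub_self]
    exact (hc.comp (by fun_prop : Continuous fun x : ℝ => (x, y))).intervalIntegrable _ _
  simp_rw [this]
  simp

lemma integral_deriv2 {L : ℝ} (hL : 0 < L) (ψ ψ' : ℝ × ℝ → ℂ)
    (hd : ∀ x₁ x₂, HasDerivAt (fun s => ψ (x₁, s)) (ψ' (x₁, x₂)) x₂) (hc : Continuous ψ')
    (hp : ∀ x₁, ψ (x₁, L) = ψ (x₁, 0)) : ∫ x, ψ' x ∂tm L = 0 := by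
  have hbox : tm L = volume.restrict (Ioc 0 L ×ˢ Ioc 0 L) := rfl
  have hint : Integrable ψ' ((volume.restrict (Ioc 0 L)).prod (volume.restrict (Ioc 0 L))) := by
    rw [← tm_eq, hbox]
    have h1 : IntegrableOn ψ' (Icc 0 L ×ˢ Icc 0 L) volume :=
      hc.continuousOn.integrableOn_compact (isCompact_Icc.prod isCompact_Icc)
    exact h1.mono_set (prod_mono Ioc_subset_Icc_self Ioc_subset_Icc_self)
  rw [tm_eq, integral_prod _ hint]
  have : ∀ y, ∫ x in Ioc 0 L, ψ' (y, x) = 0 := by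
    intro y
    rw [← intervalIntegral.integral_of_le hL.le,
      intervalIntegral.integral_eq_sub_of_hasDerivAt (fun x _ => hd y x), hp, sub_self]
    exact (hc.comp (by fun_prop : Continuous fun x : ℝ => (y, x))).intervalIntegrable _ _
  simp_rw [this]
  simp

lemma e1_periodic {L : ℝ} (hL : 0 < L) (n : ℤ) : e1 L n L = e1 L n 0 := by
  unfold e1
  have h1 : (Complex.I * ((2 * Real.pi / L * (n * L) : ℝ) : ℂ)) = n * (2 * Real.pi * Complex.I) := by
    have : (L : ℂ) ≠ 0 := by exact_mod_cast hL.ne'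
    push_cast
    field_simp
  rw [h1, Complex.exp_int_mul_two_pi_mul_I]
  simp

lemma hasDerivAt_e1 (L : ℝ) (n : ℤ) (x : ℝ) :
    HasDerivAt (e1 L n) (Complex.I * (2 * Real.pi / L * n : ℝ) * e1 L n x) x := by
  unfold e1
  have h1 : HasDerivAt (fun x : ℝ => (Complex.I * ((2 * Real.pi / L * (n * x) : ℝ) : ℂ)))
      (Complex.I * (2 * Real.pi / L * n : ℝ)) x := by
    have h2 : HasDerivAt (fun x : ℝ => (2 * Real.pi / L * (n * x) : ℝ)) (2 * Real.pi / L * (n * 1)) x :=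
      ((hasDerivAt_id x).const_mul (n : ℝ)).const_mul _
    rw [mul_one] at h2
    exact h2.ofReal_comp.const_mul Complex.I
  have h2 := h1.cexp
  refine h2.congr_deriv ?_
  ring

lemma fourierC_d1 {L : ℝ} (hL : 0 < L) {ψ : ℝ × ℝ → ℝ} (h : SmoothPer L ψ) (k : Z2) :
    fourierC L (fun x => ((fderiv ℝ ψ x (1, 0) : ℝ) : ℂ)) k =
      Complex.I * (2 * Real.pi / L * k.1 : ℝ) * fourierC L (fun x => (ψ x : ℂ)) k := by
  have hψc : Continuous ψ := h.1.continuous
  have hψ' : Continuous fun x => fderiv ℝ ψ x (1, 0) :=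
    (h.1.continuous_fderiv (by simp)).clm_apply continuous_const
  have hder : ∀ x₁ x₂, HasDerivAt (fun s => ψ (s, x₂)) (fderiv ℝ ψ (x₁, x₂) (1, 0)) x₁ := by
    intro x₁ x₂
    have h1 : HasFDerivAt ψ (fderiv ℝ ψ (x₁, x₂)) (x₁, x₂) :=
      (h.1.differentiable (by simp) _).hasFDerivAt
    have h2 : HasDerivAt (fun s : ℝ => (s, x₂)) ((1 : ℝ), (0 : ℝ)) x₁ :=
      (hasDerivAt_id x₁).prodMk (hasDerivAt_const x₁ x₂)
    exact h1.comp_hasDerivAt x₁ h2
  have key := integral_deriv1 hL (fun x => (ψ x : ℂ) * ek L (-k) x)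
    (fun x => ((fderiv ℝ ψ x (1, 0) : ℝ) : ℂ) * ek L (-k) x +
      (ψ x : ℂ) * (Complex.I * (2 * Real.pi / L * (-k).1 : ℝ) * ek L (-k) x))
    (by
      intro x₁ x₂
      have h1 := (hder x₁ x₂).ofReal_comp
      have h2 := (hasDerivAt_e1 L (-k).1 x₁).mul_const (e1 L (-k).2 x₂)
      have h3 := h1.mul h2
      have e : (fun s : ℝ => (ψ (s, x₂) : ℂ) * ek L (-k) (s, x₂)) =
        fun s : ℝ => (ψ (s, x₂) : ℂ) * (e1 L (-k).1 s * e1 L (-k).2 x₂) := by
        funext s; rw [ek_eq]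
      rw [e]
      refine h3.congr_deriv ?_
      simp only [ek_eq]
      push_cast
      ring)
    (by
      have := continuous_ek L (-k)
      have h1 : Continuous fun x => ((fderiv ℝ ψ x (1, 0) : ℝ) : ℂ) :=
        Complex.continuous_ofReal.comp hψ'
      have h2 : Continuous fun x => ((ψ x : ℝ) : ℂ) := Complex.continuous_ofReal.comp hψc
      fun_prop)
    (by
      intro x₂
      have h1 := (h.2 0 x₂).1
      rw [zero_add] at h1
      simp only [ek_eq, h1, e1_periodic hL])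
  have hi1 : Integrable (fun x => ((fderiv ℝ ψ x (1, 0) : ℝ) : ℂ) * ek L (-k) x) (tm L) := by
    have hc : Continuous (fun x => ((fderiv ℝ ψ x (1, 0) : ℝ) : ℂ) * ek L (-k) x) :=
      (Complex.continuous_ofReal.comp hψ').mul (continuous_ek L (-k))
    have h1 : IntegrableOn _ (Icc 0 L ×ˢ Icc 0 L) volume :=
      hc.continuousOn.integrableOn_compact (isCompact_Icc.prod isCompact_Icc)
    exact h1.mono_set (prod_mono Ioc_subset_Icc_self Ioc_subset_Icc_self)
  have hi2 : Integrable (fun x => (ψ x : ℂ) *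
      (Complex.I * (2 * Real.pi / L * (-k).1 : ℝ) * ek L (-k) x)) (tm L) := by
    have hc : Continuous (fun x => (ψ x : ℂ) *
      (Complex.I * (2 * Real.pi / L * (-k).1 : ℝ) * ek L (-k) x)) :=
      (Complex.continuous_ofReal.comp hψc).mul (continuous_const.mul (continuous_ek L (-k)))
    have h1 : IntegrableOn _ (Icc 0 L ×ˢ Icc 0 L) volume :=
      hc.continuousOn.integrableOn_compact (isCompact_Icc.prod isCompact_Icc)
    exact h1.mono_set (prod_mono Ioc_subset_Icc_self Ioc_subset_Icc_self)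
  rw [integral_add hi1 hi2] at key
  have e3 : ∫ x, (ψ x : ℂ) * (Complex.I * (2 * Real.pi / L * (-k).1 : ℝ) * ek L (-k) x) ∂tm L =
      -(Complex.I * (2 * Real.pi / L * k.1 : ℝ)) * ∫ x, (ψ x : ℂ) * ek L (-k) x ∂tm L := by
    rw [← integral_const_mul]
    congr 1
    funext x
    simp only [Prod.fst_neg]
    push_cast
    ring
  rw [e3] at key
  rw [fourierC_eq, fourierC_eq]
  linear_combination ((1 / L ^ 2 : ℝ) : ℂ) * key

lemma fourierC_d2 {L : ℝ} (hL : 0 < L) {ψ : ℝ × ℝ → ℝ} (h : SmoothPer L ψ) (k : Z2) :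
    fourierC L (fun x => ((fderiv ℝ ψ x (0, 1) : ℝ) : ℂ)) k =
      Complex.I * (2 * Real.pi / L * k.2 : ℝ) * fourierC L (fun x => (ψ x : ℂ)) k := by
  have hψc : Continuous ψ := h.1.continuous
  have hψ' : Continuous fun x => fderiv ℝ ψ x (0, 1) :=
    (h.1.continuous_fderiv (by simp)).clm_apply continuous_const
  have hder : ∀ x₁ x₂, HasDerivAt (fun s => ψ (x₁, s)) (fderiv ℝ ψ (x₁, x₂) (0, 1)) x₂ := by
    intro x₁ x₂
    have h1 : HasFDerivAt ψ (fderiv ℝ ψ (x₁, x₂)) (x₁, x₂) :=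
      (h.1.differentiable (by simp) _).hasFDerivAt
    have h2 : HasDerivAt (fun s : ℝ => (x₁, s)) ((0 : ℝ), (1 : ℝ)) x₂ :=
      (hasDerivAt_const x₂ x₁).prodMk (hasDerivAt_id x₂)
    exact h1.comp_hasDerivAt x₂ h2
  have key := integral_deriv2 hL (fun x => (ψ x : ℂ) * ek L (-k) x)
    (fun x => ((fderiv ℝ ψ x (0, 1) : ℝ) : ℂ) * ek L (-k) x +
      (ψ x : ℂ) * (Complex.I * (2 * Real.pi / L * (-k).2 : ℝ) * ek L (-k) x))
    (by
      intro x₁ x₂
      have h1 := (hder x₁ x₂).ofReal_comp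
      have h2 := (hasDerivAt_e1 L (-k).2 x₂).const_mul (e1 L (-k).1 x₁)
      have h3 := h1.mul h2
      have e : (fun s : ℝ => (ψ (x₁, s) : ℂ) * ek L (-k) (x₁, s)) =
        fun s : ℝ => (ψ (x₁, s) : ℂ) * (e1 L (-k).1 x₁ * e1 L (-k).2 s) := by
        funext s; rw [ek_eq]
      rw [e]
      refine h3.congr_deriv ?_
      simp only [ek_eq]
      push_cast
      ring)
    (by
      have := continuous_ek L (-k)
      have h1 : Continuous fun x => ((fderiv ℝ ψ x (0, 1) : ℝ) : ℂ) :=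
        Complex.continuous_ofReal.comp hψ'
      have h2 : Continuous fun x => ((ψ x : ℝ) : ℂ) := Complex.continuous_ofReal.comp hψc
      fun_prop)
    (by
      intro x₁
      have h1 := (h.2 x₁ 0).2
      rw [zero_add] at h1
      simp only [ek_eq, h1, e1_periodic hL])
  have hi1 : Integrable (fun x => ((fderiv ℝ ψ x (0, 1) : ℝ) : ℂ) * ek L (-k) x) (tm L) := by
    have hc : Continuous (fun x => ((fderiv ℝ ψ x (0, 1) : ℝ) : ℂ) * ek L (-k) x) :=
      (Complex.continuous_ofReal.comp hψ').mul (continuous_ek L (-k))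
    have h1 : IntegrableOn _ (Icc 0 L ×ˢ Icc 0 L) volume :=
      hc.continuousOn.integrableOn_compact (isCompact_Icc.prod isCompact_Icc)
    exact h1.mono_set (prod_mono Ioc_subset_Icc_self Ioc_subset_Icc_self)
  have hi2 : Integrable (fun x => (ψ x : ℂ) *
      (Complex.I * (2 * Real.pi / L * (-k).2 : ℝ) * ek L (-k) x)) (tm L) := by
    have hc : Continuous (fun x => (ψ x : ℂ) *
      (Complex.I * (2 * Real.pi / L * (-k).2 : ℝ) * ek L (-k) x)) :=
      (Complex.continuous_ofReal.comp hψc).mul (continuous_const.mul (continuous_ek L (-k)))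
    have h1 : IntegrableOn _ (Icc 0 L ×ˢ Icc 0 L) volume :=
      hc.continuousOn.integrableOn_compact (isCompact_Icc.prod isCompact_Icc)
    exact h1.mono_set (prod_mono Ioc_subset_Icc_self Ioc_subset_Icc_self)
  rw [integral_add hi1 hi2] at key
  have e3 : ∫ x, (ψ x : ℂ) * (Complex.I * (2 * Real.pi / L * (-k).2 : ℝ) * ek L (-k) x) ∂tm L =
      -(Complex.I * (2 * Real.pi / L * k.2 : ℝ)) * ∫ x, (ψ x : ℂ) * ek L (-k) x ∂tm L := by
    rw [← integral_const_mul]
    congr 1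
    funext x
    simp only [Prod.snd_neg]
    push_cast
    ring
  rw [e3] at key
  rw [fourierC_eq, fourierC_eq]
  linear_combination ((1 / L ^ 2 : ℝ) : ℂ) * key

/-! ### Test functions -/

lemma IsTest.dir {L : ℝ} {φ : ℝ × ℝ × ℝ → ℝ} (h : IsTest L φ) (v : ℝ × ℝ × ℝ) :
    IsTest L (fun z => fderiv ℝ φ z v) := by
  obtain ⟨h1, h2, T, h3⟩ := h
  refine ⟨?_, ?_, T + 1, ?_⟩
  · exact (h1.fderiv_right (m := ∞) (by simp)).clm_apply contDiff_const
  · intro t x₁ x₂
    constructor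
    · have e : (fun z : ℝ × ℝ × ℝ => φ (z + (0, L, 0))) = φ := by
        funext z
        obtain ⟨a, b, c⟩ := z
        simpa using (h2 a b c).1
      have := fderiv_comp_add_right (f := φ) (x := (t, x₁, x₂)) (𝕜 := ℝ) (0, L, 0)
      rw [e] at this
      simp only [Prod.mk_add_mk, add_zero] at this
      exact congrArg (fun A : ℝ × ℝ × ℝ →L[ℝ] ℝ => A v) this.symm
    · have e : (fun z : ℝ × ℝ × ℝ => φ (z + (0, 0, L))) = φ := by
        funext z
        obtain ⟨a, b, c⟩ := z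
        simpa using (h2 a b c).2
      have := fderiv_comp_add_right (f := φ) (x := (t, x₁, x₂)) (𝕜 := ℝ) (0, 0, L)
      rw [e] at this
      simp only [Prod.mk_add_mk, add_zero] at this
      exact congrArg (fun A : ℝ × ℝ × ℝ →L[ℝ] ℝ => A v) this.symm
  · intro t x₁ x₂ ht
    have h4 : φ =ᶠ[𝓝 (t, x₁, x₂)] fun _ => 0 := by
      have h5 : ∀ᶠ z : ℝ × ℝ × ℝ in 𝓝 (t, x₁, x₂), T < |z.1| := by
        have hc : Continuous fun z : ℝ × ℝ × ℝ => |z.1| := by fun_prop
        exact hc.continuousAt.eventually (lt_mem_nhds (by simp only; linarith))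
      filter_upwards [h5] with z hz
      exact h3 z.1 z.2.1 z.2.2 hz.le
    change fderiv ℝ φ (t, x₁, x₂) v = 0
    rw [h4.fderiv_eq]
    simp

lemma IsTest.dt {L : ℝ} {φ : ℝ × ℝ × ℝ → ℝ} (h : IsTest L φ) : IsTest L (P3e0609.dt φ) := h.dir _
lemma IsTest.d1 {L : ℝ} {φ : ℝ × ℝ × ℝ → ℝ} (h : IsTest L φ) : IsTest L (P3e0609.d1 φ) := h.dir _
lemma IsTest.d2 {L : ℝ} {φ : ℝ × ℝ × ℝ → ℝ} (h : IsTest L φ) : IsTest L (P3e0609.d2 φ) := h.dir _

lemma IsTest.sub {L : ℝ} {φ ψ : ℝ × ℝ × ℝ → ℝ} (h : IsTest L φ) (h' : IsTest L ψ) :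
    IsTest L (fun z => φ z - ψ z) := by
  obtain ⟨h1, h2, T, h3⟩ := h
  obtain ⟨h1', h2', T', h3'⟩ := h'
  refine ⟨h1.sub h1', fun t x₁ x₂ => ?_, max T T', fun t x₁ x₂ ht => ?_⟩
  · simp only [(h2 t x₁ x₂).1, (h2 t x₁ x₂).2, (h2' t x₁ x₂).1, (h2' t x₁ x₂).2, and_self]
  · simp only [h3 t x₁ x₂ ((le_max_left _ _).trans ht), h3' t x₁ x₂ ((le_max_right _ _).trans ht),
      sub_self]

lemma IsTest.slice {L : ℝ} {φ : ℝ × ℝ × ℝ → ℝ} (h : IsTest L φ) (t : ℝ) :
    SmoothPer L (fun x => φ (t, x)) := by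
  refine ⟨h.1.comp (by fun_prop), fun x₁ x₂ => h.2.1 t x₁ x₂⟩

lemma fderiv_slice {L : ℝ} {φ : ℝ × ℝ × ℝ → ℝ} (h : IsTest L φ) (t : ℝ) (x v : ℝ × ℝ) :
    fderiv ℝ (fun x => φ (t, x)) x v = fderiv ℝ φ (t, x) (0, v) := by
  have h1 : HasFDerivAt φ (fderiv ℝ φ (t, x)) (t, x) :=
    (h.1.differentiable (by simp) _).hasFDerivAt
  have h2 : HasFDerivAt (fun x : ℝ × ℝ => (t, x)) (ContinuousLinearMap.inr ℝ ℝ (ℝ × ℝ)) x := by
    exact hasFDerivAt_prodMk_right t x
  have h3 := h1.comp x h2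
  have h4 : fderiv ℝ (fun x => φ (t, x)) x = (fderiv ℝ φ (t, x)).comp
    (ContinuousLinearMap.inr ℝ ℝ (ℝ × ℝ)) := h3.fderiv
  rw [h4]
  simp

/-- Spatial Fourier coefficients of a test function. -/
noncomputable def tc (L : ℝ) (φ : ℝ × ℝ × ℝ → ℝ) (k : Z2) (t : ℝ) : ℂ :=
  fourierC L (fun x => ((φ (t, x) : ℝ) : ℂ)) k

lemma tc_d1 {L : ℝ} (hL : 0 < L) {φ : ℝ × ℝ × ℝ → ℝ} (h : IsTest L φ) (k : Z2) (t : ℝ) :
    tc L (d1 φ) k t = Complex.I * (2 * Real.pi / L * k.1 : ℝ) * tc L φ k t := by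
  unfold tc
  rw [← fourierC_d1 hL (h.slice t)]
  congr 1
  funext x
  rw [fderiv_slice h]
  rfl

lemma tc_d2 {L : ℝ} (hL : 0 < L) {φ : ℝ × ℝ × ℝ → ℝ} (h : IsTest L φ) (k : Z2) (t : ℝ) :
    tc L (d2 φ) k t = Complex.I * (2 * Real.pi / L * k.2 : ℝ) * tc L φ k t := by
  unfold tc
  rw [← fourierC_d2 hL (h.slice t)]
  congr 1
  funext x
  rw [fderiv_slice h]
  rfl

/-- uniform bound on the cell -/
lemma IsTest.bound {L : ℝ} {φ : ℝ × ℝ × ℝ → ℝ} (h : IsTest L φ) :
    ∃ C : ℝ, 0 ≤ C ∧ ∀ t x, x ∈ cell L → |φ (t, x)| ≤ C := by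
  obtain ⟨h1, h2, T, h3⟩ := h
  obtain ⟨C, hC⟩ := ((isCompact_Icc (a := -T) (b := T)).prod
    ((isCompact_Icc (a := (0 : ℝ)) (b := L)).prod
      (isCompact_Icc (a := (0 : ℝ)) (b := L)))).exists_bound_of_continuousOn h1.continuous.continuousOn
  refine ⟨max C 0, le_max_right _ _, fun t x hx => ?_⟩
  by_cases ht : T ≤ |t|
  · rw [h3 t x.1 x.2 ht, abs_zero]; exact le_max_right _ _
  · push Not at ht
    refine le_trans ?_ (le_max_left _ _)
    refine hC (t, x) ⟨⟨(abs_lt.1 ht).1.le, (abs_lt.1 ht).2.le⟩, ?_⟩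
    exact ⟨Ioc_subset_Icc_self hx.1, Ioc_subset_Icc_self hx.2⟩

lemma ae_cell (L : ℝ) : ∀ᵐ x ∂tm L, x ∈ cell L :=
  ae_restrict_mem (measurableSet_Ioc.prod measurableSet_Ioc)

lemma tm_univ {L : ℝ} (hL : 0 < L) : (tm L).real univ = L ^ 2 := by
  rw [tm, measureReal_restrict_apply_univ, cell, Measure.real, Measure.volume_eq_prod,
    Measure.prod_prod, Real.volume_Ioc, sub_zero, ENNReal.toReal_mul, ENNReal.toReal_ofReal hL.le, sq]

lemma norm_fourierC_le {L : ℝ} (hL : 0 < L) {F : ℝ × ℝ → ℂ} {C : ℝ}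
    (hF : ∀ x ∈ cell L, ‖F x‖ ≤ C) (k : Z2) : ‖fourierC L F k‖ ≤ C := by
  rw [fourierC_eq, norm_mul, Complex.norm_real, Real.norm_eq_abs, abs_of_pos (by positivity)]
  have h1 : ‖∫ x, F x * ek L (-k) x ∂tm L‖ ≤ C * (tm L).real univ := by
    apply norm_integral_le_of_norm_le_const
    filter_upwards [ae_cell L] with x hx
    rw [norm_mul, norm_ek, mul_one]
    exact hF x hx
  rw [tm_univ hL] at h1
  calc 1 / L ^ 2 * ‖∫ x, F x * ek L (-k) x ∂tm L‖ ≤ 1 / L ^ 2 * (C * L ^ 2) := by gcongr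
    _ = C := by field_simp

lemma IsTest.bound_tc {L : ℝ} (hL : 0 < L) {φ : ℝ × ℝ × ℝ → ℝ} (h : IsTest L φ) :
    ∃ C : ℝ, 0 ≤ C ∧ ∀ k t, ‖tc L φ k t‖ ≤ C := by
  obtain ⟨C, hC0, hC⟩ := h.bound
  refine ⟨C, hC0, fun k t => norm_fourierC_le hL (fun x hx => ?_) k⟩
  rw [Complex.norm_real, Real.norm_eq_abs]
  exact hC t x hx

lemma IsTest.tc_zero {L : ℝ} {φ : ℝ × ℝ × ℝ → ℝ} (h : IsTest L φ) :
    ∃ T : ℝ, 0 ≤ T ∧ ∀ k t, T ≤ |t| → tc L φ k t = 0 := by
  obtain ⟨h1, h2, T, h3⟩ := h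
  refine ⟨max T 0, le_max_right _ _, fun k t ht => ?_⟩
  unfold tc fourierC
  have : ∀ x : ℝ × ℝ, φ (t, x) = 0 := fun x => h3 t x.1 x.2 ((le_max_left _ _).trans ht)
  simp [this]

lemma integrable_cont {L : ℝ} {F : ℝ × ℝ → ℂ} (hF : Continuous F) : Integrable F (tm L) := by
  have h1 : IntegrableOn F (Icc 0 L ×ˢ Icc 0 L) volume :=
    hF.continuousOn.integrableOn_compact (isCompact_Icc.prod isCompact_Icc)
  exact h1.mono_set (prod_mono Ioc_subset_Icc_self Ioc_subset_Icc_self)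

lemma hasDerivAt_tc {L : ℝ} {φ : ℝ × ℝ × ℝ → ℝ} (h : IsTest L φ) (k : Z2) (t : ℝ) :
    HasDerivAt (tc L φ k) (tc L (dt φ) k t) t := by
  obtain ⟨C, hC0, hC⟩ := h.dt.bound
  have hcont : ∀ s, Continuous fun x : ℝ × ℝ => ((φ (s, x) : ℝ) : ℂ) * ek L (-k) x := fun s =>
    (Complex.continuous_ofReal.comp (h.1.continuous.comp (by fun_prop))).mul (continuous_ek L (-k))
  have hcont' : ∀ s, Continuous fun x : ℝ × ℝ => ((dt φ (s, x) : ℝ) : ℂ) * ek L (-k) x := fun s =>
    (Complex.continuous_ofReal.comp (h.dt.1.continuous.comp (by fun_prop))).mul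
      (continuous_ek L (-k))
  have key := hasDerivAt_integral_of_dominated_loc_of_deriv_le (μ := tm L)
    (F := fun s x => ((φ (s, x) : ℝ) : ℂ) * ek L (-k) x)
    (F' := fun s x => ((dt φ (s, x) : ℝ) : ℂ) * ek L (-k) x) (x₀ := t) (bound := fun _ => C)
    (s := univ) univ_mem
    (Eventually.of_forall fun s => (hcont s).aestronglyMeasurable) (integrable_cont (hcont t))
    (hcont' t).aestronglyMeasurable
    (by
      filter_upwards [ae_cell L] with x hx s _
      rw [norm_mul, norm_ek, mul_one, Complex.norm_real, Real.norm_eq_abs]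
      exact hC s x hx)
    (integrable_const _)
    (by
      refine Eventually.of_forall fun x s _ => ?_
      have h1 : HasFDerivAt φ (fderiv ℝ φ (s, x)) (s, x) :=
        (h.1.differentiable (by simp) _).hasFDerivAt
      have h2 : HasDerivAt (fun s : ℝ => (s, x)) ((1 : ℝ), (0 : ℝ × ℝ)) s :=
        (hasDerivAt_id s).prodMk (hasDerivAt_const s x)
      have h3 := h1.comp_hasDerivAt s h2
      exact h3.ofReal_comp.mul_const _)
  have h2 := key.2.const_mul (((1 / L ^ 2 : ℝ) : ℂ))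
  have e : tc L φ k = fun s => ((1 / L ^ 2 : ℝ) : ℂ) * ∫ x, ((φ (s, x) : ℝ) : ℂ) * ek L (-k) x ∂tm L := by
    funext s
    rw [tc, fourierC_eq]
  rw [e]
  refine h2.congr_deriv ?_
  rw [tc, fourierC_eq]

lemma tc_sub {L : ℝ} {φ ψ : ℝ × ℝ × ℝ → ℝ} (h : IsTest L φ) (h' : IsTest L ψ) (k : Z2) (t : ℝ) :
    tc L (fun z => φ z - ψ z) k t = tc L φ k t - tc L ψ k t := by
  unfold tc
  rw [fourierC_eq, fourierC_eq, fourierC_eq, ← mul_sub, ← integral_sub]
  · congr 2
    funext x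
    push_cast
    ring
  · exact integrable_cont ((Complex.continuous_ofReal.comp (h.1.continuous.comp (by fun_prop))).mul
      (continuous_ek L (-k)))
  · exact integrable_cont ((Complex.continuous_ofReal.comp (h'.1.continuous.comp (by fun_prop))).mul
      (continuous_ek L (-k)))

/-- `(1 - ∂₁²)(1 - ∂₂²) φ` -/
noncomputable def PP (φ : ℝ × ℝ × ℝ → ℝ) : ℝ × ℝ × ℝ → ℝ :=
  fun z => (fun z => φ z - d1 (d1 φ) z) z - d2 (d2 (fun z => φ z - d1 (d1 φ) z)) z

lemma IsTest.PP {L : ℝ} {φ : ℝ × ℝ × ℝ → ℝ} (h : IsTest L φ) : IsTest L (P3e0609.PP φ) :=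
  (h.sub h.d1.d1).sub (h.sub h.d1.d1).d2.d2

/-- The weight `(1 + κ²k₁²)(1 + κ²k₂²)`. -/
noncomputable def WW (L : ℝ) (k : Z2) : ℝ :=
  (1 + (2 * Real.pi / L * k.1) ^ 2) * (1 + (2 * Real.pi / L * k.2) ^ 2)

lemma WW_ge_one (L : ℝ) (k : Z2) : 1 ≤ WW L k := by
  unfold WW
  nlinarith [sq_nonneg (2 * Real.pi / L * k.1), sq_nonneg (2 * Real.pi / L * k.2),
    mul_nonneg (sq_nonneg (2 * Real.pi / L * k.1)) (sq_nonneg (2 * Real.pi / L * k.2))]

lemma WW_ge (L : ℝ) (k : Z2) : (2 * Real.pi / L) ^ 2 * nsq k ≤ WW L k := by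
  unfold WW nsq
  nlinarith [sq_nonneg (2 * Real.pi / L * k.1), sq_nonneg (2 * Real.pi / L * k.2),
    mul_nonneg (sq_nonneg (2 * Real.pi / L * k.1)) (sq_nonneg (2 * Real.pi / L * k.2))]

lemma tc_PP {L : ℝ} (hL : 0 < L) {φ : ℝ × ℝ × ℝ → ℝ} (h : IsTest L φ) (k : Z2) (t : ℝ) :
    tc L (PP φ) k t = WW L k * tc L φ k t := by
  unfold PP
  rw [tc_sub (h.sub h.d1.d1) (h.sub h.d1.d1).d2.d2, tc_d2 hL (h.sub h.d1.d1).d2,
    tc_d2 hL (h.sub h.d1.d1), tc_sub h h.d1.d1, tc_d1 hL h.d1, tc_d1 hL h]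
  unfold WW
  push_cast
  have hI : Complex.I ^ 2 = -1 := Complex.I_sq
  ring_nf
  rw [show Complex.I ^ 4 = 1 by rw [show (4 : ℕ) = 2 * 2 by norm_num, pow_mul, hI]; norm_num, hI]
  ring

lemma IsTest.decay {L : ℝ} (hL : 0 < L) {φ : ℝ × ℝ × ℝ → ℝ} (h : IsTest L φ) :
    ∃ C : ℝ, 0 ≤ C ∧ ∀ k t, ‖tc L φ k t‖ ≤ C / WW L k ^ 2 := by
  obtain ⟨C, hC0, hC⟩ := h.PP.PP.bound_tc hL
  refine ⟨C, hC0, fun k t => ?_⟩
  have h1 := hC k t
  rw [tc_PP hL h.PP, tc_PP hL h] at h1
  have hW : 0 < WW L k := one_pos.trans_le (WW_ge_one L k)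
  rw [norm_mul, norm_mul, Complex.norm_real, Real.norm_eq_abs, abs_of_pos hW] at h1
  rw [le_div_iff₀ (by positivity)]
  calc ‖tc L φ k t‖ * WW L k ^ 2 = WW L k * (WW L k * ‖tc L φ k t‖) := by ring
    _ ≤ C := h1

lemma summable_WW {L : ℝ} (hL : 0 < L) : Summable fun k : Z2 => 1 / WW L k := by
  have hκ : 0 < 2 * Real.pi / L := by have := Real.pi_pos; positivity
  have h1 : Summable fun n : ℤ => 1 / (1 + (2 * Real.pi / L * n) ^ 2) := by
    have h2 : Summable fun n : ℤ => 1 / (2 * Real.pi / L) ^ 2 * (1 / (n : ℝ) ^ 2) +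
        (if n = 0 then 1 else 0) := by
      refine ((Real.summable_one_div_int_pow.2 (by norm_num)).mul_left _).add ?_
      exact summable_of_hasFiniteSupport (by
        refine (Set.finite_singleton (0 : ℤ)).subset ?_
        intro n hn
        simp only [Function.mem_support, ne_eq, ite_eq_right_iff, one_ne_zero, imp_false,
          not_not] at hn
        simp [hn])
    refine Summable.of_nonneg_of_le (fun n => by positivity) (fun n => ?_) h2
    by_cases hn : n = 0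
    · subst hn; simp
    · have hn' : (n : ℝ) ≠ 0 := by exact_mod_cast hn
      simp only [hn, if_false, add_zero]
      rw [one_div_mul_one_div, ← mul_pow]
      have : 0 < (2 * Real.pi / L * n) ^ 2 := by positivity
      gcongr
      linarith
  have h2 := h1.mul_of_nonneg h1 (fun n => by positivity) (fun n => by positivity)
  refine h2.congr fun k => ?_
  unfold WW
  rw [one_div_mul_one_div]

/-- Pointwise Fourier series. -/
lemma hasSum_slice {L : ℝ} (hL : 0 < L) {ψ : ℝ × ℝ → ℂ} (hψ : MemLp ψ 2 (tm L))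
    (hs : Summable fun k => ‖fourierC L ψ k‖) :
    ∀ᵐ x ∂tm L, HasSum (fun k => fourierC L ψ k * ek L k x) (ψ x) := by
  set S : ℝ × ℝ → ℂ := fun x => ∑' k, fourierC L ψ k * ek L k x with hS
  have hb : ∀ k x, ‖fourierC L ψ k * ek L k x‖ ≤ ‖fourierC L ψ k‖ := by
    intro k x
    rw [norm_mul, norm_ek, mul_one]
  have hSc : Continuous S :=
    continuous_tsum (fun k => continuous_const.mul (continuous_ek L k)) hs hb
  have hsum : ∀ x, HasSum (fun k => fourierC L ψ k * ek L k x) (S x) := fun x =>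
    (Summable.of_norm_bounded hs (fun k => hb k x)).hasSum
  have hSl : MemLp S 2 (tm L) := by
    refine MemLp.of_bound hSc.aestronglyMeasurable (∑' k, ‖fourierC L ψ k‖) ?_
    refine Eventually.of_forall fun x => ?_
    exact tsum_of_norm_bounded hs.hasSum (fun k => hb k x)
  have hcoef : ∀ l, ∫ x, S x * ek L l x ∂tm L = ∫ x, ψ x * ek L l x ∂tm L := by
    intro l
    have h1 := hasSum_integral_of_summable_integral_norm (μ := tm L)
      (F := fun k x => fourierC L ψ k * ek L k x * ek L l x)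
      (fun k => integrable_cont ((continuous_const.mul (continuous_ek L k)).mul (continuous_ek L l)))
      (by
        have e : (fun k => ∫ x, ‖fourierC L ψ k * ek L k x * ek L l x‖ ∂tm L) =
            fun k => L ^ 2 * ‖fourierC L ψ k‖ := by
          funext k
          simp only [norm_mul, norm_ek, mul_one]
          rw [integral_const, tm_univ hL, smul_eq_mul]
        rw [e]
        exact hs.mul_left _)
    have e1 : ∀ x, ∑' k, fourierC L ψ k * ek L k x * ek L l x = S x * ek L l x := by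
      intro x
      rw [tsum_mul_right]
    simp_rw [e1] at h1
    have e2 : ∀ k, ∫ x, fourierC L ψ k * ek L k x * ek L l x ∂tm L =
        if k = -l then (L : ℂ) ^ 2 * fourierC L ψ (-l) else 0 := by
      intro k
      have : ∀ x, fourierC L ψ k * ek L k x * ek L l x = fourierC L ψ k * ek L (k + l) x := by
        intro x; rw [ek_add]; ring
      simp_rw [this]
      rw [integral_const_mul, integral_ek hL]
      by_cases hk : k = -l
      · subst hk; simp; ring
      · have : k + l ≠ 0 := fun h => hk (eq_neg_of_add_eq_zero_left h)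
        simp [hk, this]
    simp_rw [e2] at h1
    have h2 := h1.unique (hasSum_ite_eq (-l) _)
    rw [h2, fourierC_eq, neg_neg]
    have : (L : ℂ) ≠ 0 := by exact_mod_cast hL.ne'
    push_cast
    field_simp
  have h3 : (fun x => ψ x - S x) =ᵐ[tm L] 0 := by
    apply complete2 hL (hψ.sub hSl)
    intro k
    change ∫ x, (ψ x - S x) * ek L k x ∂tm L = 0
    simp_rw [sub_mul]
    rw [integral_sub, hcoef, sub_self]
    · refine (hψ.integrable (by norm_num)).mul_bdd (c := 1)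
        (continuous_ek L _).aestronglyMeasurable ?_
      exact Eventually.of_forall fun z => (norm_ek L _ z).le
    · exact integrable_cont (hSc.mul (continuous_ek L k))
  filter_upwards [h3] with x hx
  have : ψ x = S x := sub_eq_zero.1 hx
  rw [this]
  exact hsum x

/-- Pairing of an integrable function with a function having absolutely summable coefficients. -/
lemma pairing {L : ℝ} (hL : 0 < L) {ψ : ℝ × ℝ → ℂ} (hψ : MemLp ψ 2 (tm L))
    (hs : Summable fun k => ‖fourierC L ψ k‖) {w : ℝ × ℝ → ℝ} (hw : Integrable w (tm L)) :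
    HasSum (fun k => (L : ℂ) ^ 2 * (conj (fourierC L (fun x => (w x : ℂ)) k) * fourierC L ψ k))
      (∫ x, (w x : ℂ) * ψ x ∂tm L) := by
  have hwi : ∀ k, Integrable (fun x => (w x : ℂ) * (fourierC L ψ k * ek L k x)) (tm L) := by
    intro k
    refine (hw.ofReal).mul_bdd (c := ‖fourierC L ψ k‖)
      (continuous_const.mul (continuous_ek L k)).aestronglyMeasurable ?_
    exact Eventually.of_forall fun z => by rw [norm_mul, norm_ek, mul_one]
  have h1 := hasSum_integral_of_summable_integral_norm (μ := tm L)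
      (F := fun k x => (w x : ℂ) * (fourierC L ψ k * ek L k x)) hwi
      (by
        have e : (fun k => ∫ x, ‖(w x : ℂ) * (fourierC L ψ k * ek L k x)‖ ∂tm L) =
            fun k => (∫ x, ‖w x‖ ∂tm L) * ‖fourierC L ψ k‖ := by
          funext k
          simp only [norm_mul, norm_ek, mul_one, Complex.norm_real]
          rw [integral_mul_const]
        rw [e]
        exact hs.mul_left _)
  have e1 : ∫ x, ∑' k, (w x : ℂ) * (fourierC L ψ k * ek L k x) ∂tm L = ∫ x, (w x : ℂ) * ψ x ∂tm L := by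
    refine integral_congr_ae ?_
    filter_upwards [hasSum_slice hL hψ hs] with x hx
    rw [tsum_mul_left, hx.tsum_eq]
  rw [e1] at h1
  refine h1.congr_fun ?_
  intro k
  have h2 : ∫ x, (w x : ℂ) * (fourierC L ψ k * ek L k x) ∂tm L =
      fourierC L ψ k * ∫ x, (w x : ℂ) * ek L k x ∂tm L := by
    rw [← integral_const_mul]
    congr 1
    funext x
    ring
  rw [h2, fourierC_eq L (fun x => (w x : ℂ)), map_mul, Complex.conj_ofReal, ← integral_conj]
  have h3 : ∀ x, conj ((w x : ℂ) * ek L (-k) x) = (w x : ℂ) * ek L k x := by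
    intro x
    rw [map_mul, conj_ek, neg_neg, Complex.conj_ofReal]
  simp_rw [h3]
  have : (L : ℂ) ≠ 0 := by exact_mod_cast hL.ne'
  push_cast
  field_simp

/-- Fourier coefficients of a product. -/
lemma product_coef {L : ℝ} (hL : 0 < L) (f g : L2 L) (k : Z2) :
    HasSum (fun p => rc f p * rc g (k - p)) (fourierC L (fun x => ((f x * g x : ℝ) : ℂ)) k) := by
  have hF : MemLp (fun x => (f x : ℂ) * ek L k x) 2 (tm L) := by
    have := (memLp_ofReal f)
    refine MemLp.of_le (g := fun x => (f x : ℂ)) this ?_ ?_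
    · exact this.aestronglyMeasurable.mul (continuous_ek L k).aestronglyMeasurable
    · exact Eventually.of_forall fun z => by rw [norm_mul, norm_ek, mul_one]
  have h1 := parseval hL hF (memLp_ofReal g)
  have e1 : ∀ l, fourierC L (fun x => (f x : ℂ) * ek L k x) l = rc f (l - k) := by
    intro l
    unfold rc
    rw [fourierC_eq, fourierC_eq]
    congr 2
    funext x
    rw [mul_assoc, ← ek_add]
    congr 2
    abel
  simp_rw [e1] at h1
  have e2 : ∀ l, conj (rc f (l - k)) = rc f (k - l) := by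
    intro l
    rw [← rc_neg]
    congr 1
    abel
  simp_rw [e2] at h1
  have e3 : ∀ x, conj ((f x : ℂ) * ek L k x) * (g x : ℂ) = ((f x * g x : ℝ) : ℂ) * ek L (-k) x := by
    intro x
    rw [map_mul, conj_ek, Complex.conj_ofReal]
    push_cast
    ring
  simp_rw [e3] at h1
  have h2 := h1.mul_left (((1 / L ^ 2 : ℝ) : ℂ))
  rw [← fourierC_eq] at h2
  have hL' : (L : ℂ) ≠ 0 := by exact_mod_cast hL.ne'
  have e4 : (fun i => ((1 / L ^ 2 : ℝ) : ℂ) * ((L : ℂ) ^ 2 * (rc f (k - i) *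
      fourierC L (fun x => (g x : ℂ)) i))) = fun i => rc f (k - i) * rc g i := by
    funext i
    unfold rc
    push_cast
    field_simp
  rw [e4] at h2
  have h3 := (Equiv.subLeft k).hasSum_iff.2 h2
  refine h3.congr_fun ?_
  intro p
  simp

end Pool.Agent.Lib.P3e0609
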